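import Pool.Agent.W466.EG

/-!
Scaling of the points of the curves `y² = x³ + A x + B`, and relations between points near the
origin at one place (helper file for Zilber-Pink for random families with random sections).
-/

namespace Pool.Agent.TH971.RF

open WeierstrassCurve WeierstrassCurve.Affine Pool.Agent.W466.EP

section scale

variable {L : Type*} [Field L]

theorem nons_iff (A B x y : L) : (crv A B).Nonsingular x y ↔
    y ^ 2 = x ^ 3 + A * x + B ∧ (3 * x ^ 2 + A ≠ 0 ∨ y ≠ -y) := by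
  rw [WeierstrassCurve.Affine.nonsingular_iff, WeierstrassCurve.Affine.equation_iff]
  simp only [crv, zero_mul, mul_zero, add_zero, sub_zero]
  constructor
  · rintro ⟨h1, h2⟩
    exact ⟨h1, h2.imp (fun h => h.symm) id⟩
  · rintro ⟨h1, h2⟩
    exact ⟨h1, h2.imp (fun h => h.symm) id⟩

theorem nons_scale {A B x y u : L} (hu : u ≠ 0) (h : (crv A B).Nonsingular x y) :
    (crv (u ^ 4 * A) (u ^ 6 * B)).Nonsingular (u ^ 2 * x) (u ^ 3 * y) := by
  rw [nons_iff] at h ⊢
  obtain ⟨h1, h2⟩ := h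
  refine ⟨by linear_combination u ^ 6 * h1, ?_⟩
  rcases h2 with h2 | h2
  · left
    have h3 : 3 * (u ^ 2 * x) ^ 2 + u ^ 4 * A = u ^ 4 * (3 * x ^ 2 + A) := by ring
    rw [h3]
    exact mul_ne_zero (pow_ne_zero _ hu) h2
  · right
    intro h3
    apply h2
    have h4 : u ^ 3 * y = u ^ 3 * (-y) := by rw [mul_neg]; exact h3
    exact mul_left_cancel₀ (pow_ne_zero _ hu) h4

/-- the map `(x, y) ↦ (u² x, u³ y)` -/
def scl {A B u : L} (hu : u ≠ 0) : (crv A B).Point → (crv (u ^ 4 * A) (u ^ 6 * B)).Point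
  | .zero => .zero
  | .some x y h => .some (u ^ 2 * x) (u ^ 3 * y) (nons_scale hu h)

theorem xx_scl {A B u : L} (hu : u ≠ 0) (P : (crv A B).Point) : xx (scl hu P) = u ^ 2 * xx P := by
  rcases P with _ | ⟨x, y, hn⟩
  · change (0 : L) = u ^ 2 * 0
    rw [mul_zero]
  · rfl

theorem scl_eq_zero {A B u : L} (hu : u ≠ 0) (P : (crv A B).Point) : scl hu P = 0 ↔ P = 0 := by
  rcases P with _ | ⟨x, y, hn⟩
  · exact ⟨fun _ => rfl, fun _ => rfl⟩
  · constructor
    · intro h
      exact absurd h (Point.some_ne_zero _)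
    · intro h
      exact absurd h (Point.some_ne_zero _)

theorem negY_crv (A B x y : L) : (crv A B).negY x y = -y := by
  rw [negY, crv_a1, crv_a3]
  ring

variable [DecidableEq L]

theorem slope_scl {A B u : L} (hu : u ≠ 0) (x1 x2 y1 y2 : L) :
    (crv (u ^ 4 * A) (u ^ 6 * B)).slope (u ^ 2 * x1) (u ^ 2 * x2) (u ^ 3 * y1) (u ^ 3 * y2) =
      u * (crv A B).slope x1 x2 y1 y2 := by
  have hu2 : u ^ 2 ≠ 0 := pow_ne_zero _ hu
  have hu3 : u ^ 3 ≠ 0 := pow_ne_zero _ hu
  by_cases hx : x1 = x2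
  · subst hx
    by_cases hy : y1 = (crv A B).negY x1 y2
    · rw [slope_of_Y_eq rfl hy, slope_of_Y_eq rfl, mul_zero]
      rw [negY_crv] at hy ⊢
      rw [hy]
      ring
    · rw [slope_of_Y_ne rfl hy, slope_of_Y_ne rfl]
      · rw [negY_crv, negY_crv, crv_a1, crv_a1, crv_a2, crv_a2, crv_a4, crv_a4]
        rw [mul_div_assoc']
        by_cases h0 : y1 - -y1 = 0
        · have h1 : u ^ 3 * y1 - -(u ^ 3 * y1) = u ^ 3 * (y1 - -y1) := by ring
          rw [h1, h0]
          simp only [mul_zero, div_zero]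
        · have h1 : u ^ 3 * y1 - -(u ^ 3 * y1) = u ^ 3 * (y1 - -y1) := by ring
          rw [h1, div_eq_div_iff (mul_ne_zero hu3 h0) h0]
          ring
      · intro h
        apply hy
        rw [negY_crv] at h ⊢
        have h4 : u ^ 3 * y1 = u ^ 3 * (-y2) := by rw [mul_neg]; exact h
        exact mul_left_cancel₀ hu3 h4
  · rw [slope_of_X_ne hx, slope_of_X_ne (fun h => hx (mul_left_cancel₀ hu2 h))]
    have h0 : x1 - x2 ≠ 0 := sub_ne_zero.2 hx
    have h1 : u ^ 2 * x1 - u ^ 2 * x2 = u ^ 2 * (x1 - x2) := by ring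
    rw [h1, mul_div_assoc', div_eq_div_iff (mul_ne_zero hu2 h0) h0]
    ring

theorem scl_add {A B u : L} (hu : u ≠ 0) (P Q : (crv A B).Point) :
    scl hu (P + Q) = scl hu P + scl hu Q := by
  rcases P with _ | ⟨x1, y1, hn1⟩
  · change scl hu (0 + Q) = 0 + scl hu Q
    rw [zero_add, zero_add]
  rcases Q with _ | ⟨x2, y2, hn2⟩
  · change scl hu (_ + 0) = _ + 0
    rw [add_zero, add_zero]
  have hu2 : u ^ 2 ≠ 0 := pow_ne_zero _ hu
  have hu3 : u ^ 3 ≠ 0 := pow_ne_zero _ hu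
  by_cases hxy : x1 = x2 ∧ y1 = (crv A B).negY x2 y2
  · rw [Point.add_of_Y_eq hxy.1 hxy.2]
    change (0 : (crv (u ^ 4 * A) (u ^ 6 * B)).Point) = Point.some _ _ _ + Point.some _ _ _
    rw [Point.add_of_Y_eq (by rw [hxy.1])]
    rw [negY_crv]
    rw [hxy.2, negY_crv]
    ring
  · rw [Point.add_some hxy]
    have hxy' : ¬ (u ^ 2 * x1 = u ^ 2 * x2 ∧
        u ^ 3 * y1 = (crv (u ^ 4 * A) (u ^ 6 * B)).negY (u ^ 2 * x2) (u ^ 3 * y2)) := by
      rintro ⟨h1, h2⟩
      apply hxy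
      refine ⟨mul_left_cancel₀ hu2 h1, ?_⟩
      rw [negY_crv] at h2 ⊢
      have h4 : u ^ 3 * y1 = u ^ 3 * (-y2) := by rw [mul_neg]; exact h2
      exact mul_left_cancel₀ hu3 h4
    change Point.some _ _ _ = Point.some _ _ _ + Point.some _ _ _
    rw [Point.add_some hxy', Point.some.injEq]
    rw [slope_scl hu]
    constructor
    · simp only [addX, crv_a1, crv_a2]
      ring
    · simp only [addY, negAddY, addX, negY, crv_a1, crv_a2, crv_a3]
      ring

/-- scaling is a homomorphism -/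
def sclHom {A B u : L} (hu : u ≠ 0) : (crv A B).Point →+ (crv (u ^ 4 * A) (u ^ 6 * B)).Point where
  toFun := scl hu
  map_zero' := rfl
  map_add' := scl_add hu

end scale

end Pool.Agent.TH971.RF
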