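import Pool.Agent.TH971.RF.A1

/-!
Relations between points near the origin at one place (helper file for Zilber-Pink for random
families with random sections).
-/

namespace Pool.Agent.TH971.RF

open WeierstrassCurve WeierstrassCurve.Affine Pool.Agent.W466.EP

section place

variable {L : Type*} [Field L] [DecidableEq L] {Γ₀ : Type*} [LinearOrderedCommGroupWithZero Γ₀]
  {v : Valuation L Γ₀}

/-- There is no relation between at most two points near the origin whose levels have different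
parities. -/
theorem rel_place {A B : L} (h2 : (2 : L) ≠ 0) (hA : v A ≤ 1) (hB : v B ≤ 1) {p : ℕ}
    (hpp : p.Prime) (hp0 : 0 < v (p : L)) (hp : v (p : L) < 1) {ι : Type*} (J : Finset ι)
    (P : ι → (crv A B).Point) (f : ι → ℕ) (hf : ∀ i ∈ J, v (xx (P i)) * v (p : L) ^ f i = 1)
    (hf0 : ∀ i ∈ J, 0 < f i) (hdis : ∀ i ∈ J, ∀ j ∈ J, i ≠ j → f i % 2 ≠ f j % 2)
    (a : ι → ℤ) (ha : ∃ i ∈ J, a i ≠ 0) {t : ℕ} (ht : 0 < t)
    (hrel : t • ∑ i ∈ J, a i • P i = 0) : False := by
  classical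
  have hpow : ∀ {m n : ℕ}, v (p : L) ^ m = v (p : L) ^ n → m = n := fun {m n} h =>
    pow_right_injective₀ hp0 hp.ne h
  -- the points of `J`
  have hpt : ∀ i ∈ J, P i ≠ 0 ∧ Fm v (P i) ∧ v (tt (P i)) ^ 2 = v (p : L) ^ f i := by
    intro i hi
    have h1 := hf i hi
    have h3 := hf0 i hi
    have h4 : v (p : L) ^ f i < 1 := pow_lt_one₀ zero_le hp h3.ne'
    generalize hPi : P i = Q at h1
    rcases Q with _ | ⟨x, y, hn⟩
    · exfalso
      change v (0 : L) * _ = 1 at h1
      rw [map_zero, zero_mul] at h1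
      exact zero_ne_one h1
    · change v x * _ = 1 at h1
      have hx : 1 < v x := by
        by_contra hcon
        push Not at hcon
        have h5 : v x * v (p : L) ^ f i < 1 := (mul_le_of_le_one_left' hcon).trans_lt h4
        rw [h1] at h5
        exact lt_irrefl _ h5
      refine ⟨Point.some_ne_zero hn, hx, ?_⟩
      have h5 := (loc hA hB (eqn hn) hx).2.2.2.1
      change v (x / y) ^ 2 = _
      have h6 : v x ≠ 0 := (zero_lt_one.trans hx).ne'
      refine mul_right_cancel₀ h6 ?_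
      rw [h5, mul_comm]
      exact h1.symm
  have h4 : ∀ i ∈ J, v (tt (P i)) ^ 4 < v (p : L) := by
    intro i hi
    have h5 : v (tt (P i)) ^ 4 = (v (tt (P i)) ^ 2) ^ 2 := by rw [← pow_mul]
    rw [h5, (hpt i hi).2.2, ← pow_mul]
    have h6 := hf0 i hi
    calc v (p : L) ^ (f i * 2) < v (p : L) ^ 1 := pow_lt_pow_right_of_lt_one₀ hp0 hp (by omega)
      _ = v (p : L) := pow_one _
  -- the terms of the relation
  let J' : Finset ι := J.filter fun i => a i ≠ 0
  have hJ' : ∀ i ∈ J', i ∈ J ∧ a i ≠ 0 := fun i hi => Finset.mem_filter.1 hi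
  have hJne : J'.Nonempty := by
    obtain ⟨i, hi, hai⟩ := ha
    exact ⟨i, Finset.mem_filter.2 ⟨hi, hai⟩⟩
  have hta : ∀ i ∈ J', (t : ℤ) * a i ≠ 0 := fun i hi =>
    mul_ne_zero (by exact_mod_cast ht.ne') (hJ' i hi).2
  have hval : ∀ i ∈ J', Fm v (((t : ℤ) * a i) • P i) ∧
      v (tt (((t : ℤ) * a i) • P i)) ^ 2 =
        v (p : L) ^ (2 * ((t : ℤ) * a i).natAbs.factorization p + f i) := by
    intro i hi
    obtain ⟨h5, h6, h7⟩ := hpt i (hJ' i hi).1
    have h8 := zsmul_val hA hB h2 hpp hp0 hp h6 h5 (h4 i (hJ' i hi).1) (hta i hi)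
    refine ⟨h8.1, ?_⟩
    rw [h8.2, mul_pow, h7, v_int_pow hpp hp (hta i hi), ← pow_mul, ← pow_add]
    congr 1
    ring
  have hne : ∀ i ∈ J', ∀ j ∈ J', i ≠ j →
      v (tt (((t : ℤ) * a i) • P i)) ≠ v (tt (((t : ℤ) * a j) • P j)) := by
    intro i hi j hj hij h
    have h5 := (hval i hi).2
    rw [h, (hval j hj).2] at h5
    have h6 := hpow h5
    apply hdis j (hJ' j hj).1 i (hJ' i hi).1 hij.symm
    omega
  obtain ⟨hFm, i, hi, hvi, -⟩ := sum_val hA hB h2 J' (fun i => ((t : ℤ) * a i) • P i)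
    (fun i hi => (hval i hi).1) hne hJne
  have hsum : t • ∑ i ∈ J, a i • P i = ∑ i ∈ J', ((t : ℤ) * a i) • P i := by
    rw [Finset.smul_sum, Finset.sum_filter]
    refine Finset.sum_congr rfl fun i _ => ?_
    split_ifs with h
    · rw [mul_smul, natCast_zsmul]
    · push Not at h
      rw [h, zero_smul, smul_zero]
  rw [hsum] at hrel
  have hv2 : v (tt (∑ i ∈ J', ((t : ℤ) * a i) • P i)) ^ 2 =
      v (p : L) ^ (2 * ((t : ℤ) * a i).natAbs.factorization p + f i) := by
    rw [hvi, (hval i hi).2]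
  rw [hrel] at hv2
  change v (0 : L) ^ 2 = _ at hv2
  rw [map_zero, zero_pow two_ne_zero] at hv2
  exact (pow_pos hp0 _).ne hv2

end place

end Pool.Agent.TH971.RF
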