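import Pool.Agent.W466.EH
import Pool.Agent.TH971.RF.A2
import Pool.Agent.TH971.RF.A3
import Pool.Agent.TH971.RF.A4

/-!
The criterion for Zilber-Pink for random families of elliptic curves with random sections.
-/

open Function MvPolynomial H294ZP

namespace Pool.Agent.TH971.RF

open Pool.Agent.W466.ZP Pool.Agent.W282.RW Pool.Agent.W466.EP

section comb

variable {q m : ℕ}

open Classical in
/-- the level of a section: `2` for the second element of a pair of `C`, otherwise `1` -/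
noncomputable def lev (C : Finset (Finset (Fin q))) (l : Fin q) : ℕ :=
  if ∃ J ∈ C, ∃ l' ∈ J, l ∈ J ∧ l' < l then 2 else 1

open Classical in
/-- the linear form attached to a section -/
noncomputable def asg (C : Finset (Finset (Fin q))) (a2 : Finset (Fin q) → Fin (m + 1))
    (l : Fin q) : Fin (m + 1) :=
  if h : ∃ J ∈ C, l ∈ J then a2 h.choose else 0

theorem lev_pos (C : Finset (Finset (Fin q))) (l : Fin q) : 0 < lev C l ∧ lev C l ≤ 2 := by
  unfold lev
  split_ifs <;> omega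

theorem asg_eq {C : Finset (Finset (Fin q))} (hdis : ∀ J ∈ C, ∀ J' ∈ C, J ≠ J' → Disjoint J J')
    (a2 : Finset (Fin q) → Fin (m + 1)) {J : Finset (Fin q)} (hJ : J ∈ C) {l : Fin q}
    (hl : l ∈ J) : asg C a2 l = a2 J := by
  have h : ∃ J ∈ C, l ∈ J := ⟨J, hJ, hl⟩
  rw [asg, dif_pos h]
  congr 1
  by_contra hne
  exact Finset.disjoint_left.1 (hdis _ h.choose_spec.1 J hJ hne) h.choose_spec.2 hl

theorem lev_ne {C : Finset (Finset (Fin q))} (hdis : ∀ J ∈ C, ∀ J' ∈ C, J ≠ J' → Disjoint J J')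
    {J : Finset (Fin q)} (hJ : J ∈ C) (hJ2 : J.card ≤ 2) {l l' : Fin q} (hl : l ∈ J)
    (hl' : l' ∈ J) (hlt : l < l') : lev C l = 1 ∧ lev C l' = 2 := by
  constructor
  · unfold lev
    rw [if_neg]
    rintro ⟨J', hJ', l'', hl'', hlJ', hlt'⟩
    have hJJ : J' = J := by
      by_contra hne
      exact Finset.disjoint_left.1 (hdis _ hJ' J hJ hne) hlJ' hl
    subst hJJ
    have h1 : ({l'', l, l'} : Finset (Fin q)) ⊆ J' := by
      intro w hw
      simp only [Finset.mem_insert, Finset.mem_singleton] at hw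
      rcases hw with rfl | rfl | rfl
      · exact hl''
      · exact hl
      · exact hl'
    have h2 := Finset.card_le_card h1
    have h3 : ({l'', l, l'} : Finset (Fin q)).card = 3 := by
      rw [Finset.card_eq_three]
      exact ⟨l'', l, l', hlt'.ne, (hlt'.trans hlt).ne, hlt.ne, rfl⟩
    omega
  · unfold lev
    rw [if_pos ⟨J, hJ, l, hl, hl', hlt⟩]

/-- All linear forms outside of `S` are attached to a relation between the `j`-invariants or to one
of the conditions in `C`. -/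
def Cover {n k : ℕ} (lam : Fin n → Option (Fin k)) (C : Finset (Finset (Fin q)))
    (S : Finset (Fin (m + 1))) (a1 : Fin n → Fin (m + 1)) (a2 : Finset (Fin q) → Fin (m + 1)) :
    Prop :=
  ∀ b, b ∉ S → (∃ i, (lam i = none ∨ ∃ i' < i, lam i' = lam i) ∧ a1 i = b) ∨ ∃ J ∈ C, a2 J = b

theorem exists_cover {n k : ℕ} (lam : Fin n → Option (Fin k)) (C : Finset (Finset (Fin q)))
    (S : Finset (Fin (m + 1))) (h : k + (m + 1) ≤ n + C.card + S.card) :
    ∃ a1 a2, Cover lam C S a1 a2 := by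
  classical
  let R : Finset (Fin n) := Finset.univ.filter (fun i => lam i = none ∨ ∃ i' < i, lam i' = lam i)
  have hR : n ≤ R.card + k := by
    let R' : Finset (Fin n) := Finset.univ.filter
      (fun i => ¬ (lam i = none ∨ ∃ i' < i, lam i' = lam i))
    have h1 : R.card + R'.card = n := by
      have := Finset.card_filter_add_card_filter_not (s := (Finset.univ : Finset (Fin n)))
        (fun i => lam i = none ∨ ∃ i' < i, lam i' = lam i)
      rw [Finset.card_univ, Fintype.card_fin] at this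
      exact this
    have h2 : R'.card ≤ k := by
      have h3 : (R'.image lam).card = R'.card := by
        apply Finset.card_image_of_injOn
        intro i hi i' hi' he
        simp only [R', Finset.coe_filter, Finset.mem_univ, true_and, Set.mem_ofPred_eq,
          not_or, not_exists, not_and] at hi hi'
        rcases lt_trichotomy i i' with hlt | heq | hgt
        · exact absurd he (hi'.2 i hlt)
        · exact heq
        · exact absurd he.symm (hi.2 i' hgt)
      have h4 : R'.image lam ⊆ (Finset.univ : Finset (Fin k)).image some := by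
        intro c hc
        obtain ⟨i, hi, rfl⟩ := Finset.mem_image.1 hc
        simp only [R', Finset.mem_filter, Finset.mem_univ, true_and, not_or] at hi
        obtain ⟨c', hc'⟩ := Option.ne_none_iff_exists'.1 hi.1
        rw [hc']
        exact Finset.mem_image_of_mem _ (Finset.mem_univ _)
      have h5 := Finset.card_le_card h4
      rw [h3, Finset.card_image_of_injective _ (Option.some_injective _), Finset.card_univ,
        Fintype.card_fin] at h5
      exact h5
    omega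
  have hSc : Sᶜ.card + S.card = m + 1 := by
    rw [Finset.card_compl_add_card, Fintype.card_fin]
  have hle : Sᶜ.card ≤ Fintype.card (R ⊕ C) := by
    rw [Fintype.card_sum, Fintype.card_coe, Fintype.card_coe]
    omega
  have hemb : Nonempty ((Sᶜ : Finset (Fin (m + 1))) ↪ (R ⊕ C)) := by
    refine Function.Embedding.nonempty_of_card_le ?_
    rw [Fintype.card_coe]
    exact hle
  obtain ⟨φ⟩ := hemb
  refine ⟨fun i => if hi : ∃ b : (Sᶜ : Finset (Fin (m + 1))), ∃ h : i ∈ R, φ b = Sum.inl ⟨i, h⟩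
      then hi.choose else 0,
    fun J => if hJ : ∃ b : (Sᶜ : Finset (Fin (m + 1))), ∃ h : J ∈ C, φ b = Sum.inr ⟨J, h⟩
      then hJ.choose else 0, ?_⟩
  intro b hb
  have hb' : b ∈ Sᶜ := Finset.mem_compl.2 hb
  cases hφ : φ ⟨b, hb'⟩ with
  | inl i =>
    left
    obtain ⟨i, hi⟩ := i
    refine ⟨i, (Finset.mem_filter.1 hi).2, ?_⟩
    have hex : ∃ b : (Sᶜ : Finset (Fin (m + 1))), ∃ h : i ∈ R, φ b = Sum.inl ⟨i, h⟩ :=
      ⟨⟨b, hb'⟩, hi, hφ⟩
    change (if hi : ∃ b : (Sᶜ : Finset (Fin (m + 1))), ∃ h : i ∈ R, φ b = Sum.inl ⟨i, h⟩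
      then (hi.choose : Fin (m + 1)) else 0) = b
    rw [dif_pos hex]
    obtain ⟨_, h2⟩ := hex.choose_spec
    have h3 := φ.injective (h2.trans hφ.symm)
    rw [h3]
  | inr J =>
    right
    obtain ⟨J, hJ⟩ := J
    refine ⟨J, hJ, ?_⟩
    have hex : ∃ b : (Sᶜ : Finset (Fin (m + 1))), ∃ h : J ∈ C, φ b = Sum.inr ⟨J, h⟩ :=
      ⟨⟨b, hb'⟩, hJ, hφ⟩
    change (if hJ : ∃ b : (Sᶜ : Finset (Fin (m + 1))), ∃ h : J ∈ C, φ b = Sum.inr ⟨J, h⟩
      then (hJ.choose : Fin (m + 1)) else 0) = b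
    rw [dif_pos hex]
    obtain ⟨_, h2⟩ := hex.choose_spec
    have h3 := φ.injective (h2.trans hφ.symm)
    rw [h3]

end comb

section crit

variable {σ : Type} [Fintype σ] [DecidableEq σ]

/-- The congruences for the numerators and denominators of the sections. -/
structure CongS {q m : ℕ} (K p : ℕ) (E d : Fin q → ℕ) (s : Fin (m + 1) → σ → ℤ)
    (C : Finset (Finset (Fin q))) (a2 : Finset (Fin q) → Fin (m + 1))
    (a : ∀ l, Sym σ (E l) → ℤ) (b : ∀ l, Sym σ (d l) → ℤ) : Prop where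
  num : ∀ l u, (p : ℤ) ^ K ∣ a l u - pw _ (s (asg C a2 l)) u
  den : ∀ l u, (p : ℤ) ^ K ∣ b l u - (p : ℤ) ^ lev C l * pw _ (s (asg C a2 l)) u

/-- The values of numerator and denominator, if the linear form is a unit. -/
theorem sec_unit {q m K p : ℕ} {E d : Fin q → ℕ} {s : Fin (m + 1) → σ → ℤ}
    {C : Finset (Finset (Fin q))} {a2 : Finset (Fin q) → Fin (m + 1)}
    {a : ∀ l, Sym σ (E l) → ℤ} {b : ∀ l, Sym σ (d l) → ℤ} (hK : 3 ≤ K) (hp : p.Prime)
    (hC : CongS K p E d s C a2 a b) (V : ValuationSubring ℂ) (hV : (p : ℂ) ∈ V.nonunits)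
    {y : σ → ℂ} (hy : ∀ j, y j ∈ V) (l : Fin q)
    (hu : V.valuation (∑ j, (s (asg C a2 l) j : ℂ) * y j) = 1) :
    V.valuation (ev (a l) y) = 1 ∧ V.valuation (ev (b l) y) = V.valuation (p : ℂ) ^ lev C l := by
  set v := V.valuation with hv
  have hvp : v (p : ℂ) < 1 := by rwa [ValuationSubring.mem_nonunits_iff] at hV
  have hvp0 : v (p : ℂ) ≠ 0 := (Valuation.ne_zero_iff _).2 (by exact_mod_cast hp.ne_zero)
  have hpos : 0 < v (p : ℂ) := zero_lt_iff.2 hvp0
  have hcast : v (((p : ℤ) ^ K : ℤ) : ℂ) = v (p : ℂ) ^ K := by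
    push_cast
    rw [map_pow]
  set w : ℂ := ∑ j, (s (asg C a2 l) j : ℂ) * y j with hw
  have hwd : ∀ D, v (w ^ D) = 1 := fun D => by rw [map_pow, hu, one_pow]
  constructor
  · have h1 := ev_congr V hy ((p : ℤ) ^ K) (c' := pw (E l) (s (asg C a2 l))) (hC.num l)
    rw [← hv, hcast, ev_pw, ← hw] at h1
    have h2 : v (ev (a l) y - w ^ E l) < v (w ^ E l) := by
      rw [hwd]
      exact h1.trans_lt (pow_lt_one₀ zero_le hvp (by omega))
    have h3 : ev (a l) y = (ev (a l) y - w ^ E l) + w ^ E l := by ring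
    rw [h3, Valuation.map_add_eq_of_lt_right _ h2, hwd]
  · have h1 := ev_congr V hy ((p : ℤ) ^ K)
      (c' := fun u => (p : ℤ) ^ lev C l * pw (d l) (s (asg C a2 l)) u) (hC.den l)
    rw [← hv, hcast, ev_zsmul, ev_pw, ← hw] at h1
    have h4 : v ((((p : ℤ) ^ lev C l : ℤ) : ℂ) * w ^ d l) = v (p : ℂ) ^ lev C l := by
      rw [map_mul, hwd, mul_one]
      push_cast
      rw [map_pow]
    have h2 : v (ev (b l) y - (((p : ℤ) ^ lev C l : ℤ) : ℂ) * w ^ d l) <
        v ((((p : ℤ) ^ lev C l : ℤ) : ℂ) * w ^ d l) := by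
      rw [h4]
      refine h1.trans_lt (pow_lt_pow_right_of_lt_one₀ hpos hvp ?_)
      have := (lev_pos C l).2
      omega
    have h3 : ev (b l) y = (ev (b l) y - (((p : ℤ) ^ lev C l : ℤ) : ℂ) * w ^ d l) +
        (((p : ℤ) ^ lev C l : ℤ) : ℂ) * w ^ d l := by ring
    rw [h3, Valuation.map_add_eq_of_lt_right _ h2, h4]

/-- The condition attached to a set `J` of sections at the point `y`: the sections in `J` belong to
the same family and there is a non-trivial relation between their values, up to torsion. -/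
def Rel {n q : ℕ} {e : Fin n → ℕ} (g : Fin q → Fin n) {d : Fin q → ℕ}
    (A : ∀ i, Sym σ (4 * e i) → ℤ) (B : ∀ i, Sym σ (6 * e i) → ℤ)
    (a : ∀ l, Sym σ (2 * e (g l) + d l) → ℤ) (b : ∀ l, Sym σ (d l) → ℤ) (y : σ → ℂ)
    (J : Finset (Fin q)) : Prop :=
  ∃ i, (∀ l ∈ J, g l = i) ∧ ∃ (P : Fin q → (crv (ev (A i) y) (ev (B i) y)).Point) (ρ : Fin q → ℤ)
    (t : ℕ), 0 < t ∧ (∀ l ∈ J, (P l = 0 ∧ ev (b l) y = 0) ∨
      (P l ≠ 0 ∧ ev (b l) y * xx (P l) = ev (a l) y)) ∧ (∃ l ∈ J, ρ l ≠ 0) ∧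
    t • ∑ l ∈ J, ρ l • P l = 0

/-- A relation between the sections in `J` forces the linear form to be a non-unit. -/
theorem rel_nonunit {n q m K p : ℕ} {e : Fin n → ℕ} {g : Fin q → Fin n} {d : Fin q → ℕ}
    {A : ∀ i, Sym σ (4 * e i) → ℤ} {B : ∀ i, Sym σ (6 * e i) → ℤ}
    {a : ∀ l, Sym σ (2 * e (g l) + d l) → ℤ} {b : ∀ l, Sym σ (d l) → ℤ}
    {s : Fin (m + 1) → σ → ℤ} {C : Finset (Finset (Fin q))} {a2 : Finset (Fin q) → Fin (m + 1)}
    (hK : 3 ≤ K) (hp : p.Prime) (hC : CongS K p (fun l => 2 * e (g l) + d l) d s C a2 a b)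
    (hdis : ∀ J ∈ C, ∀ J' ∈ C, J ≠ J' → Disjoint J J')
    (V : ValuationSubring ℂ) (hV : (p : ℂ) ∈ V.nonunits)
    {y : σ → ℂ} {c : ℂ} (hc : c ≠ 0) (hy : ∀ j, (c • y) j ∈ V) {J : Finset (Fin q)} (hJ : J ∈ C)
    (hJ2 : J.card ≤ 2) (hrel : Rel g A B a b y J)
    (hu : V.valuation (∑ j, (s (a2 J) j : ℂ) * (c • y) j) = 1) : False := by
  obtain ⟨i, hgi, P, ρ, t, ht, hP, hρ, hrel⟩ := hrel
  set v := V.valuation with hv
  have hvp : v (p : ℂ) < 1 := by rwa [ValuationSubring.mem_nonunits_iff] at hV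
  have hvp0 : v (p : ℂ) ≠ 0 := (Valuation.ne_zero_iff _).2 (by exact_mod_cast hp.ne_zero)
  have hpos : 0 < v (p : ℂ) := zero_lt_iff.2 hvp0
  have hu0 : c ^ e i ≠ 0 := pow_ne_zero _ hc
  have hA : v ((c ^ e i) ^ 4 * ev (A i) y) ≤ 1 := by
    have h1 : (c ^ e i) ^ 4 * ev (A i) y = ev (A i) (c • y) := by
      rw [ev_smul, ← pow_mul]
      congr 2
      ring
    rw [h1]
    exact (ValuationSubring.valuation_le_one_iff V _).2 (ev_mem V hy _)
  have hB : v ((c ^ e i) ^ 6 * ev (B i) y) ≤ 1 := by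
    have h1 : (c ^ e i) ^ 6 * ev (B i) y = ev (B i) (c • y) := by
      rw [ev_smul, ← pow_mul]
      congr 2
      ring
    rw [h1]
    exact (ValuationSubring.valuation_le_one_iff V _).2 (ev_mem V hy _)
  refine rel_place (v := v) two_ne_zero hA hB hp hpos hvp J (fun l => scl hu0 (P l)) (lev C) ?_
    (fun l _ => (lev_pos C l).1) ?_ ρ hρ ht ?_
  · intro l hl
    have hasg := asg_eq hdis a2 hJ hl
    obtain ⟨h1, h2⟩ := sec_unit hK hp hC V hV hy l (by rw [hasg]; exact hu)
    rw [← hv] at h1 h2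
    have h3 : ev (b l) y ≠ 0 := by
      intro h0
      rw [ev_smul, h0, mul_zero, map_zero] at h2
      exact (pow_pos hpos _).ne h2
    rcases hP l hl with ⟨-, h4⟩ | ⟨-, h4⟩
    · exact absurd h4 h3
    · have h5 : ev (b l) (c • y) * xx (scl hu0 (P l)) = ev (a l) (c • y) := by
        rw [xx_scl, ev_smul, ev_smul, ← h4, hgi l hl]
        have h6 : c ^ (2 * e i + d l) = c ^ d l * (c ^ e i) ^ 2 := by
          rw [pow_add, ← pow_mul, mul_comm, mul_comm (e i) 2]
        rw [h6]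
        ring
      have h6 := congrArg v h5
      rw [map_mul, h1, h2, mul_comm] at h6
      exact h6
  · intro l hl l' hl' hne
    rcases lt_or_gt_of_ne hne with hlt | hlt
    · obtain ⟨h1, h2⟩ := lev_ne hdis hJ hJ2 hl hl' hlt
      rw [h1, h2]
      norm_num
    · obtain ⟨h1, h2⟩ := lev_ne hdis hJ hJ2 hl' hl hlt
      rw [h1, h2]
      norm_num
  · have h1 := congrArg (sclHom hu0) hrel
    rw [map_nsmul, map_sum, map_zero] at h1
    rw [← h1]
    congr 1
    refine Finset.sum_congr rfl fun l _ => ?_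
    rw [map_zsmul]
    rfl

end crit

end Pool.Agent.TH971.RF
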