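import Pool.Agent.TH971.RF.A5

/-!
The criterion for Zilber-Pink for random families of elliptic curves with random sections.
-/

open Function MvPolynomial H294ZP

namespace Pool.Agent.TH971.RF

open Pool.Agent.W466.ZP Pool.Agent.W282.RW Pool.Agent.W466.EP

variable {σ : Type} [Fintype σ] [DecidableEq σ]

omit [DecidableEq σ] in
theorem lf_smul (s : σ → ℤ) (c : ℂ) (y : σ → ℂ) :
    ∑ j, (s j : ℂ) * (c • y) j = c * ∑ j, (s j : ℂ) * y j := by
  rw [Finset.mul_sum]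
  refine Finset.sum_congr rfl fun i _ => ?_
  rw [Pi.smul_apply, smul_eq_mul]
  ring

/-- The criterion. -/
theorem criterionS {n q m K : ℕ} {e : Fin n → ℕ} (he : ∀ i, 0 < e i)
    (hK : ∀ i, 2 * e i * (n + 1) ≤ K) (hK3 : 3 ≤ K) (g : Fin q → Fin n) (d : Fin q → ℕ)
    (Y : Set (σ → ℂ)) (s : Fin (m + 1) → σ → ℤ) (D : ℕ) (hgood : Good Y s D)
    (A : ∀ i, Sym σ (4 * e i) → ℤ) (B : ∀ i, Sym σ (6 * e i) → ℤ)
    (a : ∀ l, Sym σ (2 * e (g l) + d l) → ℤ) (b : ∀ l, Sym σ (d l) → ℤ)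
    (hC : ∀ (C : Finset (Finset (Fin q))) (S : Finset (Fin (m + 1)))
      (lam : Fin n → Option (Fin (S.card + C.card + n - (m + 1)))),
      m + 1 ≤ S.card + C.card + n → ∃ p : ℕ, p.Prime ∧ 3 < p ∧ ¬ p ∣ D ∧ ∃ a1 a2,
        Cover lam C S a1 a2 ∧ CongW n (S.card + C.card + n - (m + 1)) m e K p lam s a1 A B ∧
        CongS K p (fun l => 2 * e (g l) + d l) d s C a2 a b)
    (r : ℕ) (Z : SpecialDatum n r) (x : Fin n → ℂ) (hx : x ∈ Z.locus) (y : σ → ℂ) (hy : y ≠ 0)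
    (hyY : y ∈ Y) (hxy : ∀ i, dsc (A i) (B i) y * x i = 6912 * ev (A i) y ^ 3)
    (C : Finset (Finset (Fin q))) (hC2 : ∀ J ∈ C, J.card ≤ 2)
    (hdis : ∀ J ∈ C, ∀ J' ∈ C, J ≠ J' → Disjoint J J') (hrel : ∀ J ∈ C, Rel g A B a b y J)
    (b0 : Fin (m + 1)) (hb0 : ∑ j, (s b0 j : ℂ) * y j ≠ 0) (S : Finset (Fin (m + 1)))
    (hS : AlgebraicIndependent ℚ
      (fun b : S => (∑ j, (s b0 j : ℂ) * y j)⁻¹ * ∑ j, (s b j : ℂ) * y j)) :
    S.card + C.card + n ≤ r + m := by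
  classical
  by_contra hcon
  obtain ⟨lam, hlam⟩ := pattern (k := S.card + C.card + n - (m + 1)) Z x hx ∅
    (algebraicIndependent_empty_type) (by rw [Finset.card_empty]; omega)
  obtain ⟨p, hp, hp3, hpD, a1, a2, hcov, hW, hCS⟩ := hC C S lam (by omega)
  have hp0 : (p : ℂ) ≠ 0 := by exact_mod_cast hp.ne_zero
  have hS' := Pool.Agent.W466.EP.algInd_smul hS (fun _ => (p : ℚ)⁻¹)
    (fun _ => inv_ne_zero (by exact_mod_cast hp.ne_zero))
  obtain ⟨V, hVp, hVx⟩ := exists_val _ hS' hp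
  set v := V.valuation with hv
  have hvp : v (p : ℂ) < 1 := by rwa [ValuationSubring.mem_nonunits_iff] at hVp
  obtain ⟨c, hc, hcy, hcG, bu, hbu⟩ := hgood p hp hpD V hVp y hy hyY
  obtain ⟨h1, h2⟩ := hlam V (fun i => absurd i.2 (Finset.notMem_empty _))
  -- the values of the linear forms at the normalized point
  have hle : ∀ b, v (∑ j, (s b j : ℂ) * (c • y) j) ≤ 1 := fun b =>
    (ValuationSubring.valuation_le_one_iff V _).2
      (sum_mem fun j _ => mul_mem (intCast_mem V _) (hcy j))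
  have hcase : v (∑ j, (s bu j : ℂ) * (c • y) j) < 1 := by
    by_cases hbS : bu ∈ S
    · have h3 := (ValuationSubring.valuation_le_one_iff V _).2 (hVx ⟨bu, hbS⟩)
      rw [← hv] at h3
      have h4 : (∑ j, (s bu j : ℂ) * (c • y) j) = (p : ℂ) *
          (algebraMap ℚ ℂ ((p : ℚ)⁻¹) * ((∑ j, (s b0 j : ℂ) * y j)⁻¹ *
            ∑ j, (s bu j : ℂ) * y j)) * (∑ j, (s b0 j : ℂ) * (c • y) j) := by
        rw [lf_smul, lf_smul, map_inv₀, map_natCast]
        field_simp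
      rw [h4, map_mul, map_mul]
      calc v (p : ℂ) * v (algebraMap ℚ ℂ ((p : ℚ)⁻¹) * ((∑ j, (s b0 j : ℂ) * y j)⁻¹ *
            ∑ j, (s bu j : ℂ) * y j)) * v (∑ j, (s b0 j : ℂ) * (c • y) j)
          ≤ v (p : ℂ) * 1 * 1 := by
            exact mul_le_mul' (mul_le_mul' le_rfl h3) (hle b0)
        _ < 1 := by rwa [mul_one, mul_one]
    · rcases hcov bu hbS with ⟨i, hi, hib⟩ | ⟨J, hJ, hJb⟩
      · have h3 := core2 he hp hp3 hK lam s a1 A B hW V hVp (c • y) hcy x (by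
          intro i
          rw [dsc_smul, ev_smul, mul_assoc, hxy]
          have h3 : c ^ (12 * e i) = (c ^ (4 * e i)) ^ 3 := by
            rw [← pow_mul]
            congr 1
            ring
          rw [h3]
          ring) h1 h2 i hi
        rw [hib] at h3
        exact h3
      · refine lt_of_le_of_ne (hle bu) fun hu => ?_
        rw [← hJb] at hu
        exact rel_nonunit hK3 hp hCS hdis V hVp hc hcy hJ (hC2 J hJ) (hrel J hJ) hu
  exact hcase.ne hbu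

end Pool.Agent.TH971.RF
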