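import Pool.Agent.TH971.RF.A1

/-!
Relations between points near the origin at one place, with levels in a ramified extension, and the
roots of the equations of multisections (helper file for Zilber-Pink for random families with random
multisections).
-/

namespace Pool.Agent.TH971.RF

open WeierstrassCurve WeierstrassCurve.Affine Pool.Agent.W466.EP

section place

variable {L : Type*} [Field L] [DecidableEq L] {Γ₀ : Type*} [LinearOrderedCommGroupWithZero Γ₀]
  {v : Valuation L Γ₀}

/-- There is no relation up to torsion between points near the origin with different levels. -/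
theorem rel_placeR {A B : L} (h2 : (2 : L) ≠ 0) (hA : v A ≤ 1) (hB : v B ≤ 1) {p : ℕ}
    (hpp : p.Prime) (hp : v (p : L) < 1) {ρ : Γ₀} {R : ℕ} (hR : v (p : L) = ρ ^ R) (hR0 : 0 < R)
    (hρ0 : 0 < ρ) {n : ℕ} (P : Fin n → (crv A B).Point) (J : Finset (Fin n)) (f : Fin n → ℕ)
    (hf : ∀ i ∈ J, v (xx (P i)) * ρ ^ f i = 1) (hfR : ∀ i ∈ J, R < 2 * f i)
    (hdis : ∀ i ∈ J, ∀ j ∈ J, i ≠ j → ¬ f i ≡ f j [MOD 2 * R])
    (a : Fin n → ℤ) (ha0 : a ≠ 0) (haJ : ∀ i, i ∉ J → a i = 0) {t : ℕ} (ht : 0 < t)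
    (hrel : t • ∑ i, a i • P i = 0) : False := by
  classical
  have hρ1 : ρ < 1 := by
    by_contra hcon
    push Not at hcon
    have h1 := one_le_pow₀ hcon (n := R)
    rw [← hR] at h1
    exact absurd hp (not_lt.2 h1)
  have hp0 : 0 < v (p : L) := by
    rw [hR]
    exact pow_pos hρ0 R
  have hpow : ∀ {m n : ℕ}, ρ ^ m = ρ ^ n → m = n := fun {m n} h =>
    pow_right_injective₀ hρ0 hρ1.ne h
  -- the points of `J`
  have hpt : ∀ i ∈ J, P i ≠ 0 ∧ Fm v (P i) ∧ v (tt (P i)) ^ 2 = ρ ^ f i := by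
    intro i hi
    have h1 := hf i hi
    have h3 : 0 < f i := by
      have := hfR i hi
      omega
    have h4 : ρ ^ f i < 1 := pow_lt_one₀ zero_le hρ1 h3.ne'
    generalize hPi : P i = Q at h1
    rcases Q with _ | ⟨x, y, hn⟩
    · exfalso
      change v (0 : L) * _ = 1 at h1
      rw [map_zero, zero_mul] at h1
      exact zero_ne_one h1
    · change v x * _ = 1 at h1
      have hx : 1 < v x := by
        by_contra hcon
        push Not at hcon
        have h5 : v x * ρ ^ f i < 1 := (mul_le_of_le_one_left' hcon).trans_lt h4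
        rw [h1] at h5
        exact lt_irrefl _ h5
      refine ⟨Point.some_ne_zero hn, hx, ?_⟩
      have h5 := (loc hA hB (eqn hn) hx).2.2.2.1
      change v (x / y) ^ 2 = _
      have h6 : v x ≠ 0 := (zero_lt_one.trans hx).ne'
      refine mul_right_cancel₀ h6 ?_
      rw [h5, mul_comm]
      exact h1.symm
  have h4 : ∀ i ∈ J, v (tt (P i)) ^ 4 < v (p : L) := by
    intro i hi
    have h5 : v (tt (P i)) ^ 4 = (v (tt (P i)) ^ 2) ^ 2 := by rw [← pow_mul]
    rw [h5, (hpt i hi).2.2, ← pow_mul, hR]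
    refine pow_lt_pow_right_of_lt_one₀ hρ0 hρ1 ?_
    have := hfR i hi
    omega
  -- the terms of the relation
  let J' : Finset (Fin n) := Finset.univ.filter fun i => a i ≠ 0
  have hJ' : ∀ i ∈ J', i ∈ J ∧ a i ≠ 0 := by
    intro i hi
    have h5 := (Finset.mem_filter.1 hi).2
    exact ⟨by_contra fun h => h5 (haJ i h), h5⟩
  have hJne : J'.Nonempty := by
    by_contra hcon
    rw [Finset.not_nonempty_iff_eq_empty] at hcon
    apply ha0
    funext i
    by_contra hi
    have : i ∈ J' := Finset.mem_filter.2 ⟨Finset.mem_univ i, hi⟩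
    rw [hcon] at this
    exact absurd this (Finset.notMem_empty i)
  have hta : ∀ i ∈ J', (t : ℤ) * a i ≠ 0 := fun i hi =>
    mul_ne_zero (by exact_mod_cast ht.ne') (hJ' i hi).2
  have hval : ∀ i ∈ J', Fm v (((t : ℤ) * a i) • P i) ∧
      v (tt (((t : ℤ) * a i) • P i)) ^ 2 =
        ρ ^ (2 * R * ((t : ℤ) * a i).natAbs.factorization p + f i) := by
    intro i hi
    obtain ⟨h5, h6, h7⟩ := hpt i (hJ' i hi).1
    have h8 := zsmul_val hA hB h2 hpp hp0 hp h6 h5 (h4 i (hJ' i hi).1) (hta i hi)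
    refine ⟨h8.1, ?_⟩
    rw [h8.2, mul_pow, h7, v_int_pow hpp hp (hta i hi), hR, ← pow_mul, ← pow_mul, ← pow_add]
    congr 1
    ring
  have hne : ∀ i ∈ J', ∀ j ∈ J', i ≠ j →
      v (tt (((t : ℤ) * a i) • P i)) ≠ v (tt (((t : ℤ) * a j) • P j)) := by
    intro i hi j hj hij h
    have h5 := (hval i hi).2
    rw [h, (hval j hj).2] at h5
    have h6 := hpow h5
    apply hdis j (hJ' j hj).1 i (hJ' i hi).1 hij.symm
    have h7 : (2 * R * ((t : ℤ) * a j).natAbs.factorization p + f j) ≡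
        (2 * R * ((t : ℤ) * a i).natAbs.factorization p + f i) [MOD 2 * R] := by rw [h6]
    have h8 : ∀ x y : ℕ, 2 * R * x + y ≡ y [MOD 2 * R] := fun x y => by
      have := (Nat.modEq_zero_iff_dvd.2 (Dvd.intro x rfl : 2 * R ∣ 2 * R * x)).add_right y
      rwa [zero_add] at this
    exact (h8 _ _).symm.trans (h7.trans (h8 _ _))
  obtain ⟨hFm, i, hi, hvi, -⟩ := sum_val hA hB h2 J' (fun i => ((t : ℤ) * a i) • P i)
    (fun i hi => (hval i hi).1) hne hJne
  have hsum : t • ∑ i, a i • P i = ∑ i ∈ J', ((t : ℤ) * a i) • P i := by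
    rw [Finset.smul_sum, Finset.sum_filter]
    refine Finset.sum_congr rfl fun i _ => ?_
    split_ifs with h
    · rw [mul_smul, natCast_zsmul]
    · push Not at h
      rw [h, zero_smul, smul_zero]
  rw [hsum] at hrel
  have hv2 : v (tt (∑ i ∈ J', ((t : ℤ) * a i) • P i)) ^ 2 =
      ρ ^ (2 * R * ((t : ℤ) * a i).natAbs.factorization p + f i) := by
    rw [hvi, (hval i hi).2]
  rw [hrel] at hv2
  change v (0 : L) ^ 2 = _ at hv2
  rw [map_zero, zero_pow two_ne_zero] at hv2
  exact (pow_pos hρ0 _).ne hv2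

omit [DecidableEq L] in
/-- The roots of an equation with unit constant term, leading coefficient of value `ε < 1` and
other coefficients of smaller value. -/
theorem root_val {R : ℕ} (hR : 0 < R) {ε : Γ₀} (hε0 : 0 < ε) (hε1 : ε < 1)
    (φ : Fin (R + 1) → L) (h0 : v (φ 0) = ε) (hlast : v (φ (Fin.last R)) = 1)
    (hmid : ∀ h, h ≠ 0 → h ≠ Fin.last R → v (φ h) ≤ ε) {X : L}
    (hX : ∑ h : Fin (R + 1), φ h * X ^ (R - (h : ℕ)) = 0) : v X ^ R * ε = 1 := by
  classical
  have hne : (0 : Fin (R + 1)) ≠ Fin.last R := by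
    intro h
    have := congrArg Fin.val h
    rw [Fin.val_zero, Fin.val_last] at this
    omega
  have hX1 : 1 < v X := by
    by_contra hcon
    push Not at hcon
    have h1 : v (∑ h ∈ Finset.univ.erase (Fin.last R), φ h * X ^ (R - (h : ℕ))) < 1 := by
      refine Valuation.map_sum_lt _ one_ne_zero fun h hh => ?_
      rw [map_mul, map_pow]
      have h2 : v (φ h) ≤ ε := by
        rcases eq_or_ne h 0 with rfl | h3
        · exact h0.le
        · exact hmid h h3 (Finset.ne_of_mem_erase hh)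
      exact (mul_le_of_le_one_right' (pow_le_one₀ zero_le hcon)).trans_lt (h2.trans_lt hε1)
    have h2 := Finset.add_sum_erase Finset.univ (fun h : Fin (R + 1) => φ h * X ^ (R - (h : ℕ)))
      (Finset.mem_univ (Fin.last R))
    rw [hX, Fin.val_last, Nat.sub_self, pow_zero, mul_one] at h2
    have h3 : v (φ (Fin.last R)) < 1 := by
      rw [eq_neg_of_add_eq_zero_left h2, Valuation.map_neg]
      exact h1
    exact h3.ne hlast
  have hX0 : 0 < v X := zero_lt_one.trans hX1
  have hlt : ∀ h : Fin (R + 1), h ≠ 0 → h ≠ Fin.last R → v (φ h * X ^ (R - (h : ℕ))) <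
      v (φ 0 * X ^ R) := by
    intro h h1 h2
    rw [map_mul, map_pow, map_mul, map_pow, h0]
    have h3 : (h : ℕ) ≠ 0 := fun h4 => h1 (Fin.ext h4)
    have h4 : R - (h : ℕ) < R := by omega
    calc v (φ h) * v X ^ (R - (h : ℕ)) ≤ ε * v X ^ (R - (h : ℕ)) :=
          mul_le_mul_left (hmid h h1 h2) _
      _ < ε * v X ^ R := by
          have := pow_lt_pow_right₀ hX1 h4
          gcongr
  -- the two main terms
  have hsplit : φ 0 * X ^ R + (φ (Fin.last R) +
      ∑ h ∈ (Finset.univ.erase (0 : Fin (R + 1))).erase (Fin.last R), φ h * X ^ (R - (h : ℕ)))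
      = 0 := by
    have h2 := Finset.add_sum_erase Finset.univ (fun h : Fin (R + 1) => φ h * X ^ (R - (h : ℕ)))
      (Finset.mem_univ 0)
    have h3 := Finset.add_sum_erase (Finset.univ.erase (0 : Fin (R + 1)))
      (fun h : Fin (R + 1) => φ h * X ^ (R - (h : ℕ)))
      (Finset.mem_erase.2 ⟨hne.symm, Finset.mem_univ (Fin.last R)⟩)
    rw [Fin.val_last, Nat.sub_self, pow_zero, mul_one] at h3
    rw [Fin.val_zero, Nat.sub_zero] at h2
    rw [h3, h2, hX]
  have hmax0 : v (φ 0 * X ^ R) ≠ 0 := by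
    rw [map_mul, map_pow, h0]
    exact mul_ne_zero hε0.ne' (pow_ne_zero _ hX0.ne')
  have hrest : v (∑ h ∈ (Finset.univ.erase (0 : Fin (R + 1))).erase (Fin.last R),
      φ h * X ^ (R - (h : ℕ))) < v (φ 0 * X ^ R) := by
    refine Valuation.map_sum_lt _ hmax0 fun h hh => ?_
    exact hlt h (Finset.ne_of_mem_erase (Finset.mem_of_mem_erase hh)) (Finset.ne_of_mem_erase hh)
  have hkey : v (φ (Fin.last R)) = v (φ 0 * X ^ R) := by
    have h2 : φ (Fin.last R) = -(φ 0 * X ^ R) -
        ∑ h ∈ (Finset.univ.erase (0 : Fin (R + 1))).erase (Fin.last R),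
          φ h * X ^ (R - (h : ℕ)) := by
      linear_combination hsplit
    have h3 : v (-∑ h ∈ (Finset.univ.erase (0 : Fin (R + 1))).erase (Fin.last R),
        φ h * X ^ (R - (h : ℕ))) < v (-(φ 0 * X ^ R)) := by
      rw [Valuation.map_neg, Valuation.map_neg]
      exact hrest
    rw [h2, sub_eq_add_neg, Valuation.map_add_eq_of_lt_left _ h3, Valuation.map_neg]
  rw [hlast, map_mul, map_pow, h0] at hkey
  rw [mul_comm]
  exact hkey.symm

end place

end Pool.Agent.TH971.RF
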