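import Pool.Agent.TH971.RF.A5
import Pool.Agent.TH971.RF.B1

/-!
A system of linear forms in general position (helper file for Zilber-Pink for random families of
elliptic curves with random multisections).
-/

open Function MvPolynomial H294ZP

namespace Pool.Agent.TH971.RF

open Pool.Agent.W466.ZP Pool.Agent.W282.RW Pool.Agent.W466.EP

variable {σ : Type} [Fintype σ] [DecidableEq σ]

/-- the linear forms of the Vandermonde system -/
def vdm {m : ℕ} (s : Fin (m + 1) → σ → ℤ) (τ : ℕ) (j : σ) : ℤ :=
  ∑ b : Fin (m + 1), (τ : ℤ) ^ (b : ℕ) * s b j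

omit [DecidableEq σ] in
theorem vdm_eval {m : ℕ} (s : Fin (m + 1) → σ → ℤ) (τ : ℕ) (y : σ → ℂ) :
    ∑ j, (vdm s τ j : ℂ) * y j =
      ∑ b : Fin (m + 1), (τ : ℂ) ^ (b : ℕ) * ∑ j, (s b j : ℂ) * y j := by
  simp_rw [Finset.mul_sum]
  rw [Finset.sum_comm]
  refine Finset.sum_congr rfl fun j _ => ?_
  rw [vdm]
  push_cast
  rw [Finset.sum_mul]
  refine Finset.sum_congr rfl fun b _ => ?_
  ring

omit [DecidableEq σ] in
/-- Any `m + 1` of the forms with parameters at most `M` contain a unit. -/
theorem vdm_unit {m M p : ℕ} (hp : p.Prime) (hpM : M < p) (V : ValuationSubring ℂ)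
    (hV : (p : ℂ) ∈ V.nonunits) (s : Fin (m + 1) → σ → ℤ) (y : σ → ℂ) (hy : ∀ j, y j ∈ V)
    (hb : ∃ b, V.valuation (∑ j, (s b j : ℂ) * y j) = 1) (T : Finset ℕ) (hT : ∀ τ ∈ T, τ ≤ M)
    (hTc : m < T.card) : ∃ τ ∈ T, V.valuation (∑ j, (vdm s τ j : ℂ) * y j) = 1 := by
  classical
  by_contra hcon
  push Not at hcon
  let w : Fin (m + 1) → V := fun b => ⟨∑ j, (s b j : ℂ) * y j,
    sum_mem fun j _ => mul_mem (intCast_mem V _) (hy j)⟩
  let π : V →+* IsLocalRing.ResidueField V := IsLocalRing.residue V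
  -- the parameters are different in the residue field
  have hinj : Set.InjOn (fun τ : ℕ => (τ : IsLocalRing.ResidueField V)) T := by
    have key : ∀ τ τ' : ℕ, τ ≤ M → τ < τ' → τ' ≤ M →
        (τ : IsLocalRing.ResidueField V) ≠ τ' := by
      intro τ τ' _ hlt h2 he
      have hd : V.valuation (((τ' - τ : ℕ)) : ℂ) = 1 := by
        refine v_one V hp hV fun hdvd => ?_
        have := Nat.le_of_dvd (by omega) hdvd
        omega
      have h3 : V.valuation ((((τ' - τ : ℕ)) : V) : ℂ) = 1 := by
        push_cast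
        exact hd
      have h4 : IsUnit (((τ' - τ : ℕ)) : V) := (ValuationSubring.valuation_eq_one_iff V _).2 h3
      have h5 : π (((τ' - τ : ℕ)) : V) = 0 := by
        rw [map_natCast, Nat.cast_sub hlt.le, he, sub_self]
      have h6 := h4.map π
      rw [h5] at h6
      exact not_isUnit_zero h6
    intro τ hτ τ' hτ' he
    rcases lt_trichotomy τ τ' with h | h | h
    · exact absurd he (key τ τ' (hT τ hτ) h (hT τ' hτ'))
    · exact h
    · exact absurd he.symm (key τ' τ (hT τ' hτ') h (hT τ hτ))
  let f : Polynomial (IsLocalRing.ResidueField V) :=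
    ∑ b : Fin (m + 1), Polynomial.C (π (w b)) * Polynomial.X ^ (b : ℕ)
  have hf0 : f = 0 := by
    refine Polynomial.eq_zero_of_degree_lt_of_eval_finset_eq_zero
      (T.image fun τ : ℕ => (τ : IsLocalRing.ResidueField V)) ?_ ?_
    · rw [Finset.card_image_of_injOn hinj]
      exact (Polynomial.degree_sum_fin_lt _).trans_le (by exact_mod_cast hTc)
    · intro x hx
      obtain ⟨τ, hτ, rfl⟩ := Finset.mem_image.1 hx
      have h1 : Polynomial.eval (τ : IsLocalRing.ResidueField V) f =
          π (∑ b : Fin (m + 1), (τ : V) ^ (b : ℕ) * w b) := by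
        rw [Polynomial.eval_finsetSum, map_sum]
        refine Finset.sum_congr rfl fun b _ => ?_
        rw [Polynomial.eval_mul, Polynomial.eval_C, Polynomial.eval_pow, Polynomial.eval_X,
          map_mul, map_pow, map_natCast, mul_comm]
      rw [h1]
      have h2 : ((∑ b : Fin (m + 1), (τ : V) ^ (b : ℕ) * w b : V) : ℂ) =
          ∑ j, (vdm s τ j : ℂ) * y j := by
        rw [vdm_eval]
        push_cast
        rfl
      refine Ideal.Quotient.eq_zero_iff_mem.2 ?_
      rw [ValuationSubring.valuation_lt_one_iff, h2]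
      refine lt_of_le_of_ne ?_ (hcon τ hτ)
      rw [← h2]
      exact (ValuationSubring.valuation_le_one_iff V _).2 (SetLike.coe_mem _)
  obtain ⟨b, hb⟩ := hb
  have h3 : f.coeff (b : ℕ) = π (w b) := by
    change (∑ b' : Fin (m + 1), Polynomial.C (π (w b')) * Polynomial.X ^ (b' : ℕ)).coeff (b : ℕ) = _
    rw [Polynomial.finsetSum_coeff, Finset.sum_eq_single b]
    · rw [Polynomial.coeff_C_mul_X_pow, if_pos rfl]
    · intro j' _ hne
      rw [Polynomial.coeff_C_mul_X_pow, if_neg]
      intro h4
      exact hne (Fin.ext h4.symm)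
    · intro h4
      exact absurd (Finset.mem_univ b) h4
  rw [hf0, Polynomial.coeff_zero] at h3
  have h4 : IsUnit (w b) := (ValuationSubring.valuation_eq_one_iff V _).2 hb
  have h5 := h4.map π
  rw [← h3] at h5
  exact not_isUnit_zero h5

omit [DecidableEq σ] in
/-- At most `m` of the forms are non-units. -/
theorem nonunit_card {X : Type} [Fintype X] {m M p : ℕ} (ε : X → ℕ) (hε : Injective ε)
    (hεM : ∀ x, ε x ≤ M) (hp : p.Prime) (hpM : M < p) (V : ValuationSubring ℂ)
    (hV : (p : ℂ) ∈ V.nonunits) (s : Fin (m + 1) → σ → ℤ) (y : σ → ℂ) (hy : ∀ j, y j ∈ V)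
    (hb : ∃ b, V.valuation (∑ j, (s b j : ℂ) * y j) = 1) (T : Finset X)
    (hT : ∀ x ∈ T, V.valuation (∑ j, (vdm s (ε x) j : ℂ) * y j) ≠ 1) : T.card ≤ m := by
  classical
  by_contra hcon
  push Not at hcon
  obtain ⟨τ, hτ, h1⟩ := vdm_unit hp hpM V hV s y hy hb (T.image ε) (by
    intro τ hτ
    obtain ⟨x, -, rfl⟩ := Finset.mem_image.1 hτ
    exact hεM x) (by rwa [Finset.card_image_of_injective _ hε])
  obtain ⟨x, hx, rfl⟩ := Finset.mem_image.1 hτ
  exact hT x hx h1

omit [DecidableEq σ] in
/-- The last forms have no common zero at the good primes. -/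
theorem good_vdm {Y : Set (σ → ℂ)} {m : ℕ} {s : Fin (m + 1) → σ → ℤ} {D : ℕ}
    (hgood : Good Y s D) (c : ℕ) :
    Good Y (fun b : Fin (m + 1) => vdm s (c + (b : ℕ))) (D * (c + m).factorial) := by
  intro p hp hpD V hV y hy hyY
  have h1 : ¬ p ∣ D := fun h => hpD (h.mul_right _)
  have h2 : c + m < p := by
    by_contra h
    exact hpD (((hp.dvd_factorial).2 (not_lt.1 h)).mul_left _)
  obtain ⟨c0, hc0, hcV, hcY, hb⟩ := hgood p hp h1 V hV y hy hyY
  refine ⟨c0, hc0, hcV, hcY, ?_⟩
  obtain ⟨τ, hτ, h3⟩ := vdm_unit hp h2 V hV s (c0 • y) hcV hb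
    ((Finset.univ : Finset (Fin (m + 1))).image fun b : Fin (m + 1) => c + (b : ℕ)) (by
      intro τ hτ
      obtain ⟨b, -, rfl⟩ := Finset.mem_image.1 hτ
      have := b.2
      omega) (by
      rw [Finset.card_image_of_injective _ (by
        intro b b' h
        apply Fin.ext
        have h' : c + (b : ℕ) = c + (b' : ℕ) := h
        omega), Finset.card_univ, Fintype.card_fin]
      omega)
  obtain ⟨b, -, rfl⟩ := Finset.mem_image.1 hτ
  exact ⟨b, h3⟩

/-- The number of relations between the `j`-invariants. -/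
theorem card_relI {n k : ℕ} (lam : Fin n → Option (Fin k)) :
    ∃ I : Finset (Fin n), (∀ i ∈ I, lam i = none ∨ ∃ i' < i, lam i' = lam i) ∧
      n ≤ I.card + k := by
  classical
  let R : Finset (Fin n) := Finset.univ.filter (fun i => lam i = none ∨ ∃ i' < i, lam i' = lam i)
  refine ⟨R, fun i hi => (Finset.mem_filter.1 hi).2, ?_⟩
  let R' : Finset (Fin n) := Finset.univ.filter
    (fun i => ¬ (lam i = none ∨ ∃ i' < i, lam i' = lam i))
  have h1 : R.card + R'.card = n := by
    have := Finset.card_filter_add_card_filter_not (s := (Finset.univ : Finset (Fin n)))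
      (fun i => lam i = none ∨ ∃ i' < i, lam i' = lam i)
    rw [Finset.card_univ, Fintype.card_fin] at this
    exact this
  have h2 : R'.card ≤ k := by
    have h3 : (R'.image lam).card = R'.card := by
      apply Finset.card_image_of_injOn
      intro i hi i' hi' he
      simp only [R', Finset.coe_filter, Finset.mem_univ, true_and, Set.mem_ofPred_eq,
        not_or, not_exists, not_and] at hi hi'
      rcases lt_trichotomy i i' with hlt | heq | hgt
      · exact absurd he (hi'.2 i hlt)
      · exact heq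
      · exact absurd he.symm (hi.2 i' hgt)
    have h4 : R'.image lam ⊆ (Finset.univ : Finset (Fin k)).image some := by
      intro c hc
      obtain ⟨i, hi, rfl⟩ := Finset.mem_image.1 hc
      simp only [R', Finset.mem_filter, Finset.mem_univ, true_and, not_or] at hi
      obtain ⟨c', hc'⟩ := Option.ne_none_iff_exists'.1 hi.1
      rw [hc']
      exact Finset.mem_image_of_mem _ (Finset.mem_univ _)
    have h5 := Finset.card_le_card h4
    rw [h3, Finset.card_image_of_injective _ (Option.some_injective _), Finset.card_univ,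
      Fintype.card_fin] at h5
    exact h5
  omega

end Pool.Agent.TH971.RF
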