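import Pool.Agent.TH971.RF.B2

/-!
Multisections and functions at one place (helper file for Zilber-Pink for random families of
elliptic curves with random multisections and functions).
-/

open Function MvPolynomial H294ZP

namespace Pool.Agent.TH971.RF

open Pool.Agent.W466.ZP Pool.Agent.W282.RW Pool.Agent.W466.EP

variable {σ : Type} [Fintype σ] [DecidableEq σ]

section level

variable {n q : ℕ}

/-- the level of a multisection in its block -/
def levM (g : Fin q → Fin n) (R : Fin n → ℕ) (c : Fin q → Fin q) (l : Fin q) : ℕ :=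
  R (g l) + 1 + (Finset.univ.filter fun l' => l' < l ∧ g l' = g l ∧ c l' = c l).card

theorem levM_gt (g : Fin q → Fin n) (R : Fin n → ℕ) (c : Fin q → Fin q) (l : Fin q) :
    R (g l) < levM g R c l := by
  unfold levM
  omega

theorem levM_le (g : Fin q → Fin n) (R : Fin n → ℕ) (c : Fin q → Fin q) (l : Fin q) :
    levM g R c l ≤ R (g l) + 1 + q := by
  unfold levM
  have h1 : (Finset.univ.filter fun l' => l' < l ∧ g l' = g l ∧ c l' = c l).card ≤ q := by
    refine (Finset.card_le_univ _).trans ?_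
    rw [Fintype.card_fin]
  omega

theorem levM_le' {g : Fin q → Fin n} {R : Fin n → ℕ} {c : Fin q → Fin q} {l : Fin q}
    (h : (Finset.univ.filter fun l' => g l' = g l ∧ c l' = c l).card ≤ 2 * R (g l)) :
    levM g R c l ≤ 3 * R (g l) := by
  unfold levM
  have h1 : (Finset.univ.filter fun l' => l' < l ∧ g l' = g l ∧ c l' = c l).card <
      (Finset.univ.filter fun l' => g l' = g l ∧ c l' = c l).card := by
    refine Finset.card_lt_card ?_
    rw [Finset.ssubset_iff_of_subset]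
    · exact ⟨l, Finset.mem_filter.2 ⟨Finset.mem_univ _, rfl, rfl⟩, fun h2 =>
        lt_irrefl l (Finset.mem_filter.1 h2).2.1⟩
    · intro l' hl'
      exact Finset.mem_filter.2 ⟨Finset.mem_univ _, (Finset.mem_filter.1 hl').2.2⟩
  omega

theorem levM_lt {g : Fin q → Fin n} {R : Fin n → ℕ} {c : Fin q → Fin q} {l l' : Fin q}
    (hg : g l = g l') (hc : c l = c l') (hlt : l < l') : levM g R c l < levM g R c l' := by
  unfold levM
  have h1 : (Finset.univ.filter fun l'' => l'' < l ∧ g l'' = g l ∧ c l'' = c l).card <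
      (Finset.univ.filter fun l'' => l'' < l' ∧ g l'' = g l' ∧ c l'' = c l').card := by
    refine Finset.card_lt_card ?_
    rw [Finset.ssubset_iff_of_subset]
    · exact ⟨l, Finset.mem_filter.2 ⟨Finset.mem_univ _, hlt, hg, hc⟩, fun h2 =>
        lt_irrefl l (Finset.mem_filter.1 h2).2.1⟩
    · intro l'' hl''
      obtain ⟨h2, h3, h4⟩ := (Finset.mem_filter.1 hl'').2
      exact Finset.mem_filter.2 ⟨Finset.mem_univ _, h2.trans hlt, h3.trans hg, h4.trans hc⟩
  have h2 : R (g l) = R (g l') := by rw [hg]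
  omega

theorem levM_mod {g : Fin q → Fin n} {R : Fin n → ℕ} {c : Fin q → Fin q} {l l' : Fin q}
    (hg : g l = g l') (hc : c l = c l') (hne : l ≠ l')
    (h : (Finset.univ.filter fun l'' => g l'' = g l ∧ c l'' = c l).card ≤ 2 * R (g l)) :
    ¬ levM g R c l ≡ levM g R c l' [MOD 2 * R (g l)] := by
  have h1 := levM_gt g R c l
  have h2 := levM_gt g R c l'
  have h3 := levM_le' h
  have h4 := levM_le' (g := g) (R := R) (c := c) (l := l') (by rw [← hg, ← hc]; exact h)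
  rw [← hg] at h2 h4
  have h5 : levM g R c l ≠ levM g R c l' := by
    rcases lt_or_gt_of_ne hne with hlt | hlt
    · exact (levM_lt hg hc hlt).ne
    · exact (levM_lt hg.symm hc.symm hlt).ne'
  intro h6
  apply h5
  rcases le_total (levM g R c l) (levM g R c l') with hle | hle
  · have h7 := (Nat.modEq_iff_dvd' hle).1 h6
    by_contra hne'
    have h8 := Nat.le_of_dvd (by omega) h7
    omega
  · have h7 := (Nat.modEq_iff_dvd' hle).1 h6.symm
    by_contra hne'
    have h8 := Nat.le_of_dvd (by omega) h7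
    omega

end level

/-- The congruences for the equations of the multisections and for the functions. -/
structure CongM {n q k : ℕ} (K p : ℕ) {e R : Fin n → ℕ} {g : Fin q → Fin n} {d : Fin q → ℕ}
    {dt : Fin k → ℕ} (s2 : Fin q → σ → ℤ) (s3 : Fin k → σ → ℤ) (lv : Fin q → ℕ) (f3 : Fin k → ℕ)
    (F : ∀ l (h : Fin (R (g l) + 1)), Sym σ (d l + 2 * e (g l) * h) → ℤ)
    (α β : ∀ w, Sym σ (dt w) → ℤ) : Prop where
  first : ∀ l u, (p : ℤ) ^ K ∣ F l 0 u - (p : ℤ) ^ lv l * pw _ (s2 l) u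
  last : ∀ l u, (p : ℤ) ^ K ∣ F l (Fin.last _) u - (p : ℤ) ^ 0 * pw _ (s2 l) u
  mid : ∀ l h, h ≠ 0 → h ≠ Fin.last _ → ∀ u, (p : ℤ) ^ K ∣ F l h u
  num : ∀ w u, (p : ℤ) ^ K ∣ α w u - (p : ℤ) ^ 0 * pw _ (s3 w) u
  den : ∀ w u, (p : ℤ) ^ K ∣ β w u - (p : ℤ) ^ f3 w * pw _ (s3 w) u

/-- the value of a form at a point where the linear form is a unit -/
theorem ev_target {K p f dd : ℕ} (hf : f < K) (hp : p.Prime) (V : ValuationSubring ℂ)
    (hV : (p : ℂ) ∈ V.nonunits) {y : σ → ℂ} (hy : ∀ j, y j ∈ V) {a : Sym σ dd → ℤ} {s : σ → ℤ}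
    (h : ∀ u, (p : ℤ) ^ K ∣ a u - (p : ℤ) ^ f * pw dd s u)
    (hu : V.valuation (∑ j, (s j : ℂ) * y j) = 1) :
    V.valuation (ev a y) = V.valuation (p : ℂ) ^ f := by
  set v := V.valuation with hv
  have hvp : v (p : ℂ) < 1 := by rwa [ValuationSubring.mem_nonunits_iff] at hV
  have hvp0 : v (p : ℂ) ≠ 0 := (Valuation.ne_zero_iff _).2 (by exact_mod_cast hp.ne_zero)
  have hpos : 0 < v (p : ℂ) := zero_lt_iff.2 hvp0
  have hcast : v (((p : ℤ) ^ K : ℤ) : ℂ) = v (p : ℂ) ^ K := by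
    push_cast
    rw [map_pow]
  set w : ℂ := ∑ j, (s j : ℂ) * y j with hw
  have h1 := ev_congr V hy ((p : ℤ) ^ K) (c' := fun u => (p : ℤ) ^ f * pw dd s u) h
  rw [← hv, hcast, ev_zsmul, ev_pw, ← hw] at h1
  have h4 : v ((((p : ℤ) ^ f : ℤ) : ℂ) * w ^ dd) = v (p : ℂ) ^ f := by
    rw [map_mul, map_pow, hu, one_pow, mul_one]
    push_cast
    rw [map_pow]
  have h2 : v (ev a y - (((p : ℤ) ^ f : ℤ) : ℂ) * w ^ dd) < v ((((p : ℤ) ^ f : ℤ) : ℂ) * w ^ dd) := by
    rw [h4]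
    exact h1.trans_lt (pow_lt_pow_right_of_lt_one₀ hpos hvp hf)
  have h3 : ev a y = (ev a y - (((p : ℤ) ^ f : ℤ) : ℂ) * w ^ dd) +
      (((p : ℤ) ^ f : ℤ) : ℂ) * w ^ dd := by ring
  rw [h3, Valuation.map_add_eq_of_lt_right _ h2, h4]

theorem root_pow {Γ₀ : Type*} [LinearOrderedCommGroupWithZero Γ₀] {R f : ℕ} (hR : 0 < R)
    {x ρ : Γ₀} (h : x ^ R * (ρ ^ R) ^ f = 1) : x * ρ ^ f = 1 := by
  have h1 : (x * ρ ^ f) ^ R = 1 ^ R := by
    rw [mul_pow, one_pow, ← h, ← pow_mul, ← pow_mul, mul_comm f R]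
  exact (pow_left_inj₀ zero_le zero_le hR.ne').1 h1

theorem expo (d e h r : ℕ) (hr : h ≤ r) : d + 2 * e * r = (d + 2 * e * h) + e * 2 * (r - h) := by
  obtain ⟨t, rfl⟩ := Nat.exists_eq_add_of_le hr
  rw [Nat.add_sub_cancel_left]
  ring

/-- The point `P` lies on the multisection. -/
def OnM {d e R : ℕ} (F : ∀ h : Fin (R + 1), Sym σ (d + 2 * e * h) → ℤ) (y : σ → ℂ) {A B : ℂ}
    (P : (crv A B).Point) : Prop :=
  (P = 0 ∧ ev (F 0) y = 0) ∨
    (P ≠ 0 ∧ ∑ h : Fin (R + 1), ev (F h) y * xx P ^ (R - (h : ℕ)) = 0)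

/-- There are no relations between the multisections whose linear forms are units. -/
theorem rel_nonunitM {n q k K p : ℕ} {e R : Fin n → ℕ} (hR0 : ∀ i, 0 < R i) {g : Fin q → Fin n}
    {d : Fin q → ℕ} {dt : Fin k → ℕ} {A : ∀ i, Sym σ (4 * e i) → ℤ} {B : ∀ i, Sym σ (6 * e i) → ℤ}
    {F : ∀ l (h : Fin (R (g l) + 1)), Sym σ (d l + 2 * e (g l) * h) → ℤ}
    {α β : ∀ w, Sym σ (dt w) → ℤ} {s2 : Fin q → σ → ℤ} {s3 : Fin k → σ → ℤ} {lv : Fin q → ℕ}
    {f3 : Fin k → ℕ} (hK : ∀ l, lv l < K) (hp : p.Prime) (hC : CongM K p s2 s3 lv f3 F α β)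
    (V : ValuationSubring ℂ) (hV : (p : ℂ) ∈ V.nonunits)
    {y : σ → ℂ} {c : ℂ} (hc : c ≠ 0) (hy : ∀ j, (c • y) j ∈ V) {i : Fin n} {J : Finset (Fin q)}
    (hJ : ∀ l ∈ J, g l = i) (hJ1 : ∀ l ∈ J, V.valuation (∑ j, (s2 l j : ℂ) * (c • y) j) = 1)
    (hlv : ∀ l ∈ J, R i < 2 * lv l)
    (hmod : ∀ l ∈ J, ∀ l' ∈ J, l ≠ l' → ¬ lv l ≡ lv l' [MOD 2 * R i])
    (P : Fin q → (crv (ev (A i) y) (ev (B i) y)).Point) (hP : ∀ l ∈ J, OnM (F l) y (P l))
    (a : Fin q → ℤ) (ha0 : a ≠ 0) (haJ : ∀ l, l ∉ J → a l = 0) {t : ℕ} (ht : 0 < t)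
    (hrel : t • ∑ l, a l • P l = 0) : False := by
  classical
  set v := V.valuation with hv
  have hvp : v (p : ℂ) < 1 := by rwa [ValuationSubring.mem_nonunits_iff] at hV
  have hvp0 : v (p : ℂ) ≠ 0 := (Valuation.ne_zero_iff _).2 (by exact_mod_cast hp.ne_zero)
  have hpos : 0 < v (p : ℂ) := zero_lt_iff.2 hvp0
  have hu0 : c ^ e i ≠ 0 := pow_ne_zero _ hc
  have hA : v ((c ^ e i) ^ 4 * ev (A i) y) ≤ 1 := by
    have h1 : (c ^ e i) ^ 4 * ev (A i) y = ev (A i) (c • y) := by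
      rw [ev_smul, ← pow_mul]
      congr 2
      ring
    rw [h1]
    exact (ValuationSubring.valuation_le_one_iff V _).2 (ev_mem V hy _)
  have hB : v ((c ^ e i) ^ 6 * ev (B i) y) ≤ 1 := by
    have h1 : (c ^ e i) ^ 6 * ev (B i) y = ev (B i) (c • y) := by
      rw [ev_smul, ← pow_mul]
      congr 2
      ring
    rw [h1]
    exact (ValuationSubring.valuation_le_one_iff V _).2 (ev_mem V hy _)
  obtain ⟨π, hπ⟩ := IsAlgClosed.exists_pow_nat_eq (p : ℂ) (hR0 i)
  have hρR : v (p : ℂ) = v π ^ R i := by rw [← hπ, map_pow]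
  have hρ0 : 0 < v π := by
    refine zero_lt_iff.2 fun h0 => ?_
    rw [h0, zero_pow (hR0 i).ne'] at hρR
    exact hvp0 hρR
  refine rel_placeR (v := v) two_ne_zero hA hB hp hvp hρR (hR0 i) hρ0 (fun l => scl hu0 (P l)) J
    lv ?_ hlv hmod a ha0 haJ ht ?_
  · intro l hl
    have hgl := hJ l hl
    have hε : v (ev (F l 0) (c • y)) = v (p : ℂ) ^ lv l :=
      ev_target (hK l) hp V hV hy (hC.first l) (hJ1 l hl)
    have hlast : v (ev (F l (Fin.last _)) (c • y)) = 1 := by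
      have h1 := ev_target (f := 0) ((Nat.zero_le _).trans_lt (hK l)) hp V hV hy (hC.last l)
        (hJ1 l hl)
      rwa [pow_zero] at h1
    have hlv0 : 0 < lv l := by
      have := hlv l hl
      omega
    have hmid : ∀ h, h ≠ 0 → h ≠ Fin.last _ → v (ev (F l h) (c • y)) ≤ v (p : ℂ) ^ lv l := by
      intro h h1 h2
      have h3 := ev_dvd V hy ((p : ℤ) ^ K) (hC.mid l h h1 h2)
      have hcast : v (((p : ℤ) ^ K : ℤ) : ℂ) = v (p : ℂ) ^ K := by
        push_cast
        rw [map_pow]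
      rw [← hv, hcast] at h3
      exact h3.trans (pow_le_pow_right_of_le_one' hvp.le (hK l).le)
    have hF0 : ev (F l 0) y ≠ 0 := by
      intro h0
      rw [ev_smul, h0, mul_zero, map_zero] at hε
      exact (pow_pos hpos _).ne hε
    rcases hP l hl with ⟨-, h4⟩ | ⟨-, h4⟩
    · exact absurd h4 hF0
    · have h5 : ∑ h : Fin (R (g l) + 1), ev (F l h) (c • y) *
          xx (scl hu0 (P l)) ^ (R (g l) - (h : ℕ)) = 0 := by
        rw [xx_scl]
        have h6 : ∀ h : Fin (R (g l) + 1), ev (F l h) (c • y) *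
            ((c ^ e i) ^ 2 * xx (P l)) ^ (R (g l) - (h : ℕ)) =
            c ^ (d l + 2 * e i * R (g l)) * (ev (F l h) y * xx (P l) ^ (R (g l) - (h : ℕ))) := by
          intro h
          rw [ev_smul, mul_pow, ← pow_mul, ← pow_mul]
          have h7 : d l + 2 * e i * R (g l) =
              (d l + 2 * e (g l) * (h : ℕ)) + e i * 2 * (R (g l) - (h : ℕ)) := by
            have h8 : (h : ℕ) ≤ R (g l) := by
              have := h.2
              omega
            have h9 : e (g l) = e i := by rw [hgl]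
            rw [h9]
            exact expo _ _ _ _ h8
          rw [h7, pow_add]
          ring
        rw [Finset.sum_congr rfl fun h _ => h6 h, ← Finset.mul_sum, h4, mul_zero]
      have h6 := root_val (v := v) (hR0 (g l)) (pow_pos hpos (lv l))
        (pow_lt_one₀ zero_le hvp hlv0.ne') (fun h => ev (F l h) (c • y)) hε hlast hmid h5
      rw [hgl, hρR] at h6
      exact root_pow (hR0 i) h6
  · have h1 := congrArg (sclHom hu0) hrel
    rw [map_nsmul, map_sum, map_zero] at h1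
    rw [← h1]
    congr 1
    refine Finset.sum_congr rfl fun l _ => ?_
    rw [map_zsmul]
    rfl

/-- Relations between functions whose linear forms are units. -/
theorem tor_simple {L : Type*} [Field L] {Γ₀ : Type*} [LinearOrderedCommGroupWithZero Γ₀]
    {v : Valuation L Γ₀} {ρ : Γ₀} (hρ0 : 0 < ρ) (hρ1 : ρ < 1) {k : ℕ} (u : Fin k → L)
    (J : Finset (Fin k)) (f : Fin k → ℕ) (hu : ∀ w ∈ J, v (u w) * ρ ^ f w = 1)
    (b : Fin k → ℤ) (hbJ : ∀ w, w ∉ J → b w = 0) (hrel : v (∏ w, u w ^ b w) = 1) :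
    ∑ w, b w * (f w : ℤ) = 0 := by
  have h1 : ∀ w, v (u w ^ b w) = ρ ^ (-(b w * (f w : ℤ))) := by
    intro w
    by_cases hw : w ∈ J
    · have h2 : v (u w) = ρ ^ (-(f w : ℤ)) := by
        rw [zpow_neg, zpow_natCast]
        exact eq_inv_of_mul_eq_one_left (hu w hw)
      rw [map_zpow₀, h2, ← zpow_mul]
      congr 1
      ring
    · rw [hbJ w hw, zpow_zero, map_one, zero_mul, neg_zero, zpow_zero]
  rw [map_prod, Finset.prod_congr rfl fun w _ => h1 w] at hrel
  have h2 : ∏ w, ρ ^ (-(b w * (f w : ℤ))) = ρ ^ (-∑ w, b w * (f w : ℤ)) := by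
    rw [← Finset.sum_neg_distrib]
    induction (Finset.univ : Finset (Fin k)) using Finset.cons_induction with
    | empty => simp
    | cons a s ha ih => rw [Finset.prod_cons, Finset.sum_cons, ih, zpow_add₀ hρ0.ne']
  rw [h2] at hrel
  have h3 : ρ ^ (-∑ w, b w * (f w : ℤ)) = ρ ^ (0 : ℤ) := by rw [hrel, zpow_zero]
  have h4 := zpow_right_injective₀ hρ0 hρ1.ne h3
  omega

/-- The valuation of a function whose linear form is a unit. -/
theorem fun_val {K p f dd : ℕ} (hf : f < K) (hp : p.Prime) (V : ValuationSubring ℂ)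
    (hV : (p : ℂ) ∈ V.nonunits) {y : σ → ℂ} {c : ℂ} (hc : c ≠ 0) (hy : ∀ j, (c • y) j ∈ V)
    {α β : Sym σ dd → ℤ} {s : σ → ℤ}
    (hα : ∀ u, (p : ℤ) ^ K ∣ α u - (p : ℤ) ^ 0 * pw dd s u)
    (hβ : ∀ u, (p : ℤ) ^ K ∣ β u - (p : ℤ) ^ f * pw dd s u)
    (hu : V.valuation (∑ j, (s j : ℂ) * (c • y) j) = 1) {x : ℂ} (hx : ev β y * x = ev α y) :
    V.valuation x * V.valuation (p : ℂ) ^ f = 1 := by
  have h1 := ev_target ((Nat.zero_le _).trans_lt hf) hp V hV hy hα hu
  have h2 := ev_target hf hp V hV hy hβ hu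
  have h3 : ev β (c • y) * x = ev α (c • y) := by
    rw [ev_smul, ev_smul, mul_assoc, hx]
  have h4 := congrArg V.valuation h3
  rw [map_mul, h1, h2, pow_zero, mul_comm] at h4
  exact h4

end Pool.Agent.TH971.RF
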