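import Pool.Agent.W67.RW.Dom
import Pool.Agent.TH971.RF.B3

/-!
A point with algebraically independent coordinates (helper file for Zilber-Pink for random families
of elliptic curves with random multisections and functions).
-/

open Function MvPolynomial

namespace Pool.Agent.TH971.RF

open Pool.Agent.W466.ZP Pool.Agent.W282.RW Pool.Agent.W466.EP Pool.Agent.W67.RW

/-- the coordinates: `j`-invariants, multisections, functions -/
abbrev Crd (n q k : ℕ) : Type := (Fin n ⊕ Fin q) ⊕ Fin k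

/-- Numbers with algebraically independent powers up to small terms. -/
theorem close_ind {m p : ℕ} (hp : p.Prime) (w : Fin m → ℂ)
    (V : ValuationSubring ℂ) (hV : (p : ℂ) ∈ V.nonunits) (hw : ∀ i, w i ∈ V)
    (hgauss : ∀ f : MvPolynomial (Fin m) ℤ, ¬ (C (p : ℤ) ∣ f) → V.valuation (aeval w f) = 1)
    (c z : Fin m → ℂ) (E : Fin m → ℕ) (hE : ∀ t, 0 < E t) (hz : ∀ t, Cl V (z t) (w t ^ E t))
    (hmem : ∀ t, z t ∈ IntermediateField.adjoin ℚ (Set.range c)) : AlgebraicIndependent ℚ c := by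
  set L : ℕ := ∏ t, E t with hL
  have hL0 : 0 < L := Finset.prod_pos fun i _ => hE i
  have hLe : ∀ t, E t * (L / E t) = L := fun t =>
    Nat.mul_div_cancel' (Finset.dvd_prod_of_mem E (Finset.mem_univ t))
  have hzind : AlgebraicIndependent ℚ (fun t => z t ^ (L / E t)) := by
    refine algInd_of_close (d := L) hL0 hp w _ V hV hw hgauss fun t => ?_
    have h1 := (hz t).pow (L / E t)
    rw [← pow_mul, hLe] at h1
    exact h1.2.2
  exact algInd_of_adjoin c _ hzind fun t => pow_mem (hmem t) _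

variable {σ : Type} [Fintype σ] [DecidableEq σ]

open Classical in
/-- the linear form attached to a coordinate -/
noncomputable def nf {m n q k : ℕ} (s : Fin (m + 1) → σ → ℤ) (ψ : Fin m → Crd n q k)
    (z : Crd n q k) : σ → ℤ :=
  if h : ∃ t, ψ t = z then s h.choose.succ else s 0

omit [Fintype σ] [DecidableEq σ] in
theorem nf_apply {m n q k : ℕ} (s : Fin (m + 1) → σ → ℤ) {ψ : Fin m → Crd n q k}
    (hψ : Injective ψ) (t : Fin m) : nf s ψ (ψ t) = s t.succ := by
  have h : ∃ t', ψ t' = ψ t := ⟨t, rfl⟩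
  rw [nf, dif_pos h, hψ h.choose_spec]

/-- The congruences modulo `p`. -/
structure CongD {n q k m : ℕ} (p : ℕ) {e R : Fin n → ℕ} {g : Fin q → Fin n} {d : Fin q → ℕ}
    {dt : Fin k → ℕ} (s : Fin (m + 1) → σ → ℤ) (ψ : Fin m → Crd n q k)
    (A : ∀ i, Sym σ (4 * e i) → ℤ) (B : ∀ i, Sym σ (6 * e i) → ℤ)
    (F : ∀ l (h : Fin (R (g l) + 1)), Sym σ (d l + 2 * e (g l) * h) → ℤ)
    (α β : ∀ w, Sym σ (dt w) → ℤ) : Prop where
  cA : ∀ i u, (p : ℤ) ∣ A i u - pw _ (nf s ψ (Sum.inl (Sum.inl i))) u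
  cB : ∀ i u, (p : ℤ) ∣ B i u - pw _ (s 0) u
  first : ∀ l u, (p : ℤ) ∣ F l 0 u - pw _ (s 0) u
  last : ∀ l u, (p : ℤ) ∣ F l (Fin.last _) u - pw _ (nf s ψ (Sum.inl (Sum.inr l))) u
  mid : ∀ l h, h ≠ 0 → h ≠ Fin.last _ → ∀ u, (p : ℤ) ∣ F l h u
  num : ∀ w u, (p : ℤ) ∣ α w u - pw _ (nf s ψ (Sum.inr w)) u
  den : ∀ w u, (p : ℤ) ∣ β w u - pw _ (s 0) u

/-- A point on the curve with given `x`-coordinate. -/
theorem exists_point {A B X : ℂ} (h : 4 * A ^ 3 + 27 * B ^ 2 ≠ 0) :
    ∃ P : (crv A B).Point, P ≠ 0 ∧ xx P = X := by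
  obtain ⟨y, hy⟩ := IsAlgClosed.exists_pow_nat_eq (X ^ 3 + A * X + B) (n := 2) (by norm_num)
  have hn : (crv A B).Nonsingular X y := by
    rw [nons_iff]
    refine ⟨hy, ?_⟩
    by_contra hcon
    push Not at hcon
    obtain ⟨h1, h2⟩ := hcon
    have h3 : y = 0 := by
      have h4 : y + y = 0 := by linear_combination h2
      have h5 : (2 : ℂ) * y = 0 := by linear_combination h4
      exact (mul_eq_zero.1 h5).resolve_left two_ne_zero
    rw [h3] at hy
    apply h
    have h4 : X ^ 3 + A * X + B = 0 := by rw [← hy]; ring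
    have hA : A = -3 * X ^ 2 := by linear_combination h1
    have hB : B = 2 * X ^ 3 := by
      rw [hA] at h4
      linear_combination h4
    rw [hA, hB]
    ring
  exact ⟨WeierstrassCurve.Affine.Point.some _ _ hn, WeierstrassCurve.Affine.Point.some_ne_zero _,
    rfl⟩

/-- An equation with non-zero leading coefficient has a root. -/
theorem exists_root {R : ℕ} (hR : 0 < R) (φ : Fin (R + 1) → ℂ) (h0 : φ 0 ≠ 0) :
    ∃ X : ℂ, ∑ h : Fin (R + 1), φ h * X ^ (R - (h : ℕ)) = 0 := by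
  let f : Polynomial ℂ := ∑ h : Fin (R + 1), Polynomial.C (φ h) * Polynomial.X ^ (R - (h : ℕ))
  have hc : f.coeff R = φ 0 := by
    change (∑ h : Fin (R + 1), Polynomial.C (φ h) * Polynomial.X ^ (R - (h : ℕ))).coeff R = _
    rw [Polynomial.finsetSum_coeff, Finset.sum_eq_single 0]
    · rw [Polynomial.coeff_C_mul_X_pow, if_pos (by rw [Fin.val_zero, Nat.sub_zero])]
    · intro h _ hne
      rw [Polynomial.coeff_C_mul_X_pow, if_neg]
      intro h4
      apply hne
      apply Fin.ext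
      rw [Fin.val_zero]
      have := h.2
      omega
    · intro h4
      exact absurd (Finset.mem_univ _) h4
  have hdeg : f.degree ≠ 0 := by
    intro h
    have h1 := Polynomial.le_degree_of_ne_zero (p := f) (n := R) (by rw [hc]; exact h0)
    rw [h] at h1
    have h2 : R ≤ 0 := by exact_mod_cast h1
    omega
  obtain ⟨X, hX⟩ := IsAlgClosed.exists_root f hdeg
  refine ⟨X, ?_⟩
  rw [Polynomial.IsRoot, Polynomial.eval_finsetSum] at hX
  rw [← hX]
  refine Finset.sum_congr rfl fun h _ => ?_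
  rw [Polynomial.eval_mul, Polynomial.eval_C, Polynomial.eval_pow, Polynomial.eval_X]

/-- roots of an equation with unit leading coefficient and small middle coefficients -/
theorem root_cl {V : ValuationSubring ℂ} {R : ℕ} (hR : 0 < R) (φ : Fin (R + 1) → ℂ)
    (h0 : V.valuation (φ 0) = 1) (hlast : φ (Fin.last R) ∈ V)
    (hmid : ∀ h, h ≠ 0 → h ≠ Fin.last R → V.valuation (φ h) < 1) {X : ℂ}
    (hX : ∑ h : Fin (R + 1), φ h * X ^ (R - (h : ℕ)) = 0) :
    X ∈ V ∧ V.valuation (φ 0 * X ^ R + φ (Fin.last R)) < 1 := by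
  classical
  set v := V.valuation with hv
  have hne : (0 : Fin (R + 1)) ≠ Fin.last R := by
    intro h
    have := congrArg Fin.val h
    rw [Fin.val_zero, Fin.val_last] at this
    omega
  have h2 := Finset.add_sum_erase Finset.univ (fun h : Fin (R + 1) => φ h * X ^ (R - (h : ℕ)))
    (Finset.mem_univ 0)
  rw [hX, Fin.val_zero, Nat.sub_zero] at h2
  have hφ : ∀ h, v (φ h) ≤ 1 := by
    intro h
    by_cases h3 : h = 0
    · rw [h3, h0]
    · by_cases h4 : h = Fin.last R
      · rw [h4]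
        exact (ValuationSubring.valuation_le_one_iff V _).2 hlast
      · exact (hmid h h3 h4).le
  have hXV : v X ≤ 1 := by
    by_contra hcon
    push Not at hcon
    have hX0 : 0 < v X := zero_lt_one.trans hcon
    have h3 : v (∑ h ∈ Finset.univ.erase (0 : Fin (R + 1)), φ h * X ^ (R - (h : ℕ))) <
        v (φ 0 * X ^ R) := by
      have h4 : v (φ 0 * X ^ R) = v X ^ R := by rw [map_mul, map_pow, h0, one_mul]
      rw [h4]
      refine Valuation.map_sum_lt _ (pow_ne_zero _ hX0.ne') fun h hh => ?_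
      rw [map_mul, map_pow]
      have h5 : (h : ℕ) ≠ 0 := fun h6 => Finset.ne_of_mem_erase hh (Fin.ext h6)
      calc v (φ h) * v X ^ (R - (h : ℕ)) ≤ v X ^ (R - (h : ℕ)) := mul_le_of_le_one_left' (hφ h)
        _ < v X ^ R := pow_lt_pow_right₀ hcon (by omega)
    have h4 : v (φ 0 * X ^ R) =
        v (∑ h ∈ Finset.univ.erase (0 : Fin (R + 1)), φ h * X ^ (R - (h : ℕ))) := by
      rw [eq_neg_of_add_eq_zero_left h2, Valuation.map_neg]
    exact h3.ne h4.symm
  refine ⟨(ValuationSubring.valuation_le_one_iff V _).1 hXV, ?_⟩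
  have h3 := Finset.add_sum_erase (Finset.univ.erase (0 : Fin (R + 1)))
    (fun h : Fin (R + 1) => φ h * X ^ (R - (h : ℕ)))
    (Finset.mem_erase.2 ⟨hne.symm, Finset.mem_univ (Fin.last R)⟩)
  rw [Fin.val_last, Nat.sub_self, pow_zero, mul_one] at h3
  have h4 : φ 0 * X ^ R + φ (Fin.last R) =
      -∑ h ∈ (Finset.univ.erase (0 : Fin (R + 1))).erase (Fin.last R),
        φ h * X ^ (R - (h : ℕ)) := by
    linear_combination h2 + h3
  rw [h4, Valuation.map_neg]
  refine Valuation.map_sum_lt _ one_ne_zero fun h hh => ?_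
  rw [map_mul, map_pow]
  exact (mul_le_of_le_one_right' (pow_le_one₀ zero_le hXV)).trans_lt
    (hmid h (Finset.ne_of_mem_erase (Finset.mem_of_mem_erase hh)) (Finset.ne_of_mem_erase hh))

end Pool.Agent.TH971.RF
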