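import Pool.Agent.TH971.RF.B6

/-!
A point with algebraically independent coordinates, second part (helper file for Zilber-Pink for
random families of elliptic curves with random multisections and functions).
-/

open Function MvPolynomial

namespace Pool.Agent.TH971.RF

open Pool.Agent.W466.ZP Pool.Agent.W282.RW Pool.Agent.W466.EP Pool.Agent.W67.RW

theorem Cl.symm' {V : ValuationSubring ℂ} {a b : ℂ} (h : Cl V a b) : Cl V b a :=
  ⟨h.2.1, h.1, by rw [Valuation.map_sub_swap]; exact h.2.2⟩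

theorem Cl.trans' {V : ValuationSubring ℂ} {a b c : ℂ} (h : Cl V a b) (h' : Cl V b c) :
    Cl V a c := by
  refine ⟨h.1, h'.2.1, ?_⟩
  have e : a - c = (a - b) + (b - c) := by ring
  rw [e]
  exact Valuation.map_add_lt _ h.2.2 h'.2.2

theorem Cl.div' {V : ValuationSubring ℂ} {a b c d : ℂ} (h : Cl V a (c * d)) (h' : Cl V b d)
    (hd : V.valuation d = 1) (hc : c ∈ V) : Cl V (a / b) c := by
  have hb : V.valuation b = 1 := h'.val hd
  have hb0 : b ≠ 0 := by
    rintro rfl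
    rw [map_zero] at hb
    exact zero_ne_one hb
  refine Cl.of_lt hc ?_
  have e : a / b - c = (a - c * b) / b := by field_simp
  rw [e, map_div₀, hb, div_one]
  exact (Cl.trans' h ((Cl.refl hc).mul (Cl.symm' h'))).2.2

theorem Cl.neg' {V : ValuationSubring ℂ} {a b : ℂ} (h : Cl V a b) : Cl V (-a) (-b) :=
  ⟨neg_mem h.1, neg_mem h.2.1, by
    have e : -a - -b = -(a - b) := by ring
    rw [e, Valuation.map_neg]
    exact h.2.2⟩

variable {σ : Type} [Fintype σ] [DecidableEq σ]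

/-- the coordinate functions -/
noncomputable def crd {n q k : ℕ} {e : Fin n → ℕ} {g : Fin q → Fin n} {dt : Fin k → ℕ}
    (A : ∀ i, Sym σ (4 * e i) → ℤ) (B : ∀ i, Sym σ (6 * e i) → ℤ) (α β : ∀ w, Sym σ (dt w) → ℤ)
    (y : σ → ℂ) (P : ∀ i, Fin q → (crv (ev (A i) y) (ev (B i) y)).Point) : Crd n q k → ℂ :=
  Sum.elim (Sum.elim (fun i => 6912 * ev (A i) y ^ 3 / dsc (A i) (B i) y)
    (fun l => xx (P (g l) l) ^ 3 / ev (B (g l)) y)) (fun w => ev (α w) y / ev (β w) y)

theorem domM (Y : Set (σ → ℂ)) {n q k m : ℕ} {e R : Fin n → ℕ} (he : ∀ i, 0 < e i)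
    (hR0 : ∀ i, 0 < R i) {g : Fin q → Fin n} {d : Fin q → ℕ} {dt : Fin k → ℕ}
    (hdt : ∀ w, 0 < dt w) (s : Fin (m + 1) → σ → ℤ) {p : ℕ} (hp : p.Prime) (hp31 : 31 < p)
    (hgood : ∀ V : ValuationSubring ℂ, (p : ℂ) ∈ V.nonunits → ∀ y : σ → ℂ, y ≠ 0 → y ∈ Y →
      ∃ c : ℂ, c ≠ 0 ∧ (∀ j, (c • y) j ∈ V) ∧ c • y ∈ Y ∧
        ∃ b, V.valuation (∑ j, (s b j : ℂ) * (c • y) j) = 1)
    (hdim : ∀ t : Fin m → σ → ℂ, ∃ y : σ → ℂ, y ≠ 0 ∧ y ∈ Y ∧ ∀ i, ∑ j, t i j * y j = 0)
    {A : ∀ i, Sym σ (4 * e i) → ℤ} {B : ∀ i, Sym σ (6 * e i) → ℤ}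
    {F : ∀ l (h : Fin (R (g l) + 1)), Sym σ (d l + 2 * e (g l) * h) → ℤ}
    {α β : ∀ w, Sym σ (dt w) → ℤ} (ψ : Fin m → Crd n q k) (hψ : Injective ψ)
    (hC : CongD p s ψ A B F α β) :
    ∃ y : σ → ℂ, y ≠ 0 ∧ y ∈ Y ∧ (∀ i, dsc (A i) (B i) y ≠ 0) ∧ (∀ i, ev (B i) y ≠ 0) ∧
      (∀ w, ev (α w) y ≠ 0 ∧ ev (β w) y ≠ 0) ∧ (∀ l, ev (F l 0) y ≠ 0) ∧
      ∀ P : ∀ i, Fin q → (crv (ev (A i) y) (ev (B i) y)).Point,
        (∀ l, OnM (F l) y (P (g l) l)) →
        AlgebraicIndependent ℚ (fun t => crd (g := g) A B α β y P (ψ t)) := by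
  classical
  obtain ⟨w, hw⟩ := exists_algInd m
  obtain ⟨V, hV, hwV, hgauss⟩ := exists_gauss w hw hp
  obtain ⟨y0, hy0, hy0Y, hy0l⟩ := hdim (fun i j => (s i.succ j : ℂ) - w i * (s 0 j : ℂ))
  obtain ⟨c, hc, hcV, hcY, b, hb⟩ := hgood V hV y0 hy0 hy0Y
  set y := c • y0 with hy
  set v := V.valuation with hv
  have hvp : v (p : ℂ) < 1 := by
    rwa [ValuationSubring.mem_nonunits_iff] at hV
  set u : ℂ := ∑ j, (s 0 j : ℂ) * y j with hu
  have hlin : ∀ i : Fin m, ∑ j, (s i.succ j : ℂ) * y j = w i * u := by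
    intro i
    have h1 : ∑ j, ((s i.succ j : ℂ) - w i * (s 0 j : ℂ)) * y j = 0 := by
      have h2 := hy0l i
      have h3 : ∑ j, ((s i.succ j : ℂ) - w i * (s 0 j : ℂ)) * y j =
        c * ∑ j, ((s i.succ j : ℂ) - w i * (s 0 j : ℂ)) * y0 j := by
        rw [Finset.mul_sum]
        refine Finset.sum_congr rfl fun j _ => ?_
        rw [hy, Pi.smul_apply, smul_eq_mul]
        ring
      rw [h3, h2, mul_zero]
    have h4 : ∑ j, ((s i.succ j : ℂ) - w i * (s 0 j : ℂ)) * y j =
        ∑ j, (s i.succ j : ℂ) * y j - w i * u := by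
      rw [hu, Finset.mul_sum, ← Finset.sum_sub_distrib]
      refine Finset.sum_congr rfl fun j _ => ?_
      ring
    rw [h4] at h1
    exact sub_eq_zero.1 h1
  have huV' : u ∈ V := sum_mem fun j _ => mul_mem (intCast_mem V _) (hcV j)
  have huV : v u ≤ 1 := by
    rw [ValuationSubring.valuation_le_one_iff]
    exact huV'
  have hu1 : v u = 1 := by
    refine Fin.cases (fun hb => hb) (fun i hb => ?_) b hb
    rw [hlin, map_mul] at hb
    refine le_antisymm huV ?_
    rw [← hb]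
    exact mul_le_of_le_one_left' ((ValuationSubring.valuation_le_one_iff _ _).2 (hwV i))
  have hu1' : ∀ D, v (u ^ D) = 1 := fun D => by rw [map_pow, hu1, one_pow]
  -- the ratios of the linear forms
  let W : Crd n q k → ℂ := fun z => if h : ∃ t, ψ t = z then w h.choose else 1
  have hWψ : ∀ t, W (ψ t) = w t := by
    intro t
    have h : ∃ t', ψ t' = ψ t := ⟨t, rfl⟩
    change (if h : ∃ t', ψ t' = ψ t then w h.choose else 1) = w t
    rw [dif_pos h, hψ h.choose_spec]
  have hWlin : ∀ z, ∑ j, (nf s ψ z j : ℂ) * y j = W z * u := by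
    intro z
    by_cases h : ∃ t, ψ t = z
    · have h1 : nf s ψ z = s h.choose.succ := by rw [nf, dif_pos h]
      have h2 : W z = w h.choose := dif_pos h
      rw [h1, h2]
      exact hlin _
    · have h1 : nf s ψ z = s 0 := by rw [nf, dif_neg h]
      have h2 : W z = 1 := dif_neg h
      rw [h1, h2, one_mul]
  have hWcase : ∀ z, (∃ t, W z = w t) ∨ W z = 1 := by
    intro z
    by_cases h : ∃ t, ψ t = z
    · exact Or.inl ⟨h.choose, dif_pos h⟩
    · exact Or.inr (dif_neg h)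
  have hWV : ∀ z, W z ∈ V := by
    intro z
    rcases hWcase z with ⟨t, ht⟩ | h
    · rw [ht]
      exact hwV t
    · rw [h]
      exact one_mem V
  have hnd : ∀ N : ℕ, N ≠ 0 → N ≤ 31 → ¬ ((p : ℤ) ∣ (N : ℤ)) := by
    intro N h0 h1 h2
    have h3 : p ∣ N := by exact_mod_cast h2
    have := Nat.le_of_dvd (Nat.pos_of_ne_zero h0) h3
    omega
  have hW1 : ∀ z, v (W z) = 1 := by
    intro z
    rcases hWcase z with ⟨t, ht⟩ | h
    · have h1 := hgauss (X t) (by
        intro h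
        rw [C_dvd_iff_dvd_coeff] at h
        have h2 := h (Finsupp.single t 1)
        rw [coeff_X, if_pos rfl] at h2
        exact hnd 1 one_ne_zero (by norm_num) (by exact_mod_cast h2))
      rw [aeval_X] at h1
      rw [ht]
      exact h1
    · rw [h, map_one]
  have hWd : ∀ z, ∀ D, 0 < D → v (4 * W z ^ D + 27) = 1 := by
    intro z D hD
    rcases hWcase z with ⟨t, ht⟩ | h
    · have h3 := hgauss _ (not_dvd_lin hp (by omega) t (e := D) hD)
      have h4 : aeval w (C 4 * X t ^ D + C 27 : MvPolynomial (Fin m) ℤ) = 4 * w t ^ D + 27 := by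
        simp
      rw [h4] at h3
      rw [ht]
      exact h3
    · rw [h, one_pow]
      have h5 : ((4 : ℂ) * 1 + 27) = ((31 : ℕ) : ℂ) := by norm_num
      rw [h5]
      exact v_one V hp hV fun h6 => hnd 31 (by norm_num) le_rfl (by exact_mod_cast h6)
  -- the values of the forms
  have hval : ∀ {D : ℕ} {a : Sym σ D → ℤ} {z : Crd n q k},
      (∀ u, (p : ℤ) ∣ a u - pw _ (nf s ψ z) u) → Cl V (ev a y) ((W z * u) ^ D) := by
    intro D a z h
    refine Cl.of_lt (pow_mem (mul_mem (hWV z) huV') _) ?_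
    have h1 := ev_congr V hcV (p : ℤ) h
    rw [ev_pw, hWlin] at h1
    refine h1.trans_lt ?_
    simpa using hvp
  have hval0 : ∀ {D : ℕ} {a : Sym σ D → ℤ},
      (∀ u, (p : ℤ) ∣ a u - pw _ (s 0) u) → Cl V (ev a y) (u ^ D) := by
    intro D a h
    refine Cl.of_lt (pow_mem huV' _) ?_
    have h1 := ev_congr V hcV (p : ℤ) h
    rw [ev_pw] at h1
    refine h1.trans_lt ?_
    simpa using hvp
  have hne : ∀ {x : ℂ}, v x = 1 → x ≠ 0 := by
    intro x hx h0
    rw [h0, map_zero] at hx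
    exact zero_ne_one hx
  have hA : ∀ i, Cl V (ev (A i) y) ((W (Sum.inl (Sum.inl i)) * u) ^ (4 * e i)) := fun i =>
    hval (hC.cA i)
  have hB : ∀ i, Cl V (ev (B i) y) (u ^ (6 * e i)) := fun i => hval0 (hC.cB i)
  have hB1 : ∀ i, v (ev (B i) y) = 1 := fun i => (hB i).val (hu1' _)
  have h4V : (4 : ℂ) ∈ V := by
    have := natCast_mem V 4
    exact_mod_cast this
  have h27V : (27 : ℂ) ∈ V := by
    have := natCast_mem V 27
    exact_mod_cast this
  have hd1 : ∀ i, v (dsc (A i) (B i) y) = 1 := by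
    intro i
    set W0 := W (Sum.inl (Sum.inl i)) with hW0
    have h1 : Cl V (dsc (A i) (B i) y)
        (4 * ((W0 * u) ^ (4 * e i)) ^ 3 + 27 * (u ^ (6 * e i)) ^ 2) :=
      ((Cl.refl h4V).mul ((hA i).pow 3)).add ((Cl.refl h27V).mul ((hB i).pow 2))
    refine h1.val ?_
    have h2 : (4 : ℂ) * ((W0 * u) ^ (4 * e i)) ^ 3 + 27 * (u ^ (6 * e i)) ^ 2 =
        (4 * W0 ^ (12 * e i) + 27) * u ^ (12 * e i) := by
      rw [mul_pow, mul_pow, ← pow_mul, ← pow_mul, ← pow_mul]
      have e1 : 4 * e i * 3 = 12 * e i := by ring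
      have e2 : 6 * e i * 2 = 12 * e i := by ring
      rw [e1, e2]
      ring
    have h3 := hWd (Sum.inl (Sum.inl i)) (12 * e i) (by have := he i; omega)
    rw [h2, map_mul, hu1', mul_one]
    exact h3
  have hα : ∀ w', Cl V (ev (α w') y) ((W (Sum.inr w') * u) ^ dt w') := fun w' => hval (hC.num w')
  have hβ : ∀ w', Cl V (ev (β w') y) (u ^ dt w') := fun w' => hval0 (hC.den w')
  have hα1 : ∀ w', v (ev (α w') y) = 1 := fun w' => (hα w').val (by
    rw [mul_pow, map_mul, hu1', map_pow, hW1, one_pow, mul_one])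
  have hβ1 : ∀ w', v (ev (β w') y) = 1 := fun w' => (hβ w').val (hu1' _)
  have hF0 : ∀ l, Cl V (ev (F l 0) y) (u ^ (d l + 2 * e (g l) * ((0 : Fin (R (g l) + 1)) : ℕ))) :=
    fun l => hval0 (hC.first l)
  have hF01 : ∀ l, v (ev (F l 0) y) = 1 := fun l => (hF0 l).val (hu1' _)
  have hFl : ∀ l, Cl V (ev (F l (Fin.last _)) y)
      ((W (Sum.inl (Sum.inr l)) * u) ^ (d l + 2 * e (g l) * ((Fin.last (R (g l)) : Fin _) : ℕ))) :=
    fun l => hval (hC.last l)
  have hFm : ∀ l h, h ≠ 0 → h ≠ Fin.last _ → v (ev (F l h) y) < 1 := by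
    intro l h h1 h2
    have h3 := ev_dvd V hcV (p : ℤ) (hC.mid l h h1 h2)
    refine h3.trans_lt ?_
    simpa using hvp
  refine ⟨y, smul_ne_zero hc hy0, hcY, fun i => hne (hd1 i), fun i => hne (hB1 i),
    fun w' => ⟨hne (hα1 w'), hne (hβ1 w')⟩, fun l => hne (hF01 l), fun P hP => ?_⟩
  -- the numbers `z`
  let E : Crd n q k → ℕ := Sum.elim (Sum.elim (fun i => 12 * e i)
    (fun l => 6 * (d l + 2 * e (g l) * R (g l)))) dt
  let z : Crd n q k → ℂ := Sum.elim (Sum.elim (fun i => ev (A i) y ^ 3 / ev (B i) y ^ 2)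
    (fun l => (xx (P (g l) l) ^ 3 / ev (B (g l)) y) ^ (2 * R (g l))))
    (fun w => ev (α w) y / ev (β w) y)
  have hE : ∀ x, 0 < E x := by
    rintro ((i | l) | w')
    · change 0 < 12 * e i
      have := he i
      omega
    · change 0 < 6 * (d l + 2 * e (g l) * R (g l))
      have h1 := Nat.mul_pos (he (g l)) (hR0 (g l))
      rw [mul_assoc 2]
      omega
    · exact hdt w'
  have hz : ∀ x, Cl V (z x) (W x ^ E x) := by
    rintro ((i | l) | w')
    · change Cl V (ev (A i) y ^ 3 / ev (B i) y ^ 2) (W (Sum.inl (Sum.inl i)) ^ (12 * e i))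
      refine Cl.div' (d := (u ^ (6 * e i)) ^ 2) ?_ ((hB i).pow 2) (by
        rw [map_pow, hu1', one_pow]) (pow_mem (hWV _) _)
      have h2 := (hA i).pow 3
      have e1 : ((W (Sum.inl (Sum.inl i)) * u) ^ (4 * e i)) ^ 3 =
          W (Sum.inl (Sum.inl i)) ^ (12 * e i) * (u ^ (6 * e i)) ^ 2 := by
        rw [mul_pow, mul_pow, ← pow_mul, ← pow_mul, ← pow_mul]
        have e1 : 4 * e i * 3 = 12 * e i := by ring
        have e2 : 6 * e i * 2 = 12 * e i := by ring
        rw [e1, e2]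
      rwa [e1] at h2
    · change Cl V ((xx (P (g l) l) ^ 3 / ev (B (g l)) y) ^ (2 * R (g l)))
        (W (Sum.inl (Sum.inr l)) ^ (6 * (d l + 2 * e (g l) * R (g l))))
      set W0 := W (Sum.inl (Sum.inr l)) with hW0
      have hF0l := hF0 l
      have hx0 : u ^ (d l + 2 * e (g l) * ((0 : Fin (R (g l) + 1)) : ℕ)) = u ^ d l := by
        rw [Fin.val_zero, mul_zero, add_zero]
      rw [hx0] at hF0l
      have hFll := hFl l
      have hx1 : (W (Sum.inl (Sum.inr l)) * u) ^
          (d l + 2 * e (g l) * ((Fin.last (R (g l)) : Fin (R (g l) + 1)) : ℕ)) =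
          (W0 * u) ^ (d l + 2 * e (g l) * R (g l)) := by
        rw [Fin.val_last]
      rw [hx1] at hFll
      rcases hP l with ⟨-, h4⟩ | ⟨-, h4⟩
      · exact absurd h4 (hne (hF01 l))
      · set X := xx (P (g l) l) with hX
        obtain ⟨hXV, hXc⟩ := root_cl (hR0 (g l)) (fun h => ev (F l h) y) (hF01 l) hFll.1
          (fun h h1 h2 => hFm l h h1 h2) h4
        have h5 : Cl V (ev (F l 0) y * X ^ R (g l)) (-(W0 * u) ^ (d l + 2 * e (g l) * R (g l))) := by
          refine Cl.trans' (b := -ev (F l (Fin.last _)) y) ⟨mul_mem hF0l.1 (pow_mem hXV _),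
            neg_mem hFll.1, ?_⟩ (Cl.neg' hFll)
          rw [sub_neg_eq_add]
          exact hXc
        -- the power of `x`
        have h6 : Cl V (X ^ R (g l)) (-(W0 ^ (d l + 2 * e (g l) * R (g l)) *
            u ^ (2 * e (g l) * R (g l)))) := by
          have h7 : X ^ R (g l) = ev (F l 0) y * X ^ R (g l) / ev (F l 0) y := by
            have := hne (hF01 l)
            field_simp
          rw [h7]
          refine Cl.div' (d := u ^ d l) ?_ hF0l (hu1' _)
            (neg_mem (mul_mem (pow_mem (hWV _) _) (pow_mem huV' _)))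
          have h8 : -(W0 ^ (d l + 2 * e (g l) * R (g l)) * u ^ (2 * e (g l) * R (g l))) * u ^ d l =
              -(W0 * u) ^ (d l + 2 * e (g l) * R (g l)) := by
            rw [mul_pow, pow_add u]
            ring
          rw [h8]
          exact h5
        have h9 : (X ^ 3 / ev (B (g l)) y) ^ (2 * R (g l)) =
            (X ^ R (g l)) ^ 6 / ev (B (g l)) y ^ (2 * R (g l)) := by
          rw [div_pow, ← pow_mul, ← pow_mul]
          congr 2
          ring
        rw [h9]
        refine Cl.div' (d := (u ^ (6 * e (g l))) ^ (2 * R (g l))) ?_ ((hB (g l)).pow _) (by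
          rw [map_pow, hu1', one_pow]) (pow_mem (hWV _) _)
        have h10 := h6.pow 6
        have h11 : (-(W0 ^ (d l + 2 * e (g l) * R (g l)) * u ^ (2 * e (g l) * R (g l)))) ^ 6 =
            W0 ^ (6 * (d l + 2 * e (g l) * R (g l))) * (u ^ (6 * e (g l))) ^ (2 * R (g l)) := by
          rw [neg_pow, mul_pow, ← pow_mul, ← pow_mul, ← pow_mul]
          have e1 : (d l + 2 * e (g l) * R (g l)) * 6 = 6 * (d l + 2 * e (g l) * R (g l)) := by ring
          have e2 : 2 * e (g l) * R (g l) * 6 = 6 * e (g l) * (2 * R (g l)) := by ring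
          rw [e1, e2]
          norm_num
        rwa [h11] at h10
    · change Cl V (ev (α w') y / ev (β w') y) (W (Sum.inr w') ^ dt w')
      refine Cl.div' (d := u ^ dt w') ?_ (hβ w') (hu1' _) (pow_mem (hWV _) _)
      have h2 := hα w'
      rwa [mul_pow] at h2
  refine close_ind hp w V hV hwV hgauss _ (fun t => z (ψ t)) (fun t => E (ψ t))
    (fun t => hE _) (fun t => ?_) fun t => ?_
  · have h1 := hz (ψ t)
    rwa [hWψ] at h1
  · -- `z` is in the field generated by the coordinates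
    have hmem : crd (g := g) A B α β y P (ψ t) ∈ IntermediateField.adjoin ℚ
        (Set.range fun t => crd (g := g) A B α β y P (ψ t)) :=
      IntermediateField.subset_adjoin ℚ _ ⟨t, rfl⟩
    generalize IntermediateField.adjoin ℚ
      (Set.range fun t => crd (g := g) A B α β y P (ψ t)) = FF at hmem ⊢
    change z (ψ t) ∈ FF
    generalize ψ t = x at hmem ⊢
    rcases x with (i | l) | w'
    · change 6912 * ev (A i) y ^ 3 / dsc (A i) (B i) y ∈ FF at hmem
      change ev (A i) y ^ 3 / ev (B i) y ^ 2 ∈ FF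
      set a := ev (A i) y with ha
      set b' := ev (B i) y with hb'
      set j : ℂ := 6912 * a ^ 3 / dsc (A i) (B i) y with hj
      have hD0 := hne (hd1 i)
      have hdsc : dsc (A i) (B i) y = 4 * a ^ 3 + 27 * b' ^ 2 := rfl
      have hb0 : b' ≠ 0 := hne (hB1 i)
      have hkey : a ^ 3 / b' ^ 2 = 27 * j / (6912 - 4 * j) := by
        have h1 : 6912 - 4 * j = 6912 * 27 * b' ^ 2 / dsc (A i) (B i) y := by
          rw [hj]
          field_simp
          rw [hdsc]
          ring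
        rw [h1, hj]
        field_simp
      rw [hkey]
      have hn : ∀ k : ℕ, (k : ℂ) ∈ FF := fun k => natCast_mem _ k
      refine div_mem (mul_mem ?_ hmem) (sub_mem ?_ (mul_mem ?_ hmem))
      · exact_mod_cast hn 27
      · exact_mod_cast hn 6912
      · exact_mod_cast hn 4
    · exact pow_mem hmem _
    · exact hmem

end Pool.Agent.TH971.RF
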