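import Pool.Agent.TH971.RF.B5
import Pool.Agent.TH971.RF.B7

/-!
Zilber-Pink for a positive proportion of all families of elliptic curves with multisections and
functions: the main theorem, together with the dimension of the image.
-/

open Function MvPolynomial H294ZP

namespace Pool.Agent.TH971.RF

open Pool.Agent.W466.ZP Pool.Agent.W282.RW Pool.Agent.W466.EP

variable {N n q k : ℕ} {e R : Fin n → ℕ} {g : Fin q → Fin n} {d : Fin q → ℕ} {dt : Fin k → ℕ}

/-- Any `m` of the coordinates are algebraically independent at some point. -/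
def DimM {κ : Type*} (G : κ → MvPolynomial (Fin (N + 1)) ℂ) (m : ℕ) (f : FamM N e R g d dt) :
    Prop :=
  ∀ ψ : Fin m → Crd n q k, Injective ψ → ∃ y : Fin (N + 1) → ℂ, y ≠ 0 ∧
    (∀ k, eval y (G k) = 0) ∧ (∀ i, dsc (f.A i) (f.B i) y ≠ 0) ∧ (∀ i, ev (f.B i) y ≠ 0) ∧
    (∀ w, ev (f.a w) y ≠ 0 ∧ ev (f.b w) y ≠ 0) ∧ (∀ l, ev (f.F l 0) y ≠ 0) ∧
    (∃ P : ∀ i, Fin q → (crv (ev (f.A i) y) (ev (f.B i) y)).Point,
      ∀ l, OnM (f.F l) y (P (g l) l)) ∧
    ∀ P : ∀ i, Fin q → (crv (ev (f.A i) y) (ev (f.B i) y)).Point,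
      (∀ l, OnM (f.F l) y (P (g l) l)) →
      AlgebraicIndependent ℚ (fun t => crd (g := g) f.A f.B f.a f.b y P (ψ t))

/-- The main theorem. -/
theorem mainM2 (hCNT : S_CNT2) {κ : Type*} (N n q k m : ℕ) (e R : Fin n → ℕ)
    (he : ∀ i, 0 < e i) (hR0 : ∀ i, 0 < R i) (g : Fin q → Fin n) (d : Fin q → ℕ)
    (dt : Fin k → ℕ) (hdt : ∀ w, 0 < dt w)
    (G : κ → MvPolynomial (Fin (N + 1)) ℂ) (hhom : ∀ k, ∃ e, (G k).IsHomogeneous e)
    (halg : ∀ k s, IsAlgebraic ℚ ((G k).coeff s))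
    (hdim1 : ∃ t : Fin (m + 1) → Fin (N + 1) → ℂ, ∀ y : Fin (N + 1) → ℂ,
      (∀ k, eval y (G k) = 0) → (∀ b, ∑ j, t b j * y j = 0) → y = 0)
    (hdim2 : ∀ t : Fin m → Fin (N + 1) → ℂ, ∃ y : Fin (N + 1) → ℂ, y ≠ 0 ∧
      (∀ k, eval y (G k) = 0) ∧ ∀ i, ∑ j, t i j * y j = 0) :
    ∃ δ : ℝ, 0 < δ ∧ ∃ H₀ : ℕ, ∀ (hA hB : Fin n → ℕ) (hF : ∀ l, Fin (R (g l) + 1) → ℕ)
      (ha hb : Fin k → ℕ),
      (∀ i, H₀ ≤ hA i ∧ H₀ ≤ hB i) → (∀ l h, H₀ ≤ hF l h) → (∀ w, H₀ ≤ ha w ∧ H₀ ≤ hb w) →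
      δ * ((boxM N e R g d dt hA hB hF ha hb).ncard : ℝ) ≤
        ((boxM N e R g d dt hA hB hF ha hb ∩ {f | DimM G m f ∧ NoAtM G m f}).ncard : ℝ) := by
  classical
  obtain ⟨t, ht⟩ := hdim1
  obtain ⟨s, hs⟩ := int_forms G hhom t ht
  obtain ⟨D, hD, hgood⟩ := good_prime G halg hhom s hs
  let Y : Set (Fin (N + 1) → ℂ) := {y | ∀ k, eval y (G k) = 0}
  have hgood' : Good Y s D := hgood
  let M : ℕ := n + q + k + m
  have hgv := good_vdm hgood' (n + q + k)
  have hDM : 0 < D * (n + q + k + m).factorial := Nat.mul_pos hD (Nat.factorial_pos _)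
  let ι0 := (kk : Fin (n + 1)) × (Fin n → Option (Fin kk)) × (Fin q → Fin q) ×
    Fin ((k - 1) * 2 ^ k + 1)
  let ι := ι0 ⊕ (Fin m → Crd n q k)
  let K : ℕ := 2 * (∑ i, e i) * (n + 1) + (∑ i, R i) + (((k - 1) * 2 ^ k + 1) ^ k) + q + 2
  have hK : ∀ i, 2 * e i * (n + 1) ≤ K := by
    intro i
    have h1 : e i ≤ ∑ i, e i := Finset.single_le_sum (f := e) (fun _ _ => Nat.zero_le _)
      (Finset.mem_univ i)
    have h2 : 2 * e i * (n + 1) ≤ 2 * (∑ i, e i) * (n + 1) :=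
      Nat.mul_le_mul_right _ (Nat.mul_le_mul_left _ h1)
    change _ ≤ 2 * (∑ i, e i) * (n + 1) + (∑ i, R i) + (((k - 1) * 2 ^ k + 1) ^ k) + q + 2
    omega
  have hKl : ∀ l, R (g l) + 1 + q < K := by
    intro l
    have h1 : R (g l) ≤ ∑ i, R i := Finset.single_le_sum (f := R) (fun _ _ => Nat.zero_le _)
      (Finset.mem_univ (g l))
    change _ < 2 * (∑ i, e i) * (n + 1) + (∑ i, R i) + (((k - 1) * 2 ^ k + 1) ^ k) + q + 2
    omega
  have hKf : ((k - 1) * 2 ^ k + 1) ^ k < K := by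
    change _ < 2 * (∑ i, e i) * (n + 1) + (∑ i, R i) + (((k - 1) * 2 ^ k + 1) ^ k) + q + 2
    omega
  have hK0 : 0 < K := Nat.succ_pos _
  let pr : ι → ℕ := fun i => Nat.nth Nat.Prime (D + M + 31 + Fintype.equivFin ι i)
  have hprime : ∀ i, (pr i).Prime := fun i => Nat.prime_nth_prime _
  have hprge : ∀ i, D + M + 31 + 2 ≤ pr i := by
    intro i
    have h1 : D + M + 31 + (Fintype.equivFin ι i : ℕ) + 2 ≤ pr i := Nat.add_two_le_nth_prime _
    omega
  have hpr3 : ∀ i, 3 < pr i := fun i => by have := hprge i; omega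
  have hprM : ∀ i, n + q + k + m < pr i := fun i => by
    have h1 := hprge i
    change D + (n + q + k + m) + 31 + 2 ≤ pr i at h1
    omega
  have hprD : ∀ i, ¬ pr i ∣ D := by
    intro i h
    have h2 := Nat.le_of_dvd hD h
    have := hprge i
    omega
  have hprinj : Injective pr := by
    intro i i' h
    have h1 := Nat.nth_injective Nat.infinite_setOfPred_prime h
    exact (Fintype.equivFin ι).injective (Fin.ext (by omega))
  let Qf : ι → ℕ := fun i => pr i ^ K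
  have hqpos : ∀ i, 0 < Qf i := fun i => pow_pos (hprime i).pos _
  have hqcop : Pairwise (Nat.Coprime on Qf) := by
    intro i i' hne
    exact Nat.Coprime.pow _ _ ((Nat.coprime_primes (hprime i) (hprime i')).2
      (fun h => hne (hprinj h)))
  let s' : Fin (n + q + k + m + 1) → Fin (N + 1) → ℤ := fun t => vdm s t
  let a1 : Fin n → Fin (n + q + k + m + 1) := fun i => ⟨i, by omega⟩
  let s2 : Fin q → Fin (N + 1) → ℤ := fun l => vdm s (n + (l : ℕ))
  let s3 : Fin k → Fin (N + 1) → ℤ := fun w => vdm s (n + q + (w : ℕ))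
  let T : ι → IdxM N e R g d dt → ℤ := fun c x =>
    match c, x with
    | Sum.inl c, Sum.inl (Sum.inl ⟨i, u⟩) => tA e s' c.2.1 a1 i u
    | Sum.inl c, Sum.inl (Sum.inr ⟨i, u⟩) => tB (pr (Sum.inl c)) e s' c.2.1 a1 i u
    | Sum.inl c, Sum.inr (Sum.inl ⟨l, h, u⟩) =>
        tF (pr (Sum.inl c)) e R g d s2 (levM g R c.2.2.1) l h u
    | Sum.inl c, Sum.inr (Sum.inr (Sum.inl ⟨w, u⟩)) => (pr (Sum.inl c) : ℤ) ^ 0 * pw _ (s3 w) u
    | Sum.inl c, Sum.inr (Sum.inr (Sum.inr ⟨w, u⟩)) =>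
        (pr (Sum.inl c) : ℤ) ^ (((c.2.2.2 : ℕ) + 1) ^ (w : ℕ)) * pw _ (s3 w) u
    | Sum.inr ψ, Sum.inl (Sum.inl ⟨i, u⟩) => pw _ (nf s ψ (Sum.inl (Sum.inl i))) u
    | Sum.inr _, Sum.inl (Sum.inr ⟨_, u⟩) => pw _ (s 0) u
    | Sum.inr ψ, Sum.inr (Sum.inl ⟨l, h, u⟩) =>
        if h = 0 then pw _ (s 0) u
        else if h = Fin.last _ then pw _ (nf s ψ (Sum.inl (Sum.inr l))) u else 0
    | Sum.inr ψ, Sum.inr (Sum.inr (Sum.inl ⟨w, u⟩)) => pw _ (nf s ψ (Sum.inr w)) u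
    | Sum.inr _, Sum.inr (Sum.inr (Sum.inr ⟨_, u⟩)) => pw _ (s 0) u
  have hRr : ∀ x, ∃ r : ℤ, ∀ c, (Qf c : ℤ) ∣ r - T c x := fun x =>
    crt Qf hqpos hqcop (fun c => T c x)
  choose Rr hRr using hRr
  set Q : ℕ := ∏ i, Qf i with hQdef
  have hQ : 0 < Q := Finset.prod_pos (fun i _ => hqpos i)
  refine ⟨(1 / (2 * (Q : ℝ))) ^ Fintype.card (IdxM N e R g d dt), by positivity, Q, ?_⟩
  intro hA hB hF ha hb hAB hFb hab
  have h1 := hCNT (IdxM N e R g d dt) Q hQ Rr (bndM N e R g d dt hA hB hF ha hb) (by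
    rintro ((u | u) | (u | (u | u)))
    · exact (hAB u.1).1
    · exact (hAB u.1).2
    · exact hFb u.1 u.2.1
    · exact (hab u.1).1
    · exact (hab u.1).2)
  have hbc : (boxM N e R g d dt hA hB hF ha hb).ncard =
      {F : IdxM N e R g d dt → ℤ | ∀ u, |F u| ≤ bndM N e R g d dt hA hB hF ha hb u}.ncard := by
    rw [← Set.ncard_image_of_injective _ (famMEquiv N e R g d dt).injective]
    congr 1
    ext f
    constructor
    · intro hf
      refine ⟨(famMEquiv N e R g d dt).symm f, ?_, (famMEquiv N e R g d dt).apply_symm_apply f⟩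
      exact (mem_boxM hA hB hF ha hb _).2
        (by rw [(famMEquiv N e R g d dt).apply_symm_apply]; exact hf)
    · rintro ⟨F, hF', rfl⟩
      exact (mem_boxM hA hB hF ha hb F).1 hF'
  rw [hbc]
  refine h1.trans ?_
  have hfin := boxM_finite (N := N) (e := e) (R := R) (g := g) (d := d) (dt := dt) hA hB hF ha hb
  refine Nat.cast_le.2 (Set.ncard_le_ncard_of_injOn (famMEquiv N e R g d dt) ?_
    (famMEquiv N e R g d dt).injective.injOn (hfin.subset fun f hf => hf.1))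
  rintro F ⟨hF1, hF2⟩
  refine ⟨(mem_boxM hA hB hF ha hb F).1 hF1, ?_, ?_⟩
  · -- the dimension
    intro ψ hψ
    set f := famMEquiv N e R g d dt F with hf
    have hq1 : ∀ x, ((pr (Sum.inr ψ) : ℕ) : ℤ) ∣ F x - T (Sum.inr ψ) x := by
      intro x
      have h3 : (Qf (Sum.inr ψ) : ℤ) ∣ (Q : ℤ) := by
        rw [hQdef]
        exact_mod_cast Finset.dvd_prod_of_mem Qf (Finset.mem_univ (Sum.inr ψ))
      have h4 := dvd_add (h3.trans (hF2 x)) (hRr x (Sum.inr ψ))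
      rw [sub_add_sub_cancel] at h4
      refine dvd_trans ?_ h4
      show ((pr (Sum.inr ψ) : ℕ) : ℤ) ∣ ((pr (Sum.inr ψ) ^ K : ℕ) : ℤ)
      rw [Nat.cast_pow]
      exact dvd_pow_self _ hK0.ne'
    have hlast : ∀ l, Fin.last (R (g l)) ≠ 0 := by
      intro l h6
      have h7 := congrArg Fin.val h6
      rw [Fin.val_last, Fin.val_zero] at h7
      exact (hR0 (g l)).ne' h7
    have hCD : CongD (pr (Sum.inr ψ)) s ψ f.A f.B f.F f.a f.b := by
      refine ⟨?_, ?_, ?_, ?_, ?_, ?_, ?_⟩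
      · intro i u
        exact hq1 (Sum.inl (Sum.inl ⟨i, u⟩))
      · intro i u
        exact hq1 (Sum.inl (Sum.inr ⟨i, u⟩))
      · intro l u
        have h5 := hq1 (Sum.inr (Sum.inl ⟨l, 0, u⟩))
        change _ ∣ _ - (if (0 : Fin (R (g l) + 1)) = 0 then pw _ (s 0) u
          else if (0 : Fin (R (g l) + 1)) = Fin.last _ then
            pw _ (nf s ψ (Sum.inl (Sum.inr l))) u else 0) at h5
        rwa [if_pos rfl] at h5
      · intro l u
        have h5 := hq1 (Sum.inr (Sum.inl ⟨l, Fin.last _, u⟩))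
        change _ ∣ _ - (if (Fin.last (R (g l))) = 0 then pw _ (s 0) u
          else if (Fin.last (R (g l))) = Fin.last _ then
            pw _ (nf s ψ (Sum.inl (Sum.inr l))) u else 0) at h5
        rwa [if_neg (hlast l), if_pos rfl] at h5
      · intro l h h6 h7 u
        have h5 := hq1 (Sum.inr (Sum.inl ⟨l, h, u⟩))
        change _ ∣ _ - (if h = 0 then pw _ (s 0) u
          else if h = Fin.last _ then
            pw _ (nf s ψ (Sum.inl (Sum.inr l))) u else 0) at h5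
        rw [if_neg h6, if_neg h7, sub_zero] at h5
        exact h5
      · intro w u
        exact hq1 (Sum.inr (Sum.inr (Sum.inl ⟨w, u⟩)))
      · intro w u
        exact hq1 (Sum.inr (Sum.inr (Sum.inr ⟨w, u⟩)))
    obtain ⟨y, hy0, hyY, hyd, hyB, hyab, hyF, hyI⟩ := domM Y he hR0 hdt s (hprime (Sum.inr ψ))
      (by have := hprge (Sum.inr ψ); omega)
      (fun V hV y hy0 hy => hgood _ (hprime _) (hprD _) V hV y hy0 hy) hdim2 ψ hψ hCD
    refine ⟨y, hy0, hyY, hyd, hyB, hyab, hyF, ?_, hyI⟩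
    have hX := fun l => exists_root (hR0 (g l)) (fun h => ev (f.F l h) y) (hyF l)
    choose X hX using hX
    have hPt : ∀ i l, ∃ P : (crv (ev (f.A i) y) (ev (f.B i) y)).Point, P ≠ 0 ∧ xx P = X l :=
      fun i l => exists_point (hyd i)
    choose P hP0 hPX using hPt
    refine ⟨P, fun l => Or.inr ⟨hP0 _ _, ?_⟩⟩
    rw [hPX]
    exact hX l
  have hF3 : ∀ c x, (Qf c : ℤ) ∣ F x - T c x := by
    intro c x
    have h3 : (Qf c : ℤ) ∣ (Q : ℤ) := by
      rw [hQdef]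
      exact_mod_cast Finset.dvd_prod_of_mem Qf (Finset.mem_univ c)
    have h4 := dvd_add (h3.trans (hF2 x)) (hRr x c)
    rwa [sub_add_sub_cancel] at h4
  have hF4 : ∀ c x, ((pr c : ℕ) : ℤ) ^ K ∣ F x - T c x := by
    intro c x
    have h5 : ((Qf c : ℕ) : ℤ) = ((pr c : ℕ) : ℤ) ^ K := by
      show ((pr c ^ K : ℕ) : ℤ) = _
      rw [Nat.cast_pow]
    rw [← h5]
    exact hF3 c x
  set f := famMEquiv N e R g d dt F with hf
  -- the criterion
  have hC : ∀ (kk : ℕ) (_ : kk ≤ n) (lam : Fin n → Option (Fin kk)) (c : Fin q → Fin q)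
      (l0 : Fin ((k - 1) * 2 ^ k + 1)), ∃ p : ℕ, p.Prime ∧ 3 < p ∧ ¬ p ∣ D ∧ n + q + k + m < p ∧
        CongW n kk (n + q + k + m) e K p lam (fun t : Fin (n + q + k + m + 1) => vdm s t)
          (fun i => ⟨i, by omega⟩) f.A f.B ∧
        CongM K p (fun l : Fin q => vdm s (n + (l : ℕ))) (fun w : Fin k => vdm s (n + q + (w : ℕ)))
          (levM g R c) (fun w => ((l0 : ℕ) + 1) ^ (w : ℕ)) f.F f.a f.b := by
    intro kk hkk lam c l0
    let cc : ι := Sum.inl ⟨⟨kk, Nat.lt_succ_of_le hkk⟩, lam, c, l0⟩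
    refine ⟨pr cc, hprime _, hpr3 _, hprD _, hprM _,
      congW_of_target hK0 s' lam a1 _ _ ?_ ?_, ⟨?_, ?_, ?_, ?_, ?_⟩⟩
    · intro i u
      exact hF4 cc (Sum.inl (Sum.inl ⟨i, u⟩))
    · intro i u
      exact hF4 cc (Sum.inl (Sum.inr ⟨i, u⟩))
    · intro l u
      have h5 := hF4 cc (Sum.inr (Sum.inl ⟨l, 0, u⟩))
      change _ ∣ _ - tF (pr cc) e R g d s2 (levM g R c) l 0 u at h5
      rwa [tF, if_pos rfl] at h5
    · intro l u
      have h5 := hF4 cc (Sum.inr (Sum.inl ⟨l, Fin.last _, u⟩))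
      change _ ∣ _ - tF (pr cc) e R g d s2 (levM g R c) l (Fin.last _) u at h5
      have hne : (Fin.last (R (g l))) ≠ 0 := by
        intro h6
        have h7 := congrArg Fin.val h6
        rw [Fin.val_last, Fin.val_zero] at h7
        exact (hR0 (g l)).ne' h7
      rwa [tF, if_neg hne, if_pos rfl] at h5
    · intro l h h6 h7 u
      have h5 := hF4 cc (Sum.inr (Sum.inl ⟨l, h, u⟩))
      change _ ∣ _ - tF (pr cc) e R g d s2 (levM g R c) l h u at h5
      rw [tF, if_neg h6, if_neg h7, sub_zero] at h5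
      exact h5
    · intro w u
      exact hF4 cc (Sum.inr (Sum.inr (Sum.inl ⟨w, u⟩)))
    · intro w u
      exact hF4 cc (Sum.inr (Sum.inr (Sum.inr ⟨w, u⟩)))
  intro r Z y hy hyG x hx hxy P hP u hu c hc Λ hΛ M₂ hM₂
  have hcrit := criterionM he hK hR0 g hKl hKf d dt Y s D hgood' f.A f.B f.F f.a f.b hC r Z x hx y
    hy hyG hxy P hP u hu c hc Λ hΛ M₂ hM₂
  -- a linear form which does not vanish
  obtain ⟨b0, hb0⟩ : ∃ b0 : Fin (m + 1), ∑ j, (vdm s (n + q + k + (b0 : ℕ)) j : ℂ) * y j ≠ 0 := by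
    obtain ⟨p, hpge, hp⟩ := Nat.exists_infinite_primes (D * (n + q + k + m).factorial + 1)
    obtain ⟨V, hV⟩ := H294ZP.exists_val (fun i : Empty => i.elim)
      (algebraicIndependent_empty_type) hp
    obtain ⟨c, -, -, -, b, hb⟩ := hgv p hp (fun h => by
      have := Nat.le_of_dvd hDM h
      omega) V hV.1 y hy hyG
    refine ⟨b, fun h0 => ?_⟩
    rw [lf_smul, h0, mul_zero, map_zero] at hb
    exact zero_ne_one hb
  set c0 : ℂ := ∑ j, (vdm s (n + q + k + (b0 : ℕ)) j : ℂ) * y j with hc0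
  have hz : c0⁻¹ • y ≠ 0 := smul_ne_zero (inv_ne_zero hb0) hy
  have hzY : c0⁻¹ • y ∈ Y := by
    intro k
    obtain ⟨w, hw⟩ := hhom k
    rw [Pool.Agent.W466.ZC.eval_smul hw, hyG k, mul_zero]
  have hrange : (fun b : Fin (m + 1) => ∑ i, (vdm s (n + q + k + (b : ℕ)) i : ℂ) * (c0⁻¹ • y) i) =
      fun b : Fin (m + 1) => c0⁻¹ * ∑ j, (vdm s (n + q + k + (b : ℕ)) j : ℂ) * y j := by
    funext b
    rw [lf_smul]
  refine ⟨?_, ?_⟩
  · intro j0 T hT
    have h3 := rk_ratio hDM hgv hz hzY j0 T (by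
      convert hT using 1
      funext j
      rw [Pi.smul_apply, Pi.smul_apply, smul_eq_mul, smul_eq_mul,
        mul_div_mul_left _ _ (inv_ne_zero hb0)])
    rw [hrange] at h3
    obtain ⟨S, hS1, hS2⟩ := exists_sub _ _ h3
    rw [← hS1]
    exact hcrit b0 hb0 S hS2
  · intro T hT
    rcases Nat.eq_zero_or_pos T.card with h0 | h0
    · have h3 := hcrit b0 hb0 ∅ (algebraicIndependent_empty_type)
      rw [Finset.card_empty] at h3
      omega
    · have h3 := rk_affine hDM hgv hz hzY c0 T (by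
        convert hT using 1
        funext j
        rw [Pi.smul_apply, smul_eq_mul, mul_inv_cancel_left₀ hb0])
      rw [hrange] at h3
      have h4 : ((T.card - 1 : ℕ) : ℕ∞) ≤ (AlgebraicIndependent.matroid ℚ ℂ).eRk
          (Set.range fun b : Fin (m + 1) =>
            c0⁻¹ * ∑ j, (vdm s (n + q + k + (b : ℕ)) j : ℂ) * y j) := by
        have h5 : ((T.card : ℕ) : ℕ∞) = ((T.card - 1 : ℕ) : ℕ∞) + 1 := by
          have : T.card = T.card - 1 + 1 := by omega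
          exact_mod_cast this
        rw [h5] at h3
        exact (ENat.add_le_add_iff_right ENat.one_ne_top).1 h3
      obtain ⟨S, hS1, hS2⟩ := exists_sub _ _ h4
      have h5 := hcrit b0 hb0 S hS2
      omega

end Pool.Agent.TH971.RF
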