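import Pool.Agent.W466.CA
import Pool.Agent.TH971.RF.B3

/-!
Archimedean valuation rings of `ℂ`, values of polynomials at large arguments, and values of
quadratic integers (helper file for Pink's conjecture for random multisections of powers of elliptic
schemes).
-/

open MvPolynomial

namespace Pool.Agent.TH971.RF

open Pool.Agent.W466.ZP Pool.Agent.W466.ZC Pool.Agent.W282.RW Pool.Agent.W466.EP

/-- An archimedean valuation ring over `p` which contains given algebraically independent
numbers. -/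
theorem exists_val_arch {ι : Type*} (y : ι → ℂ) (hy : AlgebraicIndependent ℚ y) {p : ℕ}
    (hp : p.Prime) : ∃ V : ValuationSubring ℂ, (p : ℂ) ∈ V.nonunits ∧ (∀ i, y i ∈ V) ∧
      ∀ z : ℂ, ∃ M : ℕ, V.valuation z * V.valuation (p : ℂ) ^ M ≤ 1 := by
  classical
  have hyZ : AlgebraicIndependent ℤ y := hy.restrictScalars (Int.cast_injective (α := ℚ))
  have hr : AlgebraicIndepOn ℤ id (Set.range y) := hyZ.coe_range
  obtain ⟨s, hys, hs⟩ := exists_isTranscendenceBasis_superset hr
  have : Algebra.IsAlgebraic ℤ ℚ := IsLocalization.isAlgebraic ℚ (nonZeroDivisors ℤ)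
  have hsQ : AlgebraicIndependent ℚ ((↑) : s → ℂ) := hs.1.extendScalars ℚ
  have halg : Algebra.IsAlgebraic (Algebra.adjoin ℤ (Set.range ((↑) : s → ℂ))) ℂ := hs.isAlgebraic
  obtain ⟨V, hV1, hV2, hV3⟩ := Pool.Agent.W466.ZP.exists_gauss ((↑) : s → ℂ) hsQ hp
  set v := V.valuation with hv
  have hval : ∀ (N : ℕ) (f : MvPolynomial s ℤ) (m : s →₀ ℕ), (f.coeff m).natAbs ≤ N →
      f.coeff m ≠ 0 → ∃ k : ℕ, v (aeval ((↑) : s → ℂ) f) = v (p : ℂ) ^ k := by
    intro N
    induction N with
    | zero =>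
      intro f m h1 h2
      exact absurd (Int.natAbs_eq_zero.1 (Nat.le_zero.1 h1)) h2
    | succ N ih =>
      intro f m h1 h2
      by_cases hd : C (p : ℤ) ∣ f
      · obtain ⟨f', rfl⟩ := hd
        have h3 : (C (p : ℤ) * f').coeff m = p * f'.coeff m := by rw [coeff_C_mul]
        rw [h3] at h1 h2
        have h4 : f'.coeff m ≠ 0 := right_ne_zero_of_mul h2
        have h5 : (f'.coeff m).natAbs ≤ N := by
          rw [Int.natAbs_mul, Int.natAbs_natCast] at h1
          have h6 := Int.natAbs_pos.2 h4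
          have h7 : 2 * (f'.coeff m).natAbs ≤ p * (f'.coeff m).natAbs :=
            Nat.mul_le_mul_right _ hp.two_le
          omega
        obtain ⟨k, hk⟩ := ih f' m h5 h4
        refine ⟨k + 1, ?_⟩
        rw [map_mul, aeval_C, map_mul, hk, pow_succ']
        simp
      · exact ⟨0, by rw [pow_zero]; exact hV3 f hd⟩
  refine ⟨V, hV1, fun i => hV2 ⟨y i, hys ⟨i, rfl⟩⟩, fun z => ?_⟩
  obtain ⟨a, ha, hint⟩ := (halg.1 z).exists_integral_multiple
  have h2 : (a : ℂ) ∈ (aeval ((↑) : s → ℂ) : MvPolynomial s ℤ →ₐ[ℤ] ℂ).range := by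
    rw [← Algebra.adjoin_range_eq_range_aeval]
    exact a.2
  obtain ⟨f, hf⟩ := h2
  have hf0 : f ≠ 0 := by
    rintro rfl
    apply ha
    apply Subtype.ext
    rw [← hf]
    simp
  obtain ⟨m, hm⟩ : ∃ m, f.coeff m ≠ 0 := by
    by_contra h
    push Not at h
    exact hf0 (MvPolynomial.ext _ _ fun m => by rw [h m, coeff_zero])
  obtain ⟨k, hk⟩ := hval _ f m le_rfl hm
  refine ⟨k, ?_⟩
  have h4 : (a : ℂ) * z ∈ V := by
    refine mem_of_integral V ?_ hint
    intro z hz
    have hle : Algebra.adjoin ℤ (Set.range ((↑) : s → ℂ)) ≤ subalgebraOfSubring V.toSubring := by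
      refine Algebra.adjoin_le ?_
      rintro _ ⟨x, rfl⟩
      exact hV2 x
    exact hle hz
  have h5 : (a : ℂ) = aeval ((↑) : s → ℂ) f := hf.symm
  rw [h5, ← ValuationSubring.valuation_le_one_iff, map_mul, ← hv, hk, mul_comm] at h4
  exact h4

section poly

variable {V : ValuationSubring ℂ} {p : ℕ}

/-- The value of a polynomial at a large argument. -/
theorem poly_large (hp0 : V.valuation (p : ℂ) ≠ 0) (hp1 : V.valuation (p : ℂ) < 1)
    (harch : ∀ z : ℂ, ∃ M : ℕ, V.valuation z * V.valuation (p : ℂ) ^ M ≤ 1)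
    (f : Polynomial ℂ) (hf : f ≠ 0) : ∃ M : ℕ, ∀ X : ℂ,
      1 < V.valuation X * V.valuation (p : ℂ) ^ M →
      V.valuation (f.eval X) = V.valuation f.leadingCoeff * V.valuation X ^ f.natDegree := by
  classical
  set v := V.valuation with hv
  have hlc : f.leadingCoeff ≠ 0 := Polynomial.leadingCoeff_ne_zero.2 hf
  choose M hM using fun i : ℕ => harch (f.coeff i / f.leadingCoeff)
  refine ⟨∑ i ∈ Finset.range f.natDegree, M i, fun X hX => ?_⟩
  have hple : ∀ k : ℕ, v (p : ℂ) ^ k ≤ 1 := fun k => pow_le_one₀ zero_le hp1.le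
  have hX1 : 1 < v X := hX.trans_le (mul_le_of_le_one_right' (hple _))
  have hX0 : 0 < v X := zero_lt_one.trans hX1
  have htop : v (f.leadingCoeff * X ^ f.natDegree) = v f.leadingCoeff * v X ^ f.natDegree := by
    rw [map_mul, map_pow]
  rw [Polynomial.eval_eq_sum_range, Finset.sum_range_succ, Polynomial.coeff_natDegree,
    Valuation.map_add_eq_of_lt_right, htop]
  rw [htop]
  have hv0 : v f.leadingCoeff ≠ 0 := (map_ne_zero v).2 hlc
  refine Valuation.map_sum_lt _ (mul_ne_zero hv0 (pow_ne_zero _ hX0.ne')) fun i hi => ?_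
  have hi' := Finset.mem_range.1 hi
  rw [map_mul, map_pow]
  have h1 : v (f.coeff i) * v (p : ℂ) ^ M i ≤ v f.leadingCoeff := by
    have h2 := hM i
    rw [map_div₀, div_mul_eq_mul_div] at h2
    exact (div_le_one₀ (zero_lt_iff.2 hv0)).1 h2
  have h3 : 1 < v X * v (p : ℂ) ^ M i := by
    refine hX.trans_le (mul_le_mul_right (pow_le_pow_right_of_le_one' hp1.le ?_) _)
    exact Finset.single_le_sum (f := M) (fun _ _ => Nat.zero_le _) hi
  have hpM : 0 < v (p : ℂ) ^ M i := zero_lt_iff.2 (pow_ne_zero _ hp0)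
  -- compare
  have h4 : v (f.coeff i) < v f.leadingCoeff * v X := by
    by_contra hcon
    push Not at hcon
    have h5 : v f.leadingCoeff * v X * v (p : ℂ) ^ M i ≤ v f.leadingCoeff :=
      (mul_le_mul_left hcon _).trans h1
    have h6 : v f.leadingCoeff * 1 < v f.leadingCoeff * (v X * v (p : ℂ) ^ M i) :=
      mul_lt_mul_of_pos_left h3 (zero_lt_iff.2 hv0)
    rw [mul_one, ← mul_assoc] at h6
    exact absurd h5 (not_le.2 h6)
  calc v (f.coeff i) * v X ^ i < v f.leadingCoeff * v X * v X ^ i :=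
        mul_lt_mul_of_pos_right h4 (pow_pos hX0 _)
    _ = v f.leadingCoeff * v X ^ (i + 1) := by rw [pow_succ', mul_assoc]
    _ ≤ v f.leadingCoeff * v X ^ f.natDegree :=
        mul_le_mul_right (pow_le_pow_right₀ hX1.le hi') _

/-- The square of the value of a quadratic integer is a power of the value of `p`. -/
theorem quad_val (hp : p.Prime) (hV : (p : ℂ) ∈ V.nonunits) {a : ℂ} (ha : a ≠ 0) {T N : ℤ}
    (h : a ^ 2 - T * a + N = 0) :
    V.valuation a ≤ 1 ∧ ∃ i : ℕ, V.valuation a ^ 2 = V.valuation (p : ℂ) ^ i := by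
  set v := V.valuation with hv
  have hp1 : v (p : ℂ) < 1 := by rwa [ValuationSubring.mem_nonunits_iff] at hV
  have hint : ∀ z : ℤ, z ≠ 0 → ∃ i : ℕ, v (z : ℂ) = v (p : ℂ) ^ i := fun z hz =>
    ⟨_, v_int_pow hp hp1 hz⟩
  have hle : ∀ z : ℤ, v (z : ℂ) ≤ 1 := fun z =>
    (ValuationSubring.valuation_le_one_iff V _).2 (intCast_mem V z)
  have hp0 : v (p : ℂ) ≠ 0 := (map_ne_zero v).2 (by exact_mod_cast hp.ne_zero)
  have ha0 : 0 < v a := zero_lt_iff.2 ((map_ne_zero v).2 ha)
  -- integrality
  have ha1 : v a ≤ 1 := by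
    by_contra hcon
    push Not at hcon
    have h1 : v (a ^ 2) = v (T * a - N) := by
      congr 1
      linear_combination h
    have h2 : v (T * a - N) ≤ v a := by
      refine (Valuation.map_sub _ _ _).trans (max_le ?_ ?_)
      · rw [map_mul]
        exact mul_le_of_le_one_left' (hle T)
      · exact (hle N).trans hcon.le
    rw [← h1, map_pow, sq] at h2
    have h3 : v a * 1 < v a * v a := mul_lt_mul_of_pos_left hcon ha0
    rw [mul_one] at h3
    exact absurd h2 (not_le.2 h3)
  refine ⟨ha1, ?_⟩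
  set b : ℂ := T - a with hb
  have hab : a * b = N := by
    rw [hb]
    linear_combination -h
  have hsum : a + b = T := by
    rw [hb]
    ring
  by_cases hN : N = 0
  · rw [hN, Int.cast_zero] at hab
    have hb0 : b = 0 := (mul_eq_zero.1 hab).resolve_left ha
    rw [hb0, add_zero] at hsum
    have hT : T ≠ 0 := by
      rintro rfl
      exact ha (by rw [hsum, Int.cast_zero])
    obtain ⟨i, hi⟩ := hint T hT
    exact ⟨i * 2, by rw [hsum, hi, ← pow_mul]⟩
  · obtain ⟨j, hj⟩ := hint N hN
    have hvN : v a * v b = v (p : ℂ) ^ j := by rw [← map_mul, hab, hj]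
    have hb0 : v b ≠ 0 := by
      intro h0
      rw [h0, mul_zero] at hvN
      exact pow_ne_zero _ hp0 hvN.symm
    rcases lt_trichotomy (v a) (v b) with hlt | heq | hgt
    · have h1 : v (T : ℂ) = v b := by
        rw [← hsum]
        exact Valuation.map_add_eq_of_lt_right _ hlt
      have hT : T ≠ 0 := by
        rintro rfl
        rw [Int.cast_zero, map_zero] at h1
        exact hb0 h1.symm
      obtain ⟨i, hi⟩ := hint T hT
      rw [← h1, hi] at hvN
      -- `v a = v p ^ (j - i)`
      have hij : i ≤ j := by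
        by_contra hcon
        push Not at hcon
        have h2 : v (p : ℂ) ^ j * v (p : ℂ) ^ (i - j) = v (p : ℂ) ^ i := by
          rw [← pow_add]
          congr 1
          omega
        rw [← h2, mul_comm (v a), mul_assoc] at hvN
        have h3 := mul_left_cancel₀ (pow_ne_zero j hp0) (hvN.trans (mul_one _).symm)
        have h4 : v (p : ℂ) ^ (i - j) * v a < 1 :=
          (mul_le_of_le_one_right' ha1).trans_lt (pow_lt_one₀ zero_le hp1 (by omega))
        exact h4.ne h3
      refine ⟨(j - i) * 2, ?_⟩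
      have h2 : v (p : ℂ) ^ j = v (p : ℂ) ^ (j - i) * v (p : ℂ) ^ i := by
        rw [← pow_add]
        congr 1
        omega
      rw [h2] at hvN
      rw [mul_right_cancel₀ (pow_ne_zero _ hp0) hvN, ← pow_mul]
    · exact ⟨j, by rw [sq, ← hvN, heq]⟩
    · have h1 : v (T : ℂ) = v a := by
        rw [← hsum]
        exact Valuation.map_add_eq_of_lt_left _ hgt
      have hT : T ≠ 0 := by
        rintro rfl
        rw [Int.cast_zero, map_zero] at h1
        exact ha0.ne h1
      obtain ⟨i, hi⟩ := hint T hT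
      exact ⟨i * 2, by rw [← h1, hi, ← pow_mul]⟩

end poly

end Pool.Agent.TH971.RF
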