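import Pool.Agent.TH971.RF.C1

/-!
Relations with endomorphisms as coefficients at one place (helper file for Pink's conjecture for
random multisections of powers of elliptic schemes).
-/

open MvPolynomial

namespace Pool.Agent.TH971.RF

open WeierstrassCurve WeierstrassCurve.Affine Pool.Agent.W466.EP

/-- A ring of endomorphisms of the curve `y² = x³ + A x + B` over `ℂ`. -/
structure EndRing (A B : ℂ) where
  O : Subring ℂ
  act : O →+* AddMonoid.End (crv A B).Point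
  quad : ∀ a : O, ∃ T N : ℤ, (a : ℂ) ^ 2 - T * a + N = 0
  rat : ∀ a : O, (∀ n : ℤ, (a : ℂ) ≠ n) → ∃ u w : Polynomial ℂ, w ≠ 0 ∧
    u.natDegree = w.natDegree + 1 ∧ w.leadingCoeff = (a : ℂ) ^ 2 * u.leadingCoeff ∧
    ∀ P : (crv A B).Point, P ≠ 0 → w.eval (xx P) ≠ 0 →
      act a P ≠ 0 ∧ xx (act a P) * w.eval (xx P) = u.eval (xx P)

theorem near {A B : ℂ} {Γ₀ : Type*} [LinearOrderedCommGroupWithZero Γ₀] {v : Valuation ℂ Γ₀}
    (hA : v A ≤ 1) (hB : v B ≤ 1) {P : (crv A B).Point} (hP : Fm v P) (h0 : P ≠ 0) :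
    1 < v (xx P) ∧ v (tt P) ^ 2 * v (xx P) = 1 := by
  rcases P with _ | ⟨x, y, hn⟩
  · exact absurd rfl h0
  · exact ⟨hP, (loc hA hB (eqn hn) hP).2.2.2.1⟩

theorem near_of {A B : ℂ} {Γ₀ : Type*} [LinearOrderedCommGroupWithZero Γ₀] {v : Valuation ℂ Γ₀}
    {P : (crv A B).Point} (h : 1 < v (xx P)) : Fm v P ∧ P ≠ 0 := by
  rcases P with _ | ⟨x, y, hn⟩
  · exfalso
    change 1 < v (0 : ℂ) at h
    rw [map_zero] at h
    exact absurd h (not_lt.2 zero_le_one)
  · exact ⟨h, Point.some_ne_zero hn⟩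

section place

variable {V : ValuationSubring ℂ} {p : ℕ} {A B : ℂ}

/-- The action of an endomorphism near the origin, in terms of a model scaled by `z`. -/
theorem act_val (hp : p.Prime) (hV : (p : ℂ) ∈ V.nonunits)
    (harch : ∀ z : ℂ, ∃ M : ℕ, V.valuation z * V.valuation (p : ℂ) ^ M ≤ 1) {z : ℂ} (hz : z ≠ 0)
    (hA : V.valuation (z ^ 4 * A) ≤ 1) (hB : V.valuation (z ^ 6 * B) ≤ 1) (S : EndRing A B)
    (a : S.O) (ha : a ≠ 0) :
    ∃ M : ℕ, ∀ Q : (crv A B).Point, Fm V.valuation (scl hz Q) → scl hz Q ≠ 0 →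
      V.valuation (tt (scl hz Q)) ^ 4 < V.valuation (p : ℂ) →
      1 < V.valuation (xx (scl hz Q)) * V.valuation (p : ℂ) ^ M →
      Fm V.valuation (scl hz (S.act a Q)) ∧
        V.valuation (tt (scl hz (S.act a Q))) ^ 2 =
          V.valuation (a : ℂ) ^ 2 * V.valuation (tt (scl hz Q)) ^ 2 := by
  set v := V.valuation with hv
  have hp1 : v (p : ℂ) < 1 := by rwa [ValuationSubring.mem_nonunits_iff] at hV
  have hp0 : v (p : ℂ) ≠ 0 := (map_ne_zero v).2 (by exact_mod_cast hp.ne_zero)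
  have haC : (a : ℂ) ≠ 0 := fun h => ha (Subtype.ext h)
  by_cases hint : ∃ n : ℤ, (a : ℂ) = n
  · obtain ⟨n, hn⟩ := hint
    have hn0 : n ≠ 0 := by
      rintro rfl
      exact haC (by rw [hn, Int.cast_zero])
    refine ⟨0, fun Q hQ hQ0 h4 _ => ?_⟩
    have h1 : S.act a Q = n • Q := by
      have h2 : a = (n : S.O) := Subtype.ext (by rw [hn]; simp)
      rw [h2, map_intCast]
      simp
    have h2 := zsmul_val hA hB two_ne_zero hp (zero_lt_iff.2 hp0) hp1 hQ hQ0 h4 hn0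
    have h3 : scl hz (n • Q) = n • scl hz Q := map_zsmul (sclHom hz) n Q
    rw [h1, h3]
    refine ⟨h2.1, ?_⟩
    rw [h2.2, mul_pow, hn]
  · push Not at hint
    obtain ⟨u, w, hw0, hdeg, hlc, hact⟩ := S.rat a hint
    have hu0 : u ≠ 0 := by
      rintro rfl
      rw [Polynomial.natDegree_zero] at hdeg
      omega
    obtain ⟨T, N, hTN⟩ := S.quad a
    obtain ⟨ha1, -⟩ := quad_val hp hV haC hTN
    obtain ⟨M1, hM1⟩ := poly_large hp0 hp1 harch u hu0
    obtain ⟨M2, hM2⟩ := poly_large hp0 hp1 harch w hw0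
    obtain ⟨M3, hM3⟩ := harch (z ^ 2)
    refine ⟨M1 + M2 + M3, fun Q hQ hQ0 _ hM => ?_⟩
    have hQ0' : Q ≠ 0 := fun h => hQ0 ((scl_eq_zero hz Q).2 h)
    obtain ⟨hx1, hx2⟩ := near hA hB hQ hQ0
    rw [xx_scl] at hx1 hx2 hM
    set X := xx Q with hX
    have hz2 : v (z ^ 2) ≠ 0 := (map_ne_zero v).2 (pow_ne_zero 2 hz)
    have hX0 : v X ≠ 0 := by
      intro h0
      rw [map_mul, h0, mul_zero] at hx1
      exact absurd hx1 (not_lt.2 zero_le_one)
    have hM' : 1 < v X * v (p : ℂ) ^ (M1 + M2) := by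
      refine hM.trans_le ?_
      rw [map_mul, pow_add]
      calc v (z ^ 2) * v X * (v (p : ℂ) ^ (M1 + M2) * v (p : ℂ) ^ M3)
          = (v (z ^ 2) * v (p : ℂ) ^ M3) * (v X * v (p : ℂ) ^ (M1 + M2)) := by
            ac_rfl
        _ ≤ v X * v (p : ℂ) ^ (M1 + M2) := mul_le_of_le_one_left' hM3
    have h1 := hM1 X (hM'.trans_le (mul_le_mul_right
      (pow_le_pow_right_of_le_one' hp1.le (Nat.le_add_right _ _)) _))
    have h2 := hM2 X (hM'.trans_le (mul_le_mul_right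
      (pow_le_pow_right_of_le_one' hp1.le (Nat.le_add_left _ _)) _))
    have hvl : v w.leadingCoeff ≠ 0 := (map_ne_zero v).2 (Polynomial.leadingCoeff_ne_zero.2 hw0)
    have hvu : v u.leadingCoeff ≠ 0 := (map_ne_zero v).2 (Polynomial.leadingCoeff_ne_zero.2 hu0)
    have hwe : w.eval X ≠ 0 := by
      intro h0
      rw [h0, map_zero] at h2
      exact mul_ne_zero hvl (pow_ne_zero _ hX0) h2.symm
    obtain ⟨h3, h4⟩ := hact Q hQ0' hwe
    have h5 := congrArg v h4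
    rw [map_mul] at h5
    change v (xx (S.act a Q)) * v (w.eval X) = v (u.eval X) at h5
    rw [h1, h2, hlc, map_mul, map_pow, hdeg, pow_succ] at h5
    have h6 : v (xx (S.act a Q)) * v (a : ℂ) ^ 2 = v X := by
      have h7 : v u.leadingCoeff * v X ^ w.natDegree ≠ 0 :=
        mul_ne_zero hvu (pow_ne_zero _ hX0)
      refine mul_right_cancel₀ h7 ?_
      calc v (xx (S.act a Q)) * v (a : ℂ) ^ 2 * (v u.leadingCoeff * v X ^ w.natDegree)
          = v (xx (S.act a Q)) * (v (a : ℂ) ^ 2 * v u.leadingCoeff * v X ^ w.natDegree) := by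
            simp only [mul_assoc]
        _ = v u.leadingCoeff * (v X ^ w.natDegree * v X) := h5
        _ = v X * (v u.leadingCoeff * v X ^ w.natDegree) := by
            rw [mul_comm (v X), mul_assoc]
    have h6' : v (xx (scl hz (S.act a Q))) * v (a : ℂ) ^ 2 = v (z ^ 2 * X) := by
      rw [xx_scl, map_mul, map_mul, mul_assoc, h6]
    have h7 : 1 < v (xx (scl hz (S.act a Q))) := by
      by_contra hcon
      push Not at hcon
      have h8 : v (xx (scl hz (S.act a Q))) * v (a : ℂ) ^ 2 ≤ 1 :=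
        mul_le_one' hcon (pow_le_one₀ zero_le ha1)
      rw [h6'] at h8
      exact absurd h8 (not_le.2 hx1)
    obtain ⟨h8, h9⟩ := near_of h7
    refine ⟨h8, ?_⟩
    obtain ⟨-, h10⟩ := near hA hB h8 h9
    have h11 : v (xx (scl hz (S.act a Q))) ≠ 0 := (zero_lt_one.trans h7).ne'
    refine mul_right_cancel₀ h11 ?_
    rw [h10]
    calc (1 : V.ValueGroup) = v (tt (scl hz Q)) ^ 2 * v (z ^ 2 * X) := hx2.symm
      _ = v (tt (scl hz Q)) ^ 2 * (v (xx (scl hz (S.act a Q))) * v (a : ℂ) ^ 2) := by rw [h6']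
      _ = v (a : ℂ) ^ 2 * v (tt (scl hz Q)) ^ 2 * v (xx (scl hz (S.act a Q))) := by
        rw [mul_comm (v (xx (scl hz (S.act a Q)))), ← mul_assoc, mul_comm (v (tt (scl hz Q)) ^ 2)]

/-- There is no relation with endomorphisms as coefficients between points near the origin with
different levels. -/
theorem rel_placeE (hp : p.Prime) (hV : (p : ℂ) ∈ V.nonunits)
    (harch : ∀ z : ℂ, ∃ M : ℕ, V.valuation z * V.valuation (p : ℂ) ^ M ≤ 1)
    {z : ℂ} (hz : z ≠ 0)
    (hA : V.valuation (z ^ 4 * A) ≤ 1) (hB : V.valuation (z ^ 6 * B) ≤ 1) (S : EndRing A B)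
    {ρ : V.ValueGroup} {R : ℕ} (hR : V.valuation (p : ℂ) = ρ ^ R) (hR0 : 0 < R) (hρ0 : 0 < ρ)
    {q : ℕ} (P : Fin q → (crv A B).Point) (J : Finset (Fin q)) (f : Fin q → ℕ)
    (hf : ∀ i ∈ J, V.valuation (xx (scl hz (P i))) * ρ ^ f i = 1) (hfR : ∀ i ∈ J, R < 2 * f i)
    (hdis : ∀ i ∈ J, ∀ j ∈ J, i ≠ j → ¬ f i ≡ f j [MOD R])
    (a : Fin q → S.O) (ha0 : a ≠ 0) (haJ : ∀ i, i ∉ J → a i = 0) {t : ℕ} (ht : 0 < t)
    (hrel : t • ∑ i, S.act (a i) (P i) = 0) : False := by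
  classical
  set v := V.valuation with hv
  have hp1 : v (p : ℂ) < 1 := by rwa [ValuationSubring.mem_nonunits_iff] at hV
  have hp0 : v (p : ℂ) ≠ 0 := (map_ne_zero v).2 (by exact_mod_cast hp.ne_zero)
  have hpos : 0 < v (p : ℂ) := zero_lt_iff.2 hp0
  have hρ1 : ρ < 1 := by
    by_contra hcon
    push Not at hcon
    have h1 := one_le_pow₀ hcon (n := R)
    rw [← hR] at h1
    exact absurd hp1 (not_lt.2 h1)
  have hpow : ∀ {m n : ℕ}, ρ ^ m = ρ ^ n → m = n := fun {m n} h =>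
    pow_right_injective₀ hρ0 hρ1.ne h
  -- the points of `J`
  have hpt : ∀ i ∈ J, scl hz (P i) ≠ 0 ∧ Fm v (scl hz (P i)) ∧
      v (tt (scl hz (P i))) ^ 2 = ρ ^ f i := by
    intro i hi
    have h1 := hf i hi
    have h3 : 0 < f i := by
      have := hfR i hi
      omega
    have h4 : ρ ^ f i < 1 := pow_lt_one₀ zero_le hρ1 h3.ne'
    have hx : 1 < v (xx (scl hz (P i))) := by
      by_contra hcon
      push Not at hcon
      have h5 : v (xx (scl hz (P i))) * ρ ^ f i < 1 := (mul_le_of_le_one_left' hcon).trans_lt h4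
      rw [h1] at h5
      exact lt_irrefl _ h5
    obtain ⟨h5, h6⟩ := near_of hx
    refine ⟨h6, h5, ?_⟩
    have h7 := (near hA hB h5 h6).2
    refine mul_right_cancel₀ (zero_lt_one.trans hx).ne' ?_
    rw [h7, mul_comm]
    exact h1.symm
  have h4 : ∀ i ∈ J, v (tt (scl hz (P i))) ^ 4 < v (p : ℂ) := by
    intro i hi
    have h5 : v (tt (scl hz (P i))) ^ 4 = (v (tt (scl hz (P i))) ^ 2) ^ 2 := by rw [← pow_mul]
    rw [h5, (hpt i hi).2.2, ← pow_mul, hR]
    refine pow_lt_pow_right_of_lt_one₀ hρ0 hρ1 ?_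
    have := hfR i hi
    omega
  -- the terms of the relation
  let J' : Finset (Fin q) := Finset.univ.filter fun i => a i ≠ 0
  have hJ' : ∀ i ∈ J', i ∈ J ∧ a i ≠ 0 := by
    intro i hi
    have h5 := (Finset.mem_filter.1 hi).2
    exact ⟨by_contra fun h => h5 (haJ i h), h5⟩
  have hJne : J'.Nonempty := by
    by_contra hcon
    rw [Finset.not_nonempty_iff_eq_empty] at hcon
    apply ha0
    funext i
    by_contra hi
    have : i ∈ J' := Finset.mem_filter.2 ⟨Finset.mem_univ i, hi⟩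
    rw [hcon] at this
    exact absurd this (Finset.notMem_empty i)
  have hM : ∀ i, ∃ M : ℕ, a i ≠ 0 → ∀ Q : (crv A B).Point, Fm V.valuation (scl hz Q) →
      scl hz Q ≠ 0 → V.valuation (tt (scl hz Q)) ^ 4 < V.valuation (p : ℂ) →
      1 < V.valuation (xx (scl hz Q)) * V.valuation (p : ℂ) ^ M →
      Fm V.valuation (scl hz (S.act (a i) Q)) ∧
        V.valuation (tt (scl hz (S.act (a i) Q))) ^ 2 =
          V.valuation (a i : ℂ) ^ 2 * V.valuation (tt (scl hz Q)) ^ 2 := by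
    intro i
    by_cases h : a i = 0
    · exact ⟨0, fun h' => absurd h h'⟩
    · obtain ⟨M, hM⟩ := act_val hp hV harch hz hA hB S (a i) h
      exact ⟨M, fun _ => hM⟩
  choose M hM using hM
  set k : ℕ := ∑ i, M i + 1 with hk
  set c : ℤ := (p : ℤ) ^ k * t with hc
  have hc0 : c ≠ 0 := mul_ne_zero (pow_ne_zero _ (by exact_mod_cast hp.ne_zero))
    (by exact_mod_cast ht.ne')
  have hvc0 : v (c : ℂ) ≠ 0 := (map_ne_zero v).2 (by exact_mod_cast hc0)
  have hvck : v (c : ℂ) = v (p : ℂ) ^ k * v (t : ℂ) := by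
    rw [hc]
    push_cast
    rw [map_mul, map_pow]
  have hvt : v (t : ℂ) ≤ 1 := (ValuationSubring.valuation_le_one_iff V _).2 (natCast_mem V t)
  have hvc1 : v (c : ℂ) ≤ v (p : ℂ) ^ k := by
    rw [hvck]
    exact mul_le_of_le_one_right' hvt
  have hQ : ∀ i ∈ J', Fm v (scl hz (c • P i)) ∧ scl hz (c • P i) ≠ 0 ∧
      v (tt (scl hz (c • P i))) = v (c : ℂ) * v (tt (scl hz (P i))) ∧
      v (tt (scl hz (c • P i))) ^ 4 < v (p : ℂ) ∧
      1 < v (xx (scl hz (c • P i))) * v (p : ℂ) ^ M i := by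
    intro i hi
    obtain ⟨hiJ, hai⟩ := hJ' i hi
    obtain ⟨h5, h6, h7⟩ := hpt i hiJ
    have hcs : scl hz (c • P i) = c • scl hz (P i) := map_zsmul (sclHom hz) c (P i)
    rw [hcs]
    obtain ⟨h8, h9⟩ := zsmul_val hA hB two_ne_zero hp hpos hp1 h6 h5 (h4 i hiJ) hc0
    have h10 : v (tt (scl hz (P i))) ≠ 0 := by
      intro h0
      rw [h0, zero_pow two_ne_zero] at h7
      exact pow_ne_zero _ hρ0.ne' h7.symm
    have h11 : c • scl hz (P i) ≠ 0 := by
      intro h0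
      rw [h0] at h9
      change v (0 : ℂ) = _ at h9
      rw [map_zero] at h9
      exact mul_ne_zero hvc0 h10 h9.symm
    have hvc1' : v (c : ℂ) ≤ 1 := hvc1.trans (pow_le_one₀ zero_le hp1.le)
    refine ⟨h8, h11, h9, ?_, ?_⟩
    · rw [h9, mul_pow]
      exact (mul_le_of_le_one_left' (pow_le_one₀ zero_le hvc1')).trans_lt (h4 i hiJ)
    · obtain ⟨-, h12⟩ := near hA hB h8 h11
      by_contra hcon
      push Not at hcon
      have h13 : v (tt (c • scl hz (P i))) ^ 2 ≤ v (p : ℂ) ^ (2 * k) := by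
        rw [h9, mul_pow, h7]
        calc v (c : ℂ) ^ 2 * ρ ^ f i ≤ v (c : ℂ) ^ 2 :=
              mul_le_of_le_one_right' (pow_le_one₀ zero_le hρ1.le)
          _ ≤ (v (p : ℂ) ^ k) ^ 2 := pow_le_pow_left' hvc1 2
          _ = v (p : ℂ) ^ (2 * k) := by rw [← pow_mul, mul_comm k]
      have hMk : M i ≤ ∑ i, M i := Finset.single_le_sum (f := M) (fun _ _ => Nat.zero_le _)
        (Finset.mem_univ i)
      have h14 : v (p : ℂ) ^ (2 * k) = v (p : ℂ) ^ M i * v (p : ℂ) ^ (2 * k - M i) := by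
        rw [← pow_add]
        congr 1
        omega
      have h15 : v (p : ℂ) ^ (2 * k - M i) < 1 := pow_lt_one₀ zero_le hp1 (by omega)
      have h16 : v (tt (c • scl hz (P i))) ^ 2 * v (xx (c • scl hz (P i))) < 1 := by
        calc v (tt (c • scl hz (P i))) ^ 2 * v (xx (c • scl hz (P i)))
            ≤ v (p : ℂ) ^ M i * v (p : ℂ) ^ (2 * k - M i) * v (xx (c • scl hz (P i))) := by
              rw [← h14]
              exact mul_le_mul_left h13 _
          _ = (v (xx (c • scl hz (P i))) * v (p : ℂ) ^ M i) * v (p : ℂ) ^ (2 * k - M i) := by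
              rw [mul_right_comm, mul_comm (v (p : ℂ) ^ M i)]
          _ ≤ v (p : ℂ) ^ (2 * k - M i) := mul_le_of_le_one_left' hcon
          _ < 1 := h15
      exact h16.ne h12
  have hval : ∀ i ∈ J', Fm v (scl hz (S.act (a i) (c • P i))) ∧ ∃ j : ℕ,
      v (tt (scl hz (S.act (a i) (c • P i)))) ^ 2 = ρ ^ (R * j + f i) * v (c : ℂ) ^ 2 := by
    intro i hi
    obtain ⟨hiJ, hai⟩ := hJ' i hi
    obtain ⟨h5, h6, h7, h8, h9⟩ := hQ i hi
    obtain ⟨h10, h11⟩ := hM i hai _ h5 h6 h8 h9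
    refine ⟨h10, ?_⟩
    obtain ⟨T, N, hTN⟩ := S.quad (a i)
    obtain ⟨-, j, hj⟩ := quad_val hp hV (fun h => hai (Subtype.ext h)) hTN
    refine ⟨j, ?_⟩
    rw [h11, h7, mul_pow, (hpt i hiJ).2.2]
    rw [hv, hj, ← hv, hR, ← pow_mul, pow_add, mul_comm (v (c : ℂ) ^ 2), mul_assoc]
  have hne : ∀ i ∈ J', ∀ j ∈ J', i ≠ j →
      v (tt (scl hz (S.act (a i) (c • P i)))) ≠ v (tt (scl hz (S.act (a j) (c • P j)))) := by
    intro i hi j hj hij h
    obtain ⟨-, r1, h5⟩ := hval i hi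
    obtain ⟨-, r2, h6⟩ := hval j hj
    rw [h, h6] at h5
    have h7 := hpow (mul_right_cancel₀ (pow_ne_zero 2 hvc0) h5)
    apply hdis j (hJ' j hj).1 i (hJ' i hi).1 hij.symm
    have h8 : ∀ x y : ℕ, R * x + y ≡ y [MOD R] := fun x y => by
      have := (Nat.modEq_zero_iff_dvd.2 (Dvd.intro x rfl : R ∣ R * x)).add_right y
      rwa [zero_add] at this
    have h9 : (R * r2 + f j) ≡ (R * r1 + f i) [MOD R] := by rw [h7]
    exact (h8 _ _).symm.trans (h9.trans (h8 _ _))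
  obtain ⟨hFm, i, hi, hvi, -⟩ := sum_val hA hB two_ne_zero J'
    (fun i => scl hz (S.act (a i) (c • P i)))
    (fun i hi => (hval i hi).1) hne hJne
  have hsum : ∑ i ∈ J', S.act (a i) (c • P i) = 0 := by
    have h5 : ∑ i, S.act (a i) (c • P i) = ∑ i ∈ J', S.act (a i) (c • P i) := by
      rw [Finset.sum_filter]
      refine Finset.sum_congr rfl fun i _ => ?_
      split_ifs with h
      · rfl
      · push Not at h
        rw [h, map_zero]
        rfl
    rw [← h5]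
    have h6 : ∀ i, S.act (a i) (c • P i) = c • S.act (a i) (P i) := fun i => map_zsmul _ _ _
    rw [Finset.sum_congr rfl fun i _ => h6 i, ← Finset.smul_sum, hc, mul_smul, natCast_zsmul,
      hrel]
    exact zsmul_zero _
  have hsum' : ∑ i ∈ J', scl hz (S.act (a i) (c • P i)) = 0 := by
    have h5 := congrArg (sclHom hz) hsum
    rw [map_sum, map_zero] at h5
    exact h5
  obtain ⟨-, j, hj⟩ := hval i hi
  have h5 : v (tt (∑ i ∈ J', scl hz (S.act (a i) (c • P i)))) ^ 2 =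
      ρ ^ (R * j + f i) * v (c : ℂ) ^ 2 := by
    rw [hvi, hj]
  rw [hsum'] at h5
  change v (0 : ℂ) ^ 2 = _ at h5
  rw [map_zero, zero_pow two_ne_zero] at h5
  exact mul_ne_zero (pow_ne_zero _ hρ0.ne') (pow_ne_zero 2 hvc0) h5.symm

end place

end Pool.Agent.TH971.RF
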