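import Pool.Agent.TH971.RF.A6
import Pool.Agent.TH971.RF.C2

/-!
The criterion for Pink's conjecture for random multisections of a power of an elliptic scheme.
-/

open Function MvPolynomial H294ZP

namespace Pool.Agent.TH971.RF

open Pool.Agent.W466.ZP Pool.Agent.W282.RW Pool.Agent.W466.EP

variable {σ : Type} [Fintype σ] [DecidableEq σ]

/-- The congruences for the equation of one multisection. -/
structure Cong1 (K p f : ℕ) {d e R : ℕ} (s : σ → ℤ)
    (F : ∀ h : Fin (R + 1), Sym σ (d + 2 * e * h) → ℤ) : Prop where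
  first : ∀ u, (p : ℤ) ^ K ∣ F 0 u - (p : ℤ) ^ f * pw _ s u
  last : ∀ u, (p : ℤ) ^ K ∣ F (Fin.last _) u - (p : ℤ) ^ 0 * pw _ s u
  mid : ∀ h, h ≠ 0 → h ≠ Fin.last _ → ∀ u, (p : ℤ) ^ K ∣ F h u

/-- The value of the coordinate of a multisection whose linear form is a unit. -/
theorem msec_val {K p f d e R : ℕ} (hR0 : 0 < R) (hK : f < K) (hf0 : 0 < f) (hp : p.Prime)
    {s : σ → ℤ} {F : ∀ h : Fin (R + 1), Sym σ (d + 2 * e * h) → ℤ} (hC : Cong1 K p f s F)
    (V : ValuationSubring ℂ) (hV : (p : ℂ) ∈ V.nonunits) {y : σ → ℂ} {c : ℂ} (hc : c ≠ 0)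
    (hy : ∀ j, (c • y) j ∈ V) (hu : V.valuation (∑ j, (s j : ℂ) * (c • y) j) = 1)
    {ρ : V.ValueGroup} (hρR : V.valuation (p : ℂ) = ρ ^ R) {A B : ℂ} (P : (crv A B).Point)
    (hP : OnM F y P) :
    V.valuation (xx (scl (u := c ^ e) (pow_ne_zero e hc) P)) * ρ ^ f = 1 := by
  classical
  set v := V.valuation with hv
  have hvp : v (p : ℂ) < 1 := by rwa [ValuationSubring.mem_nonunits_iff] at hV
  have hvp0 : v (p : ℂ) ≠ 0 := (Valuation.ne_zero_iff _).2 (by exact_mod_cast hp.ne_zero)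
  have hpos : 0 < v (p : ℂ) := zero_lt_iff.2 hvp0
  have hε : v (ev (F 0) (c • y)) = v (p : ℂ) ^ f := ev_target hK hp V hV hy hC.first hu
  have hlast : v (ev (F (Fin.last _)) (c • y)) = 1 := by
    have h1 := ev_target (f := 0) ((Nat.zero_le _).trans_lt hK) hp V hV hy hC.last hu
    rwa [pow_zero] at h1
  have hmid : ∀ h, h ≠ 0 → h ≠ Fin.last _ → v (ev (F h) (c • y)) ≤ v (p : ℂ) ^ f := by
    intro h h1 h2
    have h3 := ev_dvd V hy ((p : ℤ) ^ K) (hC.mid h h1 h2)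
    have hcast : v (((p : ℤ) ^ K : ℤ) : ℂ) = v (p : ℂ) ^ K := by
      push_cast
      rw [map_pow]
    rw [← hv, hcast] at h3
    exact h3.trans (pow_le_pow_right_of_le_one' hvp.le hK.le)
  have hF0 : ev (F 0) y ≠ 0 := by
    intro h0
    rw [ev_smul, h0, mul_zero, map_zero] at hε
    exact (pow_pos hpos _).ne hε
  rcases hP with ⟨-, h4⟩ | ⟨-, h4⟩
  · exact absurd h4 hF0
  · have h5 : ∑ h : Fin (R + 1), ev (F h) (c • y) *
        xx (scl (u := c ^ e) (pow_ne_zero e hc) P) ^ (R - (h : ℕ)) = 0 := by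
      rw [xx_scl]
      have h6 : ∀ h : Fin (R + 1), ev (F h) (c • y) *
          ((c ^ e) ^ 2 * xx P) ^ (R - (h : ℕ)) =
          c ^ (d + 2 * e * R) * (ev (F h) y * xx P ^ (R - (h : ℕ))) := by
        intro h
        rw [ev_smul, mul_pow, ← pow_mul, ← pow_mul]
        have h7 := expo d e (h : ℕ) R (by have := h.2; omega)
        rw [h7, pow_add]
        ring
      rw [Finset.sum_congr rfl fun h _ => h6 h, ← Finset.mul_sum, h4, mul_zero]
    have h6 := root_val (v := v) hR0 (pow_pos hpos f)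
      (pow_lt_one₀ zero_le hvp hf0.ne') (fun h => ev (F h) (c • y)) hε hlast hmid h5
    rw [hρR] at h6
    exact root_pow hR0 h6

/-- A relation over a domain which vanishes at few given places. -/
theorem exists_relO {O : Type} [CommRing O] [IsDomain O] {n : ℕ}
    (M : Submodule O (Fin n → O)) (F : Finset (Fin n))
    (h : F.card < Module.finrank O M) : ∃ a ∈ M, a ≠ 0 ∧ ∀ i ∈ F, a i = 0 := by
  classical
  let φ : M →ₗ[O] (F → O) := (LinearMap.funLeft O O (Subtype.val : F → Fin n)).comp M.subtype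
  by_contra hcon
  push Not at hcon
  have hinj : Function.Injective φ := by
    rw [← LinearMap.ker_eq_bot, LinearMap.ker_eq_bot']
    intro a ha
    by_contra ha0
    obtain ⟨i, hi, hai⟩ := hcon a a.2 (fun h0 => ha0 (Subtype.ext h0))
    exact hai (congrFun ha ⟨i, hi⟩)
  have h1 := LinearMap.finrank_le_finrank_of_injective hinj
  rw [Module.finrank_fintype_fun_eq_card, Fintype.card_coe] at h1
  omega

/-- the parameters of the linear forms -/
def parP {q m : ℕ} : Fin q ⊕ Fin (m + 1) → ℕ :=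
  Sum.elim (fun l => (l : ℕ)) (fun b => q + (b : ℕ))

theorem parP_inj {q m : ℕ} : Injective (parP (q := q) (m := m)) := by
  rintro (l | b) (l' | b') h <;> simp only [parP, Sum.elim_inl, Sum.elim_inr] at h
  · rw [Fin.ext h]
  · omega
  · omega
  · rw [Fin.ext (show (b : ℕ) = b' by omega)]

theorem parP_le {q m : ℕ} (x : Fin q ⊕ Fin (m + 1)) : parP x ≤ q + m := by
  rcases x with l | b <;> simp only [parP, Sum.elim_inl, Sum.elim_inr] <;> omega

/-- The criterion. -/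
theorem criterionP {q m K R e : ℕ} (hR0 : 0 < R) (hqR : q ≤ R) (hK : R + q + 1 < K)
    (d : Fin q → ℕ) (Y : Set (σ → ℂ)) (s : Fin (m + 1) → σ → ℤ) (D : ℕ) (hgood : Good Y s D)
    (A B : MvPolynomial σ ℂ) (hA : A.IsHomogeneous (4 * e)) (hB : B.IsHomogeneous (6 * e))
    (F : ∀ (l : Fin q) (h : Fin (R + 1)), Sym σ (d l + 2 * e * h) → ℤ)
    {p : ℕ} (hp : p.Prime) (hpD : ¬ p ∣ D) (hpM : q + m < p)
    (hint : ∀ V : ValuationSubring ℂ, (p : ℂ) ∈ V.nonunits → ∀ u, A.coeff u ∈ V ∧ B.coeff u ∈ V)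
    (hC : ∀ l : Fin q, Cong1 K p (R + (l : ℕ) + 1) (vdm s (l : ℕ)) (F l))
    (y : σ → ℂ) (hy : y ≠ 0) (hyY : y ∈ Y) (E : EndRing (eval y A) (eval y B))
    (P : Fin q → (crv (eval y A) (eval y B)).Point) (hP : ∀ l, OnM (F l) y (P l))
    (Λ : Submodule E.O (Fin q → E.O))
    (hΛ : ∀ a ∈ Λ, ∃ t : ℕ, 0 < t ∧ t • ∑ l, E.act (a l) (P l) = 0)
    (b0 : Fin (m + 1)) (S : Finset (Fin (m + 1)))
    (hS : AlgebraicIndependent ℚ
      (fun b : S => (∑ j, (vdm s (q + (b0 : ℕ)) j : ℂ) * y j)⁻¹ *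
        ∑ j, (vdm s (q + ((b : Fin (m + 1)) : ℕ)) j : ℂ) * y j))
    (hb0 : ∑ j, (vdm s (q + (b0 : ℕ)) j : ℂ) * y j ≠ 0) :
    S.card + Module.finrank E.O Λ ≤ m := by
  classical
  by_contra hcon
  push Not at hcon
  have hp0 : (p : ℂ) ≠ 0 := by exact_mod_cast hp.ne_zero
  have hS' := Pool.Agent.W466.EP.algInd_smul hS (fun _ => (p : ℚ)⁻¹)
    (fun _ => inv_ne_zero (by exact_mod_cast hp.ne_zero))
  obtain ⟨V, hVp, hVx, harch⟩ := exists_val_arch _ hS' hp
  set v := V.valuation with hv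
  have hvp : v (p : ℂ) < 1 := by rwa [ValuationSubring.mem_nonunits_iff] at hVp
  have hvp0 : v (p : ℂ) ≠ 0 := (Valuation.ne_zero_iff _).2 hp0
  obtain ⟨c0, hc0, hcy, -, hbu⟩ := hgood p hp hpD V hVp y hy hyY
  have hle : ∀ τ, v (∑ j, (vdm s τ j : ℂ) * (c0 • y) j) ≤ 1 := fun τ =>
    (ValuationSubring.valuation_le_one_iff V _).2
      (sum_mem fun j _ => mul_mem (intCast_mem V _) (hcy j))
  -- the forms of `S`
  have hS1 : ∀ b ∈ S, v (∑ j, (vdm s (q + (b : ℕ)) j : ℂ) * (c0 • y) j) < 1 := by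
    intro b hbS
    have h3 := (ValuationSubring.valuation_le_one_iff V _).2 (hVx ⟨b, hbS⟩)
    rw [← hv] at h3
    have h4 : (∑ j, (vdm s (q + (b : ℕ)) j : ℂ) * (c0 • y) j) = (p : ℂ) *
        (algebraMap ℚ ℂ ((p : ℚ)⁻¹) * ((∑ j, (vdm s (q + (b0 : ℕ)) j : ℂ) * y j)⁻¹ *
          ∑ j, (vdm s (q + (b : ℕ)) j : ℂ) * y j)) *
          (∑ j, (vdm s (q + (b0 : ℕ)) j : ℂ) * (c0 • y) j) := by
      rw [lf_smul, lf_smul, map_inv₀, map_natCast]
      field_simp
    rw [h4, map_mul, map_mul]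
    calc v (p : ℂ) * v (algebraMap ℚ ℂ ((p : ℚ)⁻¹) *
          ((∑ j, (vdm s (q + (b0 : ℕ)) j : ℂ) * y j)⁻¹ *
          ∑ j, (vdm s (q + (b : ℕ)) j : ℂ) * y j)) *
          v (∑ j, (vdm s (q + (b0 : ℕ)) j : ℂ) * (c0 • y) j)
        ≤ v (p : ℂ) * 1 * 1 := by
          exact mul_le_mul' (mul_le_mul' le_rfl h3) (hle _)
      _ < 1 := by rwa [mul_one, mul_one]
  -- integrality
  have hz : c0 ^ e ≠ 0 := pow_ne_zero e hc0
  have hform : ∀ {f : MvPolynomial σ ℂ}, (∀ u, f.coeff u ∈ V) → v (eval (c0 • y) f) ≤ 1 := by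
    intro f hf
    refine (ValuationSubring.valuation_le_one_iff V _).2 ?_
    rw [eval_eq]
    exact sum_mem fun u _ => mul_mem (hf u) (prod_mem fun j _ => pow_mem (hcy j) _)
  have hvA : v ((c0 ^ e) ^ 4 * eval y A) ≤ 1 := by
    have h1 : (c0 ^ e) ^ 4 * eval y A = eval (c0 • y) A := by
      rw [Pool.Agent.W466.ZC.eval_smul hA, ← pow_mul]
      congr 2
      ring
    rw [h1]
    exact hform fun u => (hint V hVp u).1
  have hvB : v ((c0 ^ e) ^ 6 * eval y B) ≤ 1 := by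
    have h1 : (c0 ^ e) ^ 6 * eval y B = eval (c0 • y) B := by
      rw [Pool.Agent.W466.ZC.eval_smul hB, ← pow_mul]
      congr 2
      ring
    rw [h1]
    exact hform fun u => (hint V hVp u).2
  obtain ⟨π, hπ⟩ := IsAlgClosed.exists_pow_nat_eq (p : ℂ) hR0
  have hρR : v (p : ℂ) = v π ^ R := by rw [← hπ, map_pow]
  have hρ0 : 0 < v π := by
    refine zero_lt_iff.2 fun h0 => ?_
    rw [h0, zero_pow hR0.ne'] at hρR
    exact hvp0 hρR
  -- the forms of the multisections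
  let U2 : Finset (Fin q) := Finset.univ.filter fun l =>
    v (∑ j, (vdm s (l : ℕ) j : ℂ) * (c0 • y) j) ≠ 1
  have hU2 : Module.finrank E.O Λ ≤ U2.card := by
    by_contra hlt
    push Not at hlt
    obtain ⟨a, haΛ, ha0, haU⟩ := exists_relO Λ U2 hlt
    obtain ⟨t, ht, hrel⟩ := hΛ a haΛ
    refine rel_placeE hp hVp harch hz hvA hvB E hρR hR0 hρ0 P U2ᶜ (fun l => R + (l : ℕ) + 1) ?_
      ?_ ?_ a ha0 ?_ ht hrel
    · intro l hl
      have hu1 : v (∑ j, (vdm s (l : ℕ) j : ℂ) * (c0 • y) j) = 1 := by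
        by_contra h4
        exact (Finset.mem_compl.1 hl) (Finset.mem_filter.2 ⟨Finset.mem_univ _, h4⟩)
      exact msec_val hR0 (by have := l.2; omega) (by omega) hp (hC l) V hVp hc0 hcy hu1 hρR (P l)
        (hP l)
    · intro l _
      omega
    · intro l _ l' _ hne hmod
      apply hne
      apply Fin.ext
      have h1 := l.2
      have h2 := l'.2
      rcases le_total (l : ℕ) (l' : ℕ) with hle | hle
      · have h7 := (Nat.modEq_iff_dvd' (by omega)).1 hmod
        by_contra hne'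
        have h8 := Nat.le_of_dvd (by omega) h7
        omega
      · have h7 := (Nat.modEq_iff_dvd' (by omega)).1 hmod.symm
        by_contra hne'
        have h8 := Nat.le_of_dvd (by omega) h7
        omega
    · intro l hl
      rw [Finset.mem_compl, not_not] at hl
      exact haU l hl
  have hcard := nonunit_card (m := m) (M := q + m) parP parP_inj parP_le hp hpM V hVp s
    (c0 • y) hcy hbu (U2.disjSum S) (by
      rintro (l | b) hx'
      · rw [Finset.inl_mem_disjSum] at hx'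
        exact (Finset.mem_filter.1 hx').2
      · rw [Finset.inr_mem_disjSum] at hx'
        exact (hS1 b hx').ne)
  rw [Finset.card_disjSum] at hcard
  omega

end Pool.Agent.TH971.RF
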