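import Pool.Agent.TH971.RF.C3

/-!
Pink's conjecture for a positive proportion of all multisections of a power of an elliptic scheme:
the main theorem.
-/

open Function MvPolynomial H294ZP

namespace Pool.Agent.TH971.RF

open Pool.Agent.W466.ZP Pool.Agent.W282.RW Pool.Agent.W466.EP

/-- The coefficients of the equations of `q` multisections. -/
abbrev FamP (N : ℕ) {q : ℕ} (e R : ℕ) (d : Fin q → ℕ) : Type :=
  ∀ (l : Fin q) (h : Fin (R + 1)), Sym (Fin (N + 1)) (d l + 2 * e * h) → ℤ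

/-- The index set of the coefficients. -/
abbrev IdxP (N : ℕ) {q : ℕ} (e R : ℕ) (d : Fin q → ℕ) : Type :=
  Σ l, Σ h : Fin (R + 1), Sym (Fin (N + 1)) (d l + 2 * e * h)

variable {N q e R : ℕ} {d : Fin q → ℕ}

/-- The coefficients as one vector. -/
def famPEquiv (N : ℕ) {q : ℕ} (e R : ℕ) (d : Fin q → ℕ) : (IdxP N e R d → ℤ) ≃ FamP N e R d where
  toFun F := fun l h u => F ⟨l, h, u⟩
  invFun f := fun u => f u.1 u.2.1 u.2.2
  left_inv _ := rfl
  right_inv _ := rfl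

/-- The box. -/
def boxP (N : ℕ) {q : ℕ} (e R : ℕ) (d : Fin q → ℕ) (hF : ∀ (_ : Fin q), Fin (R + 1) → ℕ) :
    Set (FamP N e R d) :=
  {f | ∀ l h u, |f l h u| ≤ hF l h}

theorem mem_boxP (hF : ∀ (_ : Fin q), Fin (R + 1) → ℕ) (F : IdxP N e R d → ℤ) :
    (∀ u, |F u| ≤ (hF u.1 u.2.1 : ℕ)) ↔ famPEquiv N e R d F ∈ boxP N e R d hF :=
  ⟨fun h0 l h u => h0 ⟨l, h, u⟩, fun h0 u => h0 u.1 u.2.1 u.2.2⟩

theorem boxP_finite (hF : ∀ (_ : Fin q), Fin (R + 1) → ℕ) : (boxP N e R d hF).Finite := by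
  have hfin0 : {F : IdxP N e R d → ℤ | ∀ u, |F u| ≤ (hF u.1 u.2.1 : ℕ)}.Finite :=
    (Set.Finite.pi' (fun u : IdxP N e R d => Set.finite_Icc (-(hF u.1 u.2.1 : ℤ))
      (hF u.1 u.2.1 : ℤ))).subset (fun F hF' u => abs_le.1 (hF' u))
  refine (hfin0.image (famPEquiv N e R d)).subset ?_
  intro f hf
  refine ⟨(famPEquiv N e R d).symm f, ?_, (famPEquiv N e R d).apply_symm_apply f⟩
  exact (mem_boxP hF _).2 (by rw [(famPEquiv N e R d).apply_symm_apply]; exact hf)

/-- The statement about one tuple of multisections. -/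
def NoP {κ : Type*} (G : κ → MvPolynomial (Fin (N + 1)) ℂ) (A B : MvPolynomial (Fin (N + 1)) ℂ)
    (m : ℕ) (f : FamP N e R d) : Prop :=
  ∀ y : Fin (N + 1) → ℂ, y ≠ 0 → (∀ k, eval y (G k) = 0) → ∀ E : EndRing (eval y A) (eval y B),
    ∀ P : Fin q → (crv (eval y A) (eval y B)).Point, (∀ l, OnM (f l) y (P l)) →
    ∀ Λ : Submodule E.O (Fin q → E.O),
    (∀ a ∈ Λ, ∃ t : ℕ, 0 < t ∧ t • ∑ l, E.act (a l) (P l) = 0) →
    (∀ (j0 : Fin (N + 1)) (T : Finset (Fin (N + 1))),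
      AlgebraicIndependent ℚ (fun j : T => y j / y j0) →
      T.card + Module.finrank E.O Λ ≤ m) ∧
    ∀ T : Finset (Fin (N + 1)), AlgebraicIndependent ℚ (fun j : T => y j) →
      T.card + Module.finrank E.O Λ ≤ m + 1

/-- targets -/
noncomputable def tP (p : ℕ) (s : Fin q → Fin (N + 1) → ℤ) (l : Fin q) (h : Fin (R + 1))
    (u : Sym (Fin (N + 1)) (d l + 2 * e * h)) : ℤ :=
  if h = 0 then (p : ℤ) ^ (R + (l : ℕ) + 1) * pw _ (s l) u
  else if h = Fin.last _ then (p : ℤ) ^ 0 * pw _ (s l) u else 0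

/-- The main theorem. -/
theorem mainP (hCNT : S_CNT2) {κ : Type*} (N q m e R : ℕ) (hR0 : 0 < R) (hqR : q ≤ R)
    (d : Fin q → ℕ)
    (G : κ → MvPolynomial (Fin (N + 1)) ℂ) (hhom : ∀ k, ∃ e, (G k).IsHomogeneous e)
    (halg : ∀ k s, IsAlgebraic ℚ ((G k).coeff s))
    (hdim1 : ∃ t : Fin (m + 1) → Fin (N + 1) → ℂ, ∀ y : Fin (N + 1) → ℂ,
      (∀ k, eval y (G k) = 0) → (∀ b, ∑ j, t b j * y j = 0) → y = 0)
    (A B : MvPolynomial (Fin (N + 1)) ℂ) (hA : A.IsHomogeneous (4 * e))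
    (hB : B.IsHomogeneous (6 * e)) (hAalg : ∀ u, IsAlgebraic ℚ (A.coeff u))
    (hBalg : ∀ u, IsAlgebraic ℚ (B.coeff u)) :
    ∃ δ : ℝ, 0 < δ ∧ ∃ H₀ : ℕ, ∀ hF : ∀ (_ : Fin q), Fin (R + 1) → ℕ, (∀ l h, H₀ ≤ hF l h) →
      δ * ((boxP N e R d hF).ncard : ℝ) ≤
        ((boxP N e R d hF ∩ {f | NoP G A B m f}).ncard : ℝ) := by
  classical
  obtain ⟨t, ht⟩ := hdim1
  obtain ⟨s, hs⟩ := int_forms G hhom t ht
  obtain ⟨D, hD, hgood⟩ := good_prime G halg hhom s hs
  let Y : Set (Fin (N + 1) → ℂ) := {y | ∀ k, eval y (G k) = 0}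
  have hgood' : Good Y s D := hgood
  have hgv := good_vdm hgood' q
  have hDM : 0 < D * (q + m).factorial := Nat.mul_pos hD (Nat.factorial_pos _)
  let tt : (A.support ⊕ B.support) → ℂ := Sum.elim (fun u => A.coeff u) (fun u => B.coeff u)
  obtain ⟨D2, hD2, hint⟩ := alg_mem tt (by
    rintro (u | u)
    · exact hAalg u
    · exact hBalg u)
  let K : ℕ := R + q + 2
  have hK : R + q + 1 < K := Nat.lt_succ_self _
  have hK0 : 0 < K := Nat.succ_pos _
  obtain ⟨p, hpge, hp⟩ := Nat.exists_infinite_primes (D + D2 + q + m + 1)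
  have hpD : ¬ p ∣ D := fun h => by
    have := Nat.le_of_dvd hD h
    omega
  have hpD2 : ¬ p ∣ D2 := fun h => by
    have := Nat.le_of_dvd hD2 h
    omega
  have hpM : q + m < p := by omega
  have hint' : ∀ V : ValuationSubring ℂ, (p : ℂ) ∈ V.nonunits →
      ∀ u, A.coeff u ∈ V ∧ B.coeff u ∈ V := by
    intro V hV u
    have h1 := hint p hp hpD2 V hV
    constructor
    · by_cases hu : u ∈ A.support
      · exact h1 (Sum.inl ⟨u, hu⟩)
      · rw [notMem_support_iff.1 hu]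
        exact zero_mem _
    · by_cases hu : u ∈ B.support
      · exact h1 (Sum.inr ⟨u, hu⟩)
      · rw [notMem_support_iff.1 hu]
        exact zero_mem _
  let s2 : Fin q → Fin (N + 1) → ℤ := fun l => vdm s (l : ℕ)
  let T : IdxP N e R d → ℤ := fun x => tP (e := e) p s2 x.1 x.2.1 x.2.2
  set Q : ℕ := p ^ K with hQdef
  have hQ : 0 < Q := pow_pos hp.pos _
  refine ⟨(1 / (2 * (Q : ℝ))) ^ Fintype.card (IdxP N e R d), by positivity, Q, ?_⟩
  intro hF hFb
  have h1 := hCNT (IdxP N e R d) Q hQ T (fun u => hF u.1 u.2.1) (fun u => hFb u.1 u.2.1)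
  have hbc : (boxP N e R d hF).ncard =
      {F : IdxP N e R d → ℤ | ∀ u, |F u| ≤ (hF u.1 u.2.1 : ℕ)}.ncard := by
    rw [← Set.ncard_image_of_injective _ (famPEquiv N e R d).injective]
    congr 1
    ext f
    constructor
    · intro hf
      refine ⟨(famPEquiv N e R d).symm f, ?_, (famPEquiv N e R d).apply_symm_apply f⟩
      exact (mem_boxP hF _).2 (by rw [(famPEquiv N e R d).apply_symm_apply]; exact hf)
    · rintro ⟨F, hF', rfl⟩
      exact (mem_boxP hF F).1 hF'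
  rw [hbc]
  refine h1.trans ?_
  have hfin := boxP_finite (N := N) (e := e) (R := R) (d := d) hF
  refine Nat.cast_le.2 (Set.ncard_le_ncard_of_injOn (famPEquiv N e R d) ?_
    (famPEquiv N e R d).injective.injOn (hfin.subset fun f hf => hf.1))
  rintro F ⟨hF1, hF2⟩
  refine ⟨(mem_boxP hF F).1 hF1, ?_⟩
  have hF4 : ∀ x, ((p : ℕ) : ℤ) ^ K ∣ F x - T x := by
    intro x
    have h5 := hF2 x
    rwa [hQdef, Nat.cast_pow] at h5
  set f := famPEquiv N e R d F with hf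
  have hC : ∀ l : Fin q, Cong1 K p (R + (l : ℕ) + 1) (vdm s (l : ℕ)) (f l) := by
    intro l
    refine ⟨?_, ?_, ?_⟩
    · intro u
      have h5 := hF4 ⟨l, 0, u⟩
      change _ ∣ _ - tP p s2 l 0 u at h5
      rwa [tP, if_pos rfl] at h5
    · intro u
      have h5 := hF4 ⟨l, Fin.last _, u⟩
      change _ ∣ _ - tP p s2 l (Fin.last _) u at h5
      have hne : (Fin.last R) ≠ 0 := by
        intro h6
        have h7 := congrArg Fin.val h6
        rw [Fin.val_last, Fin.val_zero] at h7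
        exact hR0.ne' h7
      rwa [tP, if_neg hne, if_pos rfl] at h5
    · intro h h6 h7 u
      have h5 := hF4 ⟨l, h, u⟩
      change _ ∣ _ - tP p s2 l h u at h5
      rw [tP, if_neg h6, if_neg h7, sub_zero] at h5
      exact h5
  intro y hy hyG E P hP Λ hΛ
  have hcrit := criterionP hR0 hqR hK d Y s D hgood' A B hA hB f hp hpD hpM hint' hC y hy hyG E P
    hP Λ hΛ
  -- a linear form which does not vanish
  obtain ⟨b0, hb0⟩ : ∃ b0 : Fin (m + 1), ∑ j, (vdm s (q + (b0 : ℕ)) j : ℂ) * y j ≠ 0 := by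
    obtain ⟨p, hpge, hp⟩ := Nat.exists_infinite_primes (D * (q + m).factorial + 1)
    obtain ⟨V, hV⟩ := H294ZP.exists_val (fun i : Empty => i.elim)
      (algebraicIndependent_empty_type) hp
    obtain ⟨c, -, -, -, b, hb⟩ := hgv p hp (fun h => by
      have := Nat.le_of_dvd hDM h
      omega) V hV.1 y hy hyG
    refine ⟨b, fun h0 => ?_⟩
    rw [lf_smul, h0, mul_zero, map_zero] at hb
    exact zero_ne_one hb
  set c0 : ℂ := ∑ j, (vdm s (q + (b0 : ℕ)) j : ℂ) * y j with hc0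
  have hz : c0⁻¹ • y ≠ 0 := smul_ne_zero (inv_ne_zero hb0) hy
  have hzY : c0⁻¹ • y ∈ Y := by
    intro k
    obtain ⟨w, hw⟩ := hhom k
    rw [Pool.Agent.W466.ZC.eval_smul hw, hyG k, mul_zero]
  have hrange : (fun b : Fin (m + 1) => ∑ i, (vdm s (q + (b : ℕ)) i : ℂ) * (c0⁻¹ • y) i) =
      fun b : Fin (m + 1) => c0⁻¹ * ∑ j, (vdm s (q + (b : ℕ)) j : ℂ) * y j := by
    funext b
    rw [lf_smul]
  refine ⟨?_, ?_⟩
  · intro j0 T hT
    have h3 := rk_ratio hDM hgv hz hzY j0 T (by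
      convert hT using 1
      funext j
      rw [Pi.smul_apply, Pi.smul_apply, smul_eq_mul, smul_eq_mul,
        mul_div_mul_left _ _ (inv_ne_zero hb0)])
    rw [hrange] at h3
    obtain ⟨S, hS1, hS2⟩ := exists_sub _ _ h3
    rw [← hS1]
    exact hcrit b0 S hS2 hb0
  · intro T hT
    rcases Nat.eq_zero_or_pos T.card with h0 | h0
    · have h3 := hcrit b0 ∅ (algebraicIndependent_empty_type) hb0
      rw [Finset.card_empty] at h3
      omega
    · have h3 := rk_affine hDM hgv hz hzY c0 T (by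
        convert hT using 1
        funext j
        rw [Pi.smul_apply, smul_eq_mul, mul_inv_cancel_left₀ hb0])
      rw [hrange] at h3
      have h4 : ((T.card - 1 : ℕ) : ℕ∞) ≤ (AlgebraicIndependent.matroid ℚ ℂ).eRk
          (Set.range fun b : Fin (m + 1) =>
            c0⁻¹ * ∑ j, (vdm s (q + (b : ℕ)) j : ℂ) * y j) := by
        have h5 : ((T.card : ℕ) : ℕ∞) = ((T.card - 1 : ℕ) : ℕ∞) + 1 := by
          have : T.card = T.card - 1 + 1 := by omega
          exact_mod_cast this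
        rw [h5] at h3
        exact (ENat.add_le_add_iff_right ENat.one_ne_top).1 h3
      obtain ⟨S, hS1, hS2⟩ := exists_sub _ _ h4
      have h5 := hcrit b0 S hS2 hb0
      omega

end Pool.Agent.TH971.RF
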