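import Pool.Agent.TH971.RF.B4
import Pool.Agent.TH971.RF.C3

/-!
The criterion for Zilber-Pink in mixed Shimura varieties: random families of elliptic curves with
random multisections and random functions, relations over rings of endomorphisms.
-/

open Function MvPolynomial H294ZP

namespace Pool.Agent.TH971.RF

open Pool.Agent.W466.ZP Pool.Agent.W282.RW Pool.Agent.W466.EP

variable {σ : Type} [Fintype σ] [DecidableEq σ]

theorem levM_modR {n q : ℕ} {g : Fin q → Fin n} {R : Fin n → ℕ} {c : Fin q → Fin q}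
    {l l' : Fin q} (hg : g l = g l') (hc : c l = c l') (hne : l ≠ l')
    (h : (Finset.univ.filter fun l'' => g l'' = g l ∧ c l'' = c l).card ≤ R (g l)) :
    ¬ levM g R c l ≡ levM g R c l' [MOD R (g l)] := by
  have hup : ∀ l1 : Fin q,
      (Finset.univ.filter fun l'' => g l'' = g l1 ∧ c l'' = c l1).card ≤ R (g l1) →
      levM g R c l1 ≤ 2 * R (g l1) := by
    intro l1 h
    unfold levM
    have h1 : (Finset.univ.filter fun l' => l' < l1 ∧ g l' = g l1 ∧ c l' = c l1).card <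
        (Finset.univ.filter fun l' => g l' = g l1 ∧ c l' = c l1).card := by
      refine Finset.card_lt_card ?_
      rw [Finset.ssubset_iff_of_subset]
      · exact ⟨l1, Finset.mem_filter.2 ⟨Finset.mem_univ _, rfl, rfl⟩, fun h2 =>
          lt_irrefl l1 (Finset.mem_filter.1 h2).2.1⟩
      · intro l' hl'
        exact Finset.mem_filter.2 ⟨Finset.mem_univ _, (Finset.mem_filter.1 hl').2.2⟩
    omega
  have h1 := levM_gt g R c l
  have h2 := levM_gt g R c l'
  have h3 := hup l h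
  have h4 := hup l' (by rw [← hg, ← hc]; exact h)
  rw [← hg] at h2 h4
  have h5 : levM g R c l ≠ levM g R c l' := by
    rcases lt_or_gt_of_ne hne with hlt | hlt
    · exact (levM_lt hg hc hlt).ne
    · exact (levM_lt hg.symm hc.symm hlt).ne'
  intro h6
  apply h5
  rcases le_total (levM g R c l) (levM g R c l') with hle | hle
  · have h7 := (Nat.modEq_iff_dvd' hle).1 h6
    by_contra hne'
    have h8 := Nat.le_of_dvd (by omega) h7
    omega
  · have h7 := (Nat.modEq_iff_dvd' hle).1 h6.symm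
    by_contra hne'
    have h8 := Nat.le_of_dvd (by omega) h7
    omega

/-- The congruences which imply the criterion. -/
def HC {n q k m : ℕ} (K D : ℕ) {e R : Fin n → ℕ} {g : Fin q → Fin n} {d : Fin q → ℕ}
    {dt : Fin k → ℕ} (s : Fin (m + 1) → σ → ℤ)
    (A : ∀ i, Sym σ (4 * e i) → ℤ) (B : ∀ i, Sym σ (6 * e i) → ℤ)
    (F : ∀ l (h : Fin (R (g l) + 1)), Sym σ (d l + 2 * e (g l) * h) → ℤ)
    (α β : ∀ w, Sym σ (dt w) → ℤ) : Prop :=
  ∀ (kk : ℕ) (_ : kk ≤ n) (lam : Fin n → Option (Fin kk)) (c : Fin q → Fin q)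
      (l0 : Fin ((k - 1) * 2 ^ k + 1)), ∃ p : ℕ, p.Prime ∧ 3 < p ∧ ¬ p ∣ D ∧ n + q + k + m < p ∧
        CongW n kk (n + q + k + m) e K p lam (fun t : Fin (n + q + k + m + 1) => vdm s t)
          (fun i => ⟨i, by omega⟩) A B ∧
        CongM K p (fun l : Fin q => vdm s (n + (l : ℕ))) (fun w : Fin k => vdm s (n + q + (w : ℕ)))
          (levM g R c) (fun w => ((l0 : ℕ) + 1) ^ (w : ℕ)) F α β

/-- The criterion. -/
theorem criterion7 {n q k m K : ℕ} {e : Fin n → ℕ} (he : ∀ i, 0 < e i)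
    (hK : ∀ i, 2 * e i * (n + 1) ≤ K) {R : Fin n → ℕ} (hR0 : ∀ i, 0 < R i) (g : Fin q → Fin n)
    (hqR : ∀ i, (Finset.univ.filter fun l => g l = i).card ≤ R i)
    (hKl : ∀ l, R (g l) + 1 + q < K) (hKf : ((k - 1) * 2 ^ k + 1) ^ k < K)
    (d : Fin q → ℕ) (dt : Fin k → ℕ)
    (Y : Set (σ → ℂ)) (s : Fin (m + 1) → σ → ℤ) (D : ℕ) (hgood : Good Y s D)
    (A : ∀ i, Sym σ (4 * e i) → ℤ) (B : ∀ i, Sym σ (6 * e i) → ℤ)
    (F : ∀ l (h : Fin (R (g l) + 1)), Sym σ (d l + 2 * e (g l) * h) → ℤ)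
    (α β : ∀ w, Sym σ (dt w) → ℤ) (hC : HC K D s A B F α β)
    (r : ℕ) (Z : SpecialDatum n r) (x : Fin n → ℂ) (hx : x ∈ Z.locus) (y : σ → ℂ) (hy : y ≠ 0)
    (hyY : y ∈ Y) (hxy : ∀ i, dsc (A i) (B i) y * x i = 6912 * ev (A i) y ^ 3)
    (P : ∀ i, Fin q → (crv (ev (A i) y) (ev (B i) y)).Point)
    (hP : ∀ l, OnM (F l) y (P (g l) l))
    (E : ∀ i, EndRing (ev (A i) y) (ev (B i) y))
    (Λ : ∀ i, Submodule (E i).O (Fin q → (E i).O))
    (hΛg : ∀ i, ∀ a ∈ Λ i, ∀ l, g l ≠ i → a l = 0)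
    (hΛ : ∀ i, ∀ a ∈ Λ i, ∃ t : ℕ, 0 < t ∧ t • ∑ l, (E i).act (a l) (P i l) = 0)
    (u : Fin k → ℂ) (hu : ∀ w, ev (β w) y * u w = ev (α w) y)
    (M₂ : Submodule ℤ (Fin k → ℤ)) (hM₂ : ∀ a ∈ M₂, ∃ t : ℕ, 0 < t ∧ (∏ w, u w ^ a w) ^ t = 1)
    (b0 : Fin (m + 1)) (hb0 : ∑ j, (vdm s (n + q + k + (b0 : ℕ)) j : ℂ) * y j ≠ 0)
    (S : Finset (Fin (m + 1)))
    (hS : AlgebraicIndependent ℚ
      (fun b : S => (∑ j, (vdm s (n + q + k + (b0 : ℕ)) j : ℂ) * y j)⁻¹ *
        ∑ j, (vdm s (n + q + k + ((b : Fin (m + 1)) : ℕ)) j : ℂ) * y j)) :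
    S.card + ∑ i, Module.finrank (E i).O (Λ i) + Module.finrank ℤ M₂ + n ≤ r + m := by
  classical
  by_contra hcon
  push Not at hcon
  have hrn : r ≤ n := by
    choose f hf using Z.surj
    have hinj : Injective f := by
      intro a b hab
      have h1 := hf a
      rw [hab, hf b] at h1
      exact (Option.some_injective _ h1).symm
    have := Fintype.card_le_of_injective f hinj
    rwa [Fintype.card_fin, Fintype.card_fin] at this
  obtain ⟨c, hcc⟩ : ∃ c : Fin q → Fin q, ∀ l l', c l = c l' := by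
    rcases q with _ | q
    · exact ⟨id, fun l => l.elim0⟩
    · exact ⟨fun _ => 0, fun _ _ => rfl⟩
  obtain ⟨lam, hlam⟩ := pattern (k := r) Z x hx ∅ (algebraicIndependent_empty_type)
    (by rw [Finset.card_empty]; omega)
  -- fixed relations
  have hβ : ∀ J : Finset (Fin k), ∃ b : Fin k → ℤ, b ∈ M₂ ∧ (∀ j, j ∉ J → b j = 0) ∧
      ((∃ r ∈ M₂, r ≠ 0 ∧ ∀ j, j ∉ J → r j = 0) → b ≠ 0) := by
    intro J
    by_cases h : ∃ r ∈ M₂, r ≠ 0 ∧ ∀ j, j ∉ J → r j = 0
    · obtain ⟨r, h1, h2, h3⟩ := h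
      exact ⟨r, h1, h3, fun _ => h2⟩
    · exact ⟨0, M₂.zero_mem, fun _ _ => rfl, fun h1 => absurd h1 h⟩
  choose bt hbtM hbtJ hbt0 using hβ
  obtain ⟨I, hI1, hI2⟩ := card_relI lam
  -- one place
  have hone : ∀ l0 : Fin ((k - 1) * 2 ^ k + 1), ∃ J : Finset (Fin k), bt J ≠ 0 ∧
      ∑ w, bt J w * ((((l0 : ℕ) + 1) ^ (w : ℕ) : ℕ) : ℤ) = 0 := by
    intro l0
    obtain ⟨p, hp, hp3, hpD, hpM, hW, hCM⟩ := hC r hrn lam c l0
    have hp0 : (p : ℂ) ≠ 0 := by exact_mod_cast hp.ne_zero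
    have hS' := Pool.Agent.W466.EP.algInd_smul hS (fun _ => (p : ℚ)⁻¹)
      (fun _ => inv_ne_zero (by exact_mod_cast hp.ne_zero))
    obtain ⟨V, hVp, hVx, harch⟩ := exists_val_arch _ hS' hp
    set v := V.valuation with hv
    have hvp : v (p : ℂ) < 1 := by rwa [ValuationSubring.mem_nonunits_iff] at hVp
    have hvp0 : v (p : ℂ) ≠ 0 := (Valuation.ne_zero_iff _).2 hp0
    have hpos : 0 < v (p : ℂ) := zero_lt_iff.2 hvp0
    obtain ⟨c0, hc0, hcy, -, hbu⟩ := hgood p hp hpD V hVp y hy hyY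
    obtain ⟨h1, h2⟩ := hlam V (fun i => absurd i.2 (Finset.notMem_empty _))
    have hle : ∀ τ, v (∑ j, (vdm s τ j : ℂ) * (c0 • y) j) ≤ 1 := fun τ =>
      (ValuationSubring.valuation_le_one_iff V _).2
        (sum_mem fun j _ => mul_mem (intCast_mem V _) (hcy j))
    -- the forms of `S`
    have hS1 : ∀ b ∈ S, v (∑ j, (vdm s (n + q + k + (b : ℕ)) j : ℂ) * (c0 • y) j) < 1 := by
      intro b hbS
      have h3 := (ValuationSubring.valuation_le_one_iff V _).2 (hVx ⟨b, hbS⟩)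
      rw [← hv] at h3
      have h4 : (∑ j, (vdm s (n + q + k + (b : ℕ)) j : ℂ) * (c0 • y) j) = (p : ℂ) *
          (algebraMap ℚ ℂ ((p : ℚ)⁻¹) * ((∑ j, (vdm s (n + q + k + (b0 : ℕ)) j : ℂ) * y j)⁻¹ *
            ∑ j, (vdm s (n + q + k + (b : ℕ)) j : ℂ) * y j)) *
            (∑ j, (vdm s (n + q + k + (b0 : ℕ)) j : ℂ) * (c0 • y) j) := by
        rw [lf_smul, lf_smul, map_inv₀, map_natCast]
        field_simp
      rw [h4, map_mul, map_mul]
      calc v (p : ℂ) * v (algebraMap ℚ ℂ ((p : ℚ)⁻¹) *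
            ((∑ j, (vdm s (n + q + k + (b0 : ℕ)) j : ℂ) * y j)⁻¹ *
            ∑ j, (vdm s (n + q + k + (b : ℕ)) j : ℂ) * y j)) *
            v (∑ j, (vdm s (n + q + k + (b0 : ℕ)) j : ℂ) * (c0 • y) j)
          ≤ v (p : ℂ) * 1 * 1 := by
            exact mul_le_mul' (mul_le_mul' le_rfl h3) (hle _)
        _ < 1 := by rwa [mul_one, mul_one]
    -- the forms of the `j`-invariants
    have hI3 : ∀ i ∈ I, v (∑ j, (vdm s (i : ℕ) j : ℂ) * (c0 • y) j) < 1 := by
      intro i hi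
      exact core2 he hp hp3 hK lam (fun t : Fin (n + q + k + m + 1) => vdm s t)
        (fun i => ⟨i, by omega⟩) A B hW V hVp (c0 • y) hcy x (by
          intro i
          rw [dsc_smul, ev_smul, mul_assoc, hxy]
          have h3 : c0 ^ (12 * e i) = (c0 ^ (4 * e i)) ^ 3 := by
            rw [← pow_mul]
            congr 1
            ring
          rw [h3]
          ring) h1 h2 i (hI1 i hi)
    -- the forms of the multisections
    let U2 : Finset (Fin q) := Finset.univ.filter fun l =>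
      v (∑ j, (vdm s (n + (l : ℕ)) j : ℂ) * (c0 • y) j) ≠ 1
    have hU2i : ∀ i, Module.finrank (E i).O (Λ i) ≤ (U2.filter fun l => g l = i).card := by
      intro i
      by_contra hlt
      push Not at hlt
      obtain ⟨a, haΛ, ha0, haU⟩ := exists_relO (Λ i) (U2.filter fun l => g l = i) hlt
      obtain ⟨t, ht, hrel⟩ := hΛ i a haΛ
      have hz : c0 ^ e i ≠ 0 := pow_ne_zero _ hc0
      have hvA : v ((c0 ^ e i) ^ 4 * ev (A i) y) ≤ 1 := by
        have h3 : (c0 ^ e i) ^ 4 * ev (A i) y = ev (A i) (c0 • y) := by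
          rw [ev_smul, ← pow_mul]
          congr 2
          ring
        rw [h3]
        exact (ValuationSubring.valuation_le_one_iff V _).2 (ev_mem V hcy _)
      have hvB : v ((c0 ^ e i) ^ 6 * ev (B i) y) ≤ 1 := by
        have h3 : (c0 ^ e i) ^ 6 * ev (B i) y = ev (B i) (c0 • y) := by
          rw [ev_smul, ← pow_mul]
          congr 2
          ring
        rw [h3]
        exact (ValuationSubring.valuation_le_one_iff V _).2 (ev_mem V hcy _)
      obtain ⟨π, hπ⟩ := IsAlgClosed.exists_pow_nat_eq (p : ℂ) (hR0 i)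
      have hρR : v (p : ℂ) = v π ^ R i := by rw [← hπ, map_pow]
      have hρ0 : 0 < v π := by
        refine zero_lt_iff.2 fun h0 => ?_
        rw [h0, zero_pow (hR0 i).ne'] at hρR
        exact hvp0 hρR
      let J : Finset (Fin q) := Finset.univ.filter fun l => g l = i ∧ l ∉ U2
      have hJ : ∀ l ∈ J, g l = i ∧ l ∉ U2 := fun l hl => (Finset.mem_filter.1 hl).2
      have hval : ∀ l, g l = i → v (∑ j, (vdm s (n + (l : ℕ)) j : ℂ) * (c0 • y) j) = 1 →
          v (xx (scl (u := c0 ^ e i) hz (P i l))) * v π ^ levM g R c l = 1 := by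
        rintro l rfl hu1
        have hC1 : Cong1 K p (levM g R c l) (vdm s (n + (l : ℕ))) (F l) :=
          ⟨hCM.first l, hCM.last l, hCM.mid l⟩
        exact msec_val (hR0 (g l)) ((levM_le g R c l).trans_lt (hKl l))
          ((Nat.zero_le _).trans_lt (levM_gt g R c l)) hp hC1 V hVp hc0 hcy hu1 hρR _ (hP l)
      refine rel_placeE hp hVp harch hz hvA hvB (E i) hρR (hR0 i) hρ0 (P i) J (levM g R c) ?_
        ?_ ?_ a ha0 ?_ ht hrel
      · intro l hl
        refine hval l (hJ l hl).1 ?_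
        by_contra h4
        exact (hJ l hl).2 (Finset.mem_filter.2 ⟨Finset.mem_univ _, h4⟩)
      · intro l hl
        have h3 := levM_gt g R c l
        rw [(hJ l hl).1] at h3
        omega
      · intro l hl l' hl' hne
        have h3 := (hJ l hl).1
        have h4 := (hJ l' hl').1
        have h5 := levM_modR (R := R) (h3.trans h4.symm) (hcc l l') hne (by
          refine (Finset.card_le_card ?_).trans (hqR (g l))
          intro l'' hl''
          exact Finset.mem_filter.2 ⟨Finset.mem_univ _, (Finset.mem_filter.1 hl'').2.1⟩)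
        rwa [h3] at h5
      · intro l hl
        by_cases h3 : g l = i
        · refine haU l (Finset.mem_filter.2 ⟨?_, h3⟩)
          by_contra h4
          exact hl (Finset.mem_filter.2 ⟨Finset.mem_univ _, h3, h4⟩)
        · exact hΛg i a haΛ l h3
    have hU2 : ∑ i, Module.finrank (E i).O (Λ i) ≤ U2.card := by
      rw [Finset.card_eq_sum_card_fiberwise (f := g) (t := Finset.univ)
        (fun l _ => Finset.mem_coe.2 (Finset.mem_univ _))]
      exact Finset.sum_le_sum fun i _ => hU2i i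
    -- the forms of the functions
    let U3 : Finset (Fin k) := Finset.univ.filter fun w =>
      v (∑ j, (vdm s (n + q + (w : ℕ)) j : ℂ) * (c0 • y) j) ≠ 1
    have hcard := nonunit_card (m := m) (M := n + q + k + m) par par_inj par_le hp hpM V hVp s
      (c0 • y) hcy hbu (((I.disjSum U2).disjSum U3).disjSum S) (by
        rintro (((i | l) | w) | b) hx'
        · rw [Finset.inl_mem_disjSum, Finset.inl_mem_disjSum, Finset.inl_mem_disjSum] at hx'
          exact (hI3 i hx').ne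
        · rw [Finset.inl_mem_disjSum, Finset.inl_mem_disjSum, Finset.inr_mem_disjSum] at hx'
          exact (Finset.mem_filter.1 hx').2
        · rw [Finset.inl_mem_disjSum, Finset.inr_mem_disjSum] at hx'
          exact (Finset.mem_filter.1 hx').2
        · rw [Finset.inr_mem_disjSum] at hx'
          exact (hS1 b hx').ne)
    rw [Finset.card_disjSum, Finset.card_disjSum, Finset.card_disjSum] at hcard
    have hlt2 : U3.card < Module.finrank ℤ M₂ := by omega
    obtain ⟨r', hr, hr0, hrF⟩ := exists_rel M₂ U3 hlt2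
    refine ⟨U3ᶜ, ?_, ?_⟩
    · refine hbt0 _ ⟨r', hr, hr0, fun j hj => ?_⟩
      rw [Finset.mem_compl, not_not] at hj
      exact hrF j hj
    · obtain ⟨t, ht, h3⟩ := hM₂ _ (hbtM U3ᶜ)
      refine tor_simple (v := v) hpos hvp u U3ᶜ (fun w => ((l0 : ℕ) + 1) ^ (w : ℕ)) ?_
        (bt U3ᶜ) (hbtJ _) ?_
      · intro w hw
        have hu1 : v (∑ j, (vdm s (n + q + (w : ℕ)) j : ℂ) * (c0 • y) j) = 1 := by
          by_contra h4
          exact (Finset.mem_compl.1 hw) (Finset.mem_filter.2 ⟨Finset.mem_univ _, h4⟩)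
        refine fun_val ?_ hp V hVp hc0 hcy (hCM.num w) (hCM.den w) hu1 (hu w)
        refine lt_of_le_of_lt ?_ hKf
        have h5 : (l0 : ℕ) + 1 ≤ (k - 1) * 2 ^ k + 1 := l0.2
        calc ((l0 : ℕ) + 1) ^ (w : ℕ) ≤ ((k - 1) * 2 ^ k + 1) ^ (w : ℕ) :=
              Nat.pow_le_pow_left h5 _
          _ ≤ ((k - 1) * 2 ^ k + 1) ^ k := Nat.pow_le_pow_right (by omega) w.2.le
      · have h4 := congrArg v h3
        rw [map_pow, map_one] at h4
        have h5 : v (∏ j, u j ^ bt U3ᶜ j) ^ t = 1 ^ t := by rw [h4, one_pow]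
        exact (pow_left_inj₀ zero_le zero_le ht.ne').1 h5
  choose Jf hJf1 hJf2 using hone
  obtain ⟨J, -, hJ⟩ := Finset.exists_lt_card_fiber_of_mul_lt_card_of_maps_to
    (s := (Finset.univ : Finset (Fin ((k - 1) * 2 ^ k + 1))))
    (t := (Finset.univ : Finset (Finset (Fin k)))) (f := Jf) (n := k - 1)
    (fun _ _ => Finset.mem_univ _) (by
      rw [Finset.card_univ, Finset.card_univ, Fintype.card_finset, Fintype.card_fin,
        Fintype.card_fin, mul_comm]
      omega)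
  have hJq : k ≤ (Finset.univ.filter fun l => Jf l = J).card := by omega
  obtain ⟨I', hIJ, hIq⟩ := Finset.exists_subset_card_eq hJq
  have hne : (Finset.univ.filter fun l => Jf l = J).Nonempty := by
    rw [← Finset.card_pos]
    omega
  obtain ⟨l, hl⟩ := hne
  have h1 := hJf1 l
  rw [(Finset.mem_filter.1 hl).2] at h1
  apply h1
  refine (goodExp_vandermonde (α := Empty) k 1 (fun i => i.elim) (fun i => i.elim)
    (fun i => i.elim)).2.2 I' hIq (bt J) fun l' hl' => ?_
  have h2 := hJf2 l'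
  rwa [(Finset.mem_filter.1 (hIJ hl')).2] at h2

end Pool.Agent.TH971.RF
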